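import Pool.Agent.Lib.MP_28dc30_nt.Main

/-! Liouville, and the packaged hyperplane lemma. -/

open MvPolynomial

namespace SB

/-- Liouville's inequality for all rational numbers. -/
theorem liouville_den (α : ℝ) (hirr : Irrational α) (halg : IsAlgebraic ℚ α) :
    ∃ A : ℝ, 0 < A ∧ ∃ D : ℕ, 1 ≤ D ∧ ∀ r : ℚ, 1 ≤ (r.den : ℝ) ^ D * (|α - r| * A) := by
  have halgZ : IsAlgebraic ℤ α := (IsFractionRing.isAlgebraic_iff ℤ ℚ ℝ).2 halg
  obtain ⟨f, f0, hf⟩ := halgZ
  have hf' : Polynomial.eval α (Polynomial.map (algebraMap ℤ ℝ) f) = 0 := by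
    rw [Polynomial.eval_map_algebraMap]
    exact hf
  obtain ⟨A, hA, h⟩ := Liouville.exists_pos_real_of_irrational_root hirr f0 hf'
  refine ⟨A, hA, f.natDegree + 1, by omega, fun r => ?_⟩
  have h1 := h r.num (r.den - 1)
  have hd : 1 ≤ r.den := r.pos
  have hd' : ((r.den - 1 : ℕ) : ℝ) + 1 = (r.den : ℝ) := by
    rw [Nat.cast_sub hd]; push_cast; ring
  rw [hd'] at h1
  have h2 : ((r.num : ℝ) / (r.den : ℝ)) = (r : ℝ) := by
    rw [Rat.cast_def]
  rw [h2] at h1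
  have hd2 : (1 : ℝ) ≤ (r.den : ℝ) := by exact_mod_cast hd
  have h3 : (r.den : ℝ) ^ f.natDegree ≤ (r.den : ℝ) ^ (f.natDegree + 1) :=
    pow_le_pow_right₀ hd2 (Nat.le_succ _)
  exact h1.trans (mul_le_mul_of_nonneg_right h3 (by positivity))

theorem log_eq_sum_of_primeFactors_subset {S : Finset ℕ} {E : ℕ} (hES : E.primeFactors ⊆ S) :
    Real.log (E : ℝ) = ∑ p ∈ S, (E.factorization p : ℝ) * Real.log p := by
  rw [Real.log_nat_eq_sum_factorization]
  unfold Finsupp.sum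
  apply Finset.sum_subset (by simpa using hES)
  intro p _ hp
  have : E.factorization p = 0 := Finsupp.notMem_support_iff.1 hp
  simp [this]

/-- The hyperplane lemma in multiplicative form. -/
theorem hyperplane_lemma' {n : ℕ} (K : IntermediateField ℚ ℝ) [FiniteDimensional ℚ K]
    (N N' : Matrix (Fin (n + 2)) (Fin (n + 2)) ℝ) (hN : N' * N = 1)
    (hN' : ∀ i j, N' i j ∈ K) (S : Finset ℕ) (hS : ∀ p ∈ S, p.Prime)
    (C₀ ε c : ℝ) (hε : 0 < ε) (hc : 0 < c) (T : Set ℕ) (hT : T.Infinite)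
    (u : ℕ → Fin (n + 1) → Fin (n + 2) → ℤ) (V : ℕ → Fin (n + 2) → ℤ)
    (B : ℕ → Fin (n + 2) → ℝ) (E : ℕ → Fin (n + 2) → ℕ)
    (hu : ∀ m ∈ T, ∀ j i, |∑ l, N i l * (u m j l : ℝ)| ≤ B m i)
    (hdiv : ∀ m ∈ T, ∀ j i, ((E m i : ℕ) : ℤ) ∣ u m j i)
    (hB : ∀ m ∈ T, ∀ i, Real.exp (-(C₀ * m)) ≤ B m i ∧ B m i ≤ Real.exp (C₀ * m))
    (hE0 : ∀ m ∈ T, ∀ i, E m i ≠ 0) (hES : ∀ m ∈ T, ∀ i, (E m i).primeFactors ⊆ S)
    (hE : ∀ m ∈ T, ∀ i, (E m i : ℝ) ≤ Real.exp (C₀ * m))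
    (hprod : ∀ m ∈ T, (∏ i, B m i) * Real.exp (ε * m) ≤ ∏ i, (E m i : ℝ))
    (hV0 : ∀ m ∈ T, V m 0 ≠ 0)
    (hspan : ∀ m ∈ T, ∀ w : Fin (n + 2) → ℚ, ∑ i, (V m i : ℚ) * w i = 0 →
      w ∈ Submodule.span ℚ (Set.range fun j : Fin (n + 1) => fun i => (u m j i : ℚ)))
    (hden : ∀ m ∈ T, Real.exp (c * m) ≤ ((-(V m 1 : ℚ) / (V m 0 : ℚ)).den : ℝ)) :
    False := by
  have hBpos : ∀ m ∈ T, ∀ i, 0 < B m i := fun m hm i =>
    lt_of_lt_of_le (Real.exp_pos _) (hB m hm i).1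
  refine hyperplane_lemma K N N' hN hN' S hS (2 * |C₀|) ε c hε hc (T \ {0})
    (hT.sdiff (Set.finite_singleton 0)) u V (fun m i => Real.log (B m i) / m)
    (fun m p i => (E m i).factorization p) ?_ ?_ ?_ ?_ ?_
    (fun m hm => hV0 m hm.1) (fun m hm => hspan m hm.1) (fun m hm => hden m hm.1)
  · intro m hm j i
    have hm0 : (m : ℝ) ≠ 0 := by
      have : m ≠ 0 := fun h => hm.2 (by simpa using h)
      exact_mod_cast this
    rw [div_mul_cancel₀ _ hm0, Real.exp_log (hBpos m hm.1 i)]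
    exact hu m hm.1 j i
  · intro m hm p hp j i
    refine dvd_trans ?_ (hdiv m hm.1 j i)
    have : p ^ (E m i).factorization p ∣ E m i := Nat.ordProj_dvd _ _
    exact_mod_cast this
  · intro m hm i
    have hm0 : 0 < (m : ℝ) := by
      have : m ≠ 0 := fun h => hm.2 (by simpa using h)
      exact_mod_cast Nat.pos_of_ne_zero this
    have h1 : -(C₀ * m) ≤ Real.log (B m i) := by
      rw [Real.le_log_iff_exp_le (hBpos m hm.1 i)]; exact (hB m hm.1 i).1
    have h2 : Real.log (B m i) ≤ C₀ * m := by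
      rw [Real.log_le_iff_le_exp (hBpos m hm.1 i)]; exact (hB m hm.1 i).2
    have h3 : |Real.log (B m i) / m| ≤ C₀ := by
      rw [abs_le]
      constructor
      · rw [le_div_iff₀ hm0]; linarith
      · rw [div_le_iff₀ hm0]; exact h2
    have h4 : C₀ ≤ |C₀| := le_abs_self _
    have h5 : 0 ≤ |C₀| := abs_nonneg _
    linarith
  · intro m hm p hp i
    have hm0 : 0 < (m : ℝ) := by
      have : m ≠ 0 := fun h => hm.2 (by simpa using h)
      exact_mod_cast Nat.pos_of_ne_zero this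
    have hp2 : 2 ≤ p := (hS p hp).two_le
    have h1 : p ^ (E m i).factorization p ≤ E m i :=
      Nat.le_of_dvd (Nat.pos_of_ne_zero (hE0 m hm.1 i)) (Nat.ordProj_dvd _ _)
    have h2 : 2 ^ (E m i).factorization p ≤ E m i := (Nat.pow_le_pow_left hp2 _).trans h1
    have h3 : (2 : ℝ) ^ (E m i).factorization p ≤ Real.exp (C₀ * m) := by
      refine le_trans ?_ (hE m hm.1 i)
      exact_mod_cast h2
    have h4 : ((E m i).factorization p : ℝ) * Real.log 2 ≤ C₀ * m := by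
      have := Real.log_le_log (by positivity) h3
      rwa [Real.log_exp, Real.log_pow] at this
    have h5 : (1 : ℝ) / 2 < Real.log 2 := by
      have := Real.log_two_gt_d9
      linarith
    have h6 : C₀ * m ≤ |C₀| * m := mul_le_mul_of_nonneg_right (le_abs_self _) hm0.le
    have h7 : 0 ≤ ((E m i).factorization p : ℝ) := by positivity
    have h8 : ((E m i).factorization p : ℝ) * (1 / 2) ≤ |C₀| * m := by
      refine le_trans (mul_le_mul_of_nonneg_left h5.le h7) (h4.trans h6)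
    linarith
  · intro m hm
    have hm0 : (m : ℝ) ≠ 0 := by
      have : m ≠ 0 := fun h => hm.2 (by simpa using h)
      exact_mod_cast this
    have h1 : ∑ i, Real.log (B m i) / m * m = ∑ i, Real.log (B m i) :=
      Finset.sum_congr rfl fun i _ => div_mul_cancel₀ _ hm0
    rw [h1, ← Real.log_prod (fun i _ => (hBpos m hm.1 i).ne'), Finset.sum_comm]
    have h2 : ∀ i, ∑ p ∈ S, ((E m i).factorization p : ℝ) * Real.log p = Real.log (E m i) :=
      fun i => (log_eq_sum_of_primeFactors_subset (hES m hm.1 i)).symm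
    rw [Finset.sum_congr rfl fun i _ => h2 i,
      ← Real.log_prod (fun i _ => by exact_mod_cast hE0 m hm.1 i)]
    have hBp : 0 < ∏ i, B m i := Finset.prod_pos fun i _ => hBpos m hm.1 i
    have h3 : Real.log (∏ i, B m i) + ε * m =
        Real.log ((∏ i, B m i) * Real.exp (ε * m)) := by
      rw [Real.log_mul hBp.ne' (Real.exp_pos _).ne', Real.log_exp]
    rw [h3]
    exact Real.log_le_log (mul_pos hBp (Real.exp_pos _)) (hprod m hm.1)

end SB
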