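import Pool.Agent.Lib.MP_28dc30_nt.App_liouville

/-! Ridout's theorem from the hyperplane lemma. -/

open MvPolynomial

namespace SB

/-- Ridout's theorem in the form needed: `r ≈ -γ w`, `E ∣ r`, `F ∣ w` with `S`-units `E, F`. -/
theorem ridout (γ : ℝ) (hirr : Irrational γ) (halg : IsAlgebraic ℚ γ) (S : Finset ℕ)
    (hS : ∀ p ∈ S, p.Prime) (C₀ ε c : ℝ) (hε : 0 < ε) (hc : 0 < c) (T : Set ℕ)
    (hT : T.Infinite) (r w : ℕ → ℤ) (E F : ℕ → ℕ) (hw : ∀ m ∈ T, w m ≠ 0)
    (happ : ∀ m ∈ T, |(r m : ℝ) + γ * w m| ≤ Real.exp (-(c * m)) * |(w m : ℝ)|)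
    (hwC : ∀ m ∈ T, |(w m : ℝ)| ≤ Real.exp (C₀ * m))
    (hE0 : ∀ m ∈ T, E m ≠ 0) (hF0 : ∀ m ∈ T, F m ≠ 0)
    (hES : ∀ m ∈ T, (E m).primeFactors ⊆ S) (hFS : ∀ m ∈ T, (F m).primeFactors ⊆ S)
    (hEC : ∀ m ∈ T, (E m : ℝ) ≤ Real.exp (C₀ * m)) (hFC : ∀ m ∈ T, (F m : ℝ) ≤ Real.exp (C₀ * m))
    (hEr : ∀ m ∈ T, ((E m : ℕ) : ℤ) ∣ r m) (hFw : ∀ m ∈ T, ((F m : ℕ) : ℤ) ∣ w m)
    (hprod : ∀ m ∈ T, |(r m : ℝ) + γ * w m| * |(w m : ℝ)| * Real.exp (ε * m) ≤ E m * F m) :
    False := by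
  obtain ⟨A, hA, D, hD, hL⟩ := liouville_den (-γ) hirr.neg halg.neg
  -- threshold
  obtain ⟨m0, hm0⟩ : ∃ m0 : ℕ, A ≤ Real.exp (c / 2 * m0) := by
    obtain ⟨m0, hm0⟩ := exists_nat_ge (A / (c / 2))
    refine ⟨m0, ?_⟩
    have h1 : A ≤ c / 2 * m0 := by
      rw [div_le_iff₀ (by positivity)] at hm0
      linarith
    have h2 := Real.add_one_le_exp (c / 2 * m0)
    linarith
  set C₁ : ℝ := |C₀| + ε with hC₁
  have hC₁0 : 0 ≤ C₁ := by positivity
  have hCC : ∀ m : ℕ, Real.exp (C₀ * m) ≤ Real.exp (C₁ * m) := by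
    intro m
    apply Real.exp_le_exp.2
    apply mul_le_mul_of_nonneg_right _ (Nat.cast_nonneg m)
    have := le_abs_self C₀
    linarith
  have hfin : FiniteDimensional ℚ (IntermediateField.adjoin ℚ {γ}) :=
    IntermediateField.adjoin.finiteDimensional halg.isIntegral
  have hγ : γ ∈ IntermediateField.adjoin ℚ {γ} := IntermediateField.mem_adjoin_simple_self ℚ γ
  have hw1 : ∀ m ∈ T, 1 ≤ |(w m : ℝ)| := by
    intro m hm
    have := Int.one_le_abs (hw m hm)
    exact_mod_cast this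
  refine hyperplane_lemma' (n := 0) (IntermediateField.adjoin ℚ {γ}) !![1, γ; 0, 1]
    !![1, -γ; 0, 1] ?_ ?_ S hS C₁ ε (c / (2 * D)) hε (by positivity) (T \ {m | m < m0})
    (hT.sdiff (Set.finite_lt_nat m0)) (fun m _ => ![r m, w m]) (fun m => ![w m, -r m])
    (fun m => ![max |(r m : ℝ) + γ * w m| (Real.exp (-(C₁ * m))), |(w m : ℝ)|])
    (fun m => ![E m, F m]) ?_ ?_ ?_ ?_ ?_ ?_ ?_ ?_ ?_ ?_
  · ext i j
    fin_cases i <;> fin_cases j <;> simp [Matrix.mul_apply, Fin.sum_univ_two]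
  · intro i j
    fin_cases i <;> fin_cases j
    · simp
    · simpa using hγ
    · simp
    · simp
  · intro m hm j i
    fin_cases i
    · simp [Fin.sum_univ_two]
    · simp [Fin.sum_univ_two]
  · intro m hm j i
    fin_cases i
    · simpa using hEr m hm.1
    · simpa using hFw m hm.1
  · intro m hm i
    have h1 : Real.exp (-(C₁ * m)) ≤ 1 := by
      rw [Real.exp_le_one_iff]
      have : 0 ≤ C₁ * m := by positivity
      linarith
    have h2 : 1 ≤ Real.exp (C₁ * m) := by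
      rw [Real.one_le_exp_iff]
      positivity
    fin_cases i
    · refine ⟨le_max_right _ _, max_le ?_ (h1.trans h2)⟩
      refine (happ m hm.1).trans ?_
      have h3 : Real.exp (-(c * m)) ≤ 1 := by
        rw [Real.exp_le_one_iff]
        have : 0 ≤ c * m := by positivity
        linarith
      calc Real.exp (-(c * m)) * |(w m : ℝ)| ≤ 1 * |(w m : ℝ)| :=
            mul_le_mul_of_nonneg_right h3 (abs_nonneg _)
        _ = |(w m : ℝ)| := one_mul _
        _ ≤ Real.exp (C₁ * m) := (hwC m hm.1).trans (hCC m)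
    · exact ⟨h1.trans (hw1 m hm.1), (hwC m hm.1).trans (hCC m)⟩
  · intro m hm i
    fin_cases i
    · exact hE0 m hm.1
    · exact hF0 m hm.1
  · intro m hm i
    fin_cases i
    · exact hES m hm.1
    · exact hFS m hm.1
  · intro m hm i
    fin_cases i
    · exact (hEC m hm.1).trans (hCC m)
    · exact (hFC m hm.1).trans (hCC m)
  · intro m hm
    rw [Fin.prod_univ_two, Fin.prod_univ_two]
    show max |(r m : ℝ) + γ * w m| (Real.exp (-(C₁ * m))) * |(w m : ℝ)| * Real.exp (ε * m) ≤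
      (E m : ℝ) * F m
    have hEF : (1 : ℝ) ≤ (E m : ℝ) * F m := by
      have h1 : 1 ≤ E m * F m := Nat.one_le_iff_ne_zero.2 (mul_ne_zero (hE0 m hm.1) (hF0 m hm.1))
      exact_mod_cast h1
    rcases le_total |(r m : ℝ) + γ * w m| (Real.exp (-(C₁ * m))) with h | h
    · rw [max_eq_right h]
      refine le_trans ?_ hEF
      have h1 : |(w m : ℝ)| ≤ Real.exp (|C₀| * m) := by
        refine (hwC m hm.1).trans (Real.exp_le_exp.2 ?_)
        exact mul_le_mul_of_nonneg_right (le_abs_self C₀) (Nat.cast_nonneg m)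
      calc Real.exp (-(C₁ * m)) * |(w m : ℝ)| * Real.exp (ε * m)
          ≤ Real.exp (-(C₁ * m)) * Real.exp (|C₀| * m) * Real.exp (ε * m) := by gcongr
        _ = 1 := by
          rw [← Real.exp_add, ← Real.exp_add, hC₁]
          have : -((|C₀| + ε) * (m : ℝ)) + |C₀| * m + ε * m = 0 := by ring
          rw [this, Real.exp_zero]
    · rw [max_eq_left h]
      exact hprod m hm.1
  · intro m hm
    simpa using hw m hm.1
  · intro m hm v hv
    have hwQ : (w m : ℚ) ≠ 0 := by exact_mod_cast hw m hm.1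
    rw [Fin.sum_univ_two] at hv
    replace hv : ((w m : ℤ) : ℚ) * v 0 + ((-r m : ℤ) : ℚ) * v 1 = 0 := hv
    push_cast at hv
    refine Submodule.mem_span.2 fun p hp => ?_
    have h1 : v = (v 1 / (w m : ℚ)) • (fun i => ((![r m, w m] i : ℤ) : ℚ)) := by
      funext i
      fin_cases i
      · simp
        field_simp
        linarith
      · simp
        field_simp
    rw [h1]
    exact p.smul_mem _ (hp ⟨0, rfl⟩)
  · intro m hm
    have hwR : (w m : ℝ) ≠ 0 := by exact_mod_cast hw m hm.1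
    have hmm : m0 ≤ m := by
      by_contra h
      exact hm.2 (by simpa using h)
    have hx : (-((![w m, -r m] 1 : ℤ) : ℚ) / ((![w m, -r m] 0 : ℤ) : ℚ)) = (r m : ℚ) / w m := by
      simp
    rw [hx]
    set q : ℚ := (r m : ℚ) / w m with hq
    have h1 := hL q
    have h2 : |-γ - (q : ℝ)| ≤ Real.exp (-(c * m)) := by
      have h3 : -γ - (q : ℝ) = -(((r m : ℝ) + γ * w m) / w m) := by
        rw [hq]; push_cast; field_simp; ring
      rw [h3, abs_neg, abs_div, div_le_iff₀ (abs_pos.2 hwR)]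
      exact happ m hm.1
    have hden : (0 : ℝ) < (q.den : ℝ) := by exact_mod_cast q.pos
    have h4 : 1 ≤ (q.den : ℝ) ^ D * (Real.exp (-(c * m)) * A) := by
      refine h1.trans ?_
      gcongr
    have h5 : A ≤ Real.exp (c / 2 * m) := by
      refine hm0.trans (Real.exp_le_exp.2 ?_)
      gcongr
    have h6 : 1 ≤ (q.den : ℝ) ^ D * Real.exp (-(c / 2 * m)) := by
      refine h4.trans ?_
      apply mul_le_mul_of_nonneg_left _ (by positivity)
      calc Real.exp (-(c * m)) * A ≤ Real.exp (-(c * m)) * Real.exp (c / 2 * m) := by gcongr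
        _ = Real.exp (-(c / 2 * m)) := by rw [← Real.exp_add]; congr 1; ring
    have h7 : Real.exp (c / 2 * m) ≤ (q.den : ℝ) ^ D := by
      have h8 : Real.exp (c / 2 * m) * 1 ≤
          Real.exp (c / 2 * m) * ((q.den : ℝ) ^ D * Real.exp (-(c / 2 * m))) :=
        mul_le_mul_of_nonneg_left h6 (Real.exp_pos _).le
      have h9 : Real.exp (c / 2 * m) * ((q.den : ℝ) ^ D * Real.exp (-(c / 2 * m))) =
          (q.den : ℝ) ^ D := by
        have : Real.exp (c / 2 * m) * Real.exp (-(c / 2 * m)) = 1 := by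
          rw [← Real.exp_add]; simp
        calc _ = (q.den : ℝ) ^ D * (Real.exp (c / 2 * m) * Real.exp (-(c / 2 * m))) := by ring
          _ = _ := by rw [this, mul_one]
      linarith
    have hD0 : (0 : ℝ) < D := by exact_mod_cast hD
    have h10 : Real.exp (c / (2 * D) * m) ^ D ≤ (q.den : ℝ) ^ D := by
      refine le_trans (le_of_eq ?_) h7
      rw [← Real.exp_nat_mul]
      congr 1
      field_simp
    exact le_of_pow_le_pow_left₀ (by omega) hden.le h10

end SB
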