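import Pool.Agent.Lib.MP_28dc30_nt.Defs

/-! Weighted l1 norms of polynomials. -/

open MvPolynomial

namespace SB

variable {σ R : Type*} [CommRing R] {ν : R → ℝ} {w : σ → ℝ}

private theorem norms_prod_nonneg (hw : ∀ s, 0 ≤ w s) (J : σ →₀ ℕ) :
    0 ≤ J.prod (fun s e => w s ^ e) :=
  Finset.prod_nonneg fun s _ => pow_nonneg (hw s) _

private theorem norms_of_subset (hν : IsSize ν) (p : MvPolynomial σ R) (S : Finset (σ →₀ ℕ))
    (h : p.support ⊆ S) :
    wn ν w p = ∑ J ∈ S, ν (p.coeff J) * J.prod (fun s e => w s ^ e) := by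
  rw [wn]
  refine Finset.sum_subset h fun J _ hJ => ?_
  rw [notMem_support_iff.mp hJ, hν.zero, zero_mul]

theorem wn_nonneg (hν : IsSize ν) (hw : ∀ s, 0 ≤ w s) (p : MvPolynomial σ R) : 0 ≤ wn ν w p :=
  Finset.sum_nonneg fun J _ => mul_nonneg (hν.nonneg _) (norms_prod_nonneg hw J)

theorem wn_zero : wn ν w (0 : MvPolynomial σ R) = 0 := by
  rw [wn, support_zero, Finset.sum_empty]

theorem wn_monomial (hν : IsSize ν) (J : σ →₀ ℕ) (c : R) :
    wn ν w (monomial J c) = ν c * J.prod (fun s e => w s ^ e) := by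
  classical
  rw [norms_of_subset hν _ {J} support_monomial_subset, Finset.sum_singleton, coeff_monomial,
    if_pos rfl]

theorem wn_C (hν : IsSize ν) (c : R) : wn ν w (C c : MvPolynomial σ R) = ν c := by
  rw [C_apply, wn_monomial hν, Finsupp.prod_zero_index, mul_one]

theorem wn_X (hν : IsSize ν) (s : σ) : wn ν w (X s : MvPolynomial σ R) = ν 1 * w s := by
  rw [X, wn_monomial hν, Finsupp.prod_single_index (by rw [pow_zero]), pow_one]

theorem wn_add_le (hν : IsSize ν) (hw : ∀ s, 0 ≤ w s) (p q : MvPolynomial σ R) :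
    wn ν w (p + q) ≤ wn ν w p + wn ν w q := by
  classical
  rw [norms_of_subset hν (p + q) (p.support ∪ q.support) support_add,
    norms_of_subset hν p (p.support ∪ q.support) Finset.subset_union_left,
    norms_of_subset hν q (p.support ∪ q.support) Finset.subset_union_right,
    ← Finset.sum_add_distrib]
  refine Finset.sum_le_sum fun J _ => ?_
  rw [← add_mul, coeff_add]
  exact mul_le_mul_of_nonneg_right (hν.add_le _ _) (norms_prod_nonneg hw J)

theorem wn_sum_le (hν : IsSize ν) (hw : ∀ s, 0 ≤ w s) {ι : Type*} (t : Finset ι)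
    (f : ι → MvPolynomial σ R) : wn ν w (∑ i ∈ t, f i) ≤ ∑ i ∈ t, wn ν w (f i) := by
  classical
  induction t using Finset.induction_on with
  | empty => rw [Finset.sum_empty, Finset.sum_empty, wn_zero]
  | insert i t hi ih =>
    rw [Finset.sum_insert hi, Finset.sum_insert hi]
    exact (wn_add_le hν hw _ _).trans (by gcongr)

theorem wn_mul_le (hν : IsSize ν) (hw : ∀ s, 0 ≤ w s) (p q : MvPolynomial σ R) :
    wn ν w (p * q) ≤ wn ν w p * wn ν w q := by
  classical
  have h1 : p * q = ∑ a ∈ p.support, ∑ b ∈ q.support,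
      monomial (a + b) (p.coeff a * q.coeff b) := by
    conv_lhs => rw [p.as_sum, q.as_sum]
    rw [Finset.sum_mul_sum]
    refine Finset.sum_congr rfl fun a _ => Finset.sum_congr rfl fun b _ => ?_
    rw [monomial_mul]
  rw [h1]
  refine (wn_sum_le hν hw _ _).trans ?_
  conv_rhs => rw [wn, wn]
  rw [Finset.sum_mul_sum]
  refine Finset.sum_le_sum fun a _ => ?_
  refine (wn_sum_le hν hw _ _).trans ?_
  refine Finset.sum_le_sum fun b _ => ?_
  rw [wn_monomial hν, Finsupp.prod_add_index' (fun s => pow_zero _) (fun s e f => pow_add _ _ _)]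
  calc ν (p.coeff a * q.coeff b) * ((a.prod fun s e => w s ^ e) * b.prod fun s e => w s ^ e)
      ≤ (ν (p.coeff a) * ν (q.coeff b)) *
        ((a.prod fun s e => w s ^ e) * b.prod fun s e => w s ^ e) :=
        mul_le_mul_of_nonneg_right (hν.mul_le _ _)
          (mul_nonneg (norms_prod_nonneg hw a) (norms_prod_nonneg hw b))
    _ = _ := by ring

theorem wn_pow_le (hν : IsSize ν) (hw : ∀ s, 0 ≤ w s) (p : MvPolynomial σ R) {B : ℝ}
    (hB : wn ν w p ≤ B) (h1 : ν 1 ≤ 1) (m : ℕ) : wn ν w (p ^ m) ≤ B ^ m := by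
  have hB0 : 0 ≤ B := (wn_nonneg hν hw p).trans hB
  induction m with
  | zero => rw [pow_zero, pow_zero, ← C_1, wn_C hν]; exact h1
  | succ m ih =>
    rw [pow_succ, pow_succ]
    exact (wn_mul_le hν hw _ _).trans (mul_le_mul ih hB (wn_nonneg hν hw p) (pow_nonneg hB0 m))

theorem wn_prod_le (hν : IsSize ν) (hw : ∀ s, 0 ≤ w s) (h1 : ν 1 ≤ 1) {ι : Type*} (t : Finset ι)
    (f : ι → MvPolynomial σ R) (B : ι → ℝ) (hB : ∀ i ∈ t, wn ν w (f i) ≤ B i) :
    wn ν w (∏ i ∈ t, f i) ≤ ∏ i ∈ t, B i := by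
  classical
  induction t using Finset.induction_on with
  | empty => rw [Finset.prod_empty, Finset.prod_empty, ← C_1, wn_C hν]; exact h1
  | insert i t hi ih =>
    rw [Finset.prod_insert hi, Finset.prod_insert hi]
    have h2 := hB i (Finset.mem_insert_self i t)
    exact (wn_mul_le hν hw _ _).trans (mul_le_mul h2
      (ih fun j hj => hB j (Finset.mem_insert_of_mem hj)) (wn_nonneg hν hw _)
      ((wn_nonneg hν hw _).trans h2))

/-- a coefficient is bounded by the norm -/
theorem coeff_le_wn (hν : IsSize ν) (hw : ∀ s, 0 ≤ w s) (p : MvPolynomial σ R) (J : σ →₀ ℕ) :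
    ν (p.coeff J) * J.prod (fun s e => w s ^ e) ≤ wn ν w p := by
  by_cases hJ : J ∈ p.support
  · exact Finset.single_le_sum
      (f := fun J => ν (p.coeff J) * J.prod (fun s e => w s ^ e))
      (fun J _ => mul_nonneg (hν.nonneg _) (norms_prod_nonneg hw J)) hJ
  · rw [notMem_support_iff.mp hJ, hν.zero, zero_mul]
    exact wn_nonneg hν hw p

theorem isSize_abs_real : IsSize (fun x : ℝ => |x|) :=
  ⟨abs_zero, abs_nonneg, abs_add_le, fun x y => (abs_mul x y).le⟩

theorem isSize_abs_int : IsSize (fun x : ℤ => |(x : ℝ)|) :=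
  ⟨by simp, fun x => abs_nonneg _, fun x y => by push_cast; exact abs_add_le _ _,
    fun x y => by push_cast; exact (abs_mul _ _).le⟩

end SB
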