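import Pool.Agent.Lib.MP_28dc30_nt.Count
import Pool.Agent.Lib.MP_28dc30_nt.Norms

/-! The auxiliary polynomial. -/

open MvPolynomial

namespace SB

section Siegel

attribute [local instance] Matrix.seminormedAddCommGroup

private theorem auxpoly_siegel {α β : Type*} [Fintype α] [Fintype β] (A : Matrix α β ℤ)
    (B : ℝ) (hB : 1 ≤ B) (hA : ∀ i j, |(A i j : ℝ)| ≤ B)
    (hc : 2 * Fintype.card α ≤ Fintype.card β) (hp : 0 < Fintype.card β) :
    ∃ t : β → ℤ, t ≠ 0 ∧ (∀ i, ∑ j, A i j * t j = 0) ∧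
      ∀ j, |(t j : ℝ)| ≤ (Fintype.card β : ℝ) * B := by
  have hβ : (1 : ℝ) ≤ Fintype.card β := by exact_mod_cast hp
  have h1 : (1 : ℝ) ≤ (Fintype.card β : ℝ) * B := one_le_mul_of_one_le_of_one_le hβ hB
  rcases Nat.eq_zero_or_pos (Fintype.card α) with h0 | h0
  · have : IsEmpty α := Fintype.card_eq_zero_iff.1 h0
    have hne : Nonempty β := Fintype.card_pos_iff.1 hp
    refine ⟨fun _ => 1, ?_, fun i => isEmptyElim i, fun j => by simpa using h1⟩
    intro h
    have := congrFun h hne.some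
    simp at this
  · obtain ⟨t, ht0, ht1, ht2⟩ := Int.Matrix.exists_ne_zero_int_vec_norm_le A (by omega) h0
    refine ⟨t, ht0, fun i => congrFun ht1 i, fun j => ?_⟩
    have hA' : ‖A‖ ≤ B := by
      rw [Matrix.norm_le_iff (by linarith)]
      intro i j
      rw [Int.norm_eq_abs]
      exact hA i j
    have h2 : ‖t j‖ ≤ ‖t‖ := norm_le_pi_norm t j
    rw [Int.norm_eq_abs] at h2
    refine h2.trans (ht2.trans ?_)
    have h3 : (1 : ℝ) ≤ (Fintype.card β : ℝ) * max 1 ‖A‖ :=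
      one_le_mul_of_one_le_of_one_le hβ (le_max_left _ _)
    have h4 : ((Fintype.card α : ℝ) / ((Fintype.card β : ℝ) - Fintype.card α)) ≤ 1 := by
      have : (2 : ℝ) * Fintype.card α ≤ Fintype.card β := by exact_mod_cast hc
      have h0' : (0 : ℝ) < Fintype.card α := by exact_mod_cast h0
      rw [div_le_one (by linarith)]
      linarith
    calc ((Fintype.card β : ℝ) * max 1 ‖A‖) ^
          ((Fintype.card α : ℝ) / ((Fintype.card β : ℝ) - Fintype.card α))
        ≤ ((Fintype.card β : ℝ) * max 1 ‖A‖) ^ (1 : ℝ) := Real.rpow_le_rpow_of_exponent_le h3 h4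
      _ = (Fintype.card β : ℝ) * max 1 ‖A‖ := Real.rpow_one _
      _ ≤ (Fintype.card β : ℝ) * B := by
          gcongr
          exact max_le hB hA'

end Siegel

section Size

attribute [local instance] Matrix.linftyOpNormedRing

private theorem auxpoly_size {D : ℕ} {R : Type*} [CommRing R]
    (Φ : R →+* Matrix (Fin D) (Fin D) ℤ) :
    ∃ ν : R → ℝ, IsSize ν ∧ ν 1 ≤ 1 ∧ ∀ x i j, |((Φ x i j : ℤ) : ℝ)| ≤ ν x := by
  refine ⟨fun x => ‖Φ x‖, ⟨by simp, fun x => norm_nonneg _, fun x y => ?_, fun x y => ?_⟩, ?_,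
    fun x i j => ?_⟩
  · simp only [map_add]
    exact norm_add_le _ _
  · simp only [map_mul]
    exact norm_mul_le _ _
  · simp only [map_one]
    rw [Matrix.linfty_opNorm_def]
    norm_cast
    refine Finset.sup_le fun i _ => ?_
    simp [Matrix.one_apply, apply_ite]
  · simp only
    rw [Matrix.linfty_opNorm_def, ← Int.norm_eq_abs]
    have h1 : ‖Φ x i j‖₊ ≤ ∑ j, ‖Φ x i j‖₊ :=
      Finset.single_le_sum (f := fun j => ‖Φ x i j‖₊) (fun _ _ => zero_le) (Finset.mem_univ j)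
    have h2 : (∑ j, ‖Φ x i j‖₊) ≤ Finset.univ.sup fun i => ∑ j, ‖Φ x i j‖₊ :=
      Finset.le_sup (f := fun i => ∑ j, ‖Φ x i j‖₊) (Finset.mem_univ i)
    exact_mod_cast h1.trans h2

end Size

private theorem auxpoly_order {n : ℕ} (K : IntermediateField ℚ ℝ) [FiniteDimensional ℚ K]
    (N' : Matrix (Fin n) (Fin n) ℝ) (hN' : ∀ i j, N' i j ∈ K) :
    ∃ (O : Type) (_ : CommRing O) (f : O →+* ℝ) (D : ℕ) (Φ : O →+* Matrix (Fin D) (Fin D) ℤ)
      (q : ℤ) (a : Fin n → Fin n → O), Function.Injective Φ ∧ q ≠ 0 ∧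
        ∀ i j, f (a i j) = q * N' i j := by
  classical
  let D := Module.finrank ℚ K
  let b := Module.finBasis ℚ K
  let M : K →+* Matrix (Fin D) (Fin D) ℚ := (Algebra.leftMulMatrix b).toRingHom
  have hM : Function.Injective M := Algebra.leftMulMatrix_injective b
  let ι : Matrix (Fin D) (Fin D) ℤ →+* Matrix (Fin D) (Fin D) ℚ := (Int.castRingHom ℚ).mapMatrix
  have hι : Function.Injective ι := by
    intro x y hxy
    ext i j
    have := congrFun (congrFun hxy i) j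
    simpa [ι] using this
  let S : Subring K := ι.range.comap M
  let e : Matrix (Fin D) (Fin D) ℤ ≃+* ι.range :=
    RingEquiv.ofBijective ι.rangeRestrict
      ⟨fun x y hxy => hι (congrArg Subtype.val hxy), ι.rangeRestrict_surjective⟩
  let M' : S →+* ι.range := M.restrict S ι.range (fun x hx => hx)
  have hM' : Function.Injective M' := by
    intro x y hxy
    have := congrArg Subtype.val hxy
    exact Subtype.ext (hM this)
  let N0 : Fin n → Fin n → K := fun i j => ⟨N' i j, hN' i j⟩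
  obtain ⟨⟨q, hq⟩, hq2⟩ := IsLocalization.exist_integer_multiples_of_finite
    (nonZeroDivisors ℤ) (fun p : (Fin n × Fin n) × (Fin D × Fin D) =>
      M (N0 p.1.1 p.1.2) p.2.1 p.2.2)
  have hmem : ∀ i j, (q : K) * N0 i j ∈ S := by
    intro i j
    choose z hz using fun r s => hq2 ((i, j), (r, s))
    refine ⟨Matrix.of z, ?_⟩
    ext r s
    have h1 := hz r s
    simp only [map_mul, map_intCast]
    simp only [ι, RingHom.mapMatrix_apply, Matrix.map_apply, Matrix.of_apply]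
    rw [← zsmul_eq_mul, Matrix.smul_apply]
    simpa using h1
  refine ⟨S, inferInstance, K.val.toRingHom.comp S.subtype, D,
    (e.symm : ι.range →+* Matrix (Fin D) (Fin D) ℤ).comp M', q,
    fun i j => ⟨(q : K) * N0 i j, hmem i j⟩, ?_, ?_, ?_⟩
  · intro x y hxy
    exact hM' (e.symm.injective hxy)
  · exact nonZeroDivisors.ne_zero hq
  · intro i j
    simp [N0]


/-- product of powers of the linear forms with coefficients `a` -/
private noncomputable def auxW {k n : ℕ} {R : Type*} [CommRing R] (a : Fin n → Fin n → R)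
    (J : Fin k × Fin n →₀ ℕ) : MvPolynomial (Fin k × Fin n) R :=
  ∏ p : Fin k × Fin n, (∑ i, C (a p.2 i) * X (p.1, i)) ^ (J p)

private theorem auxW_map {k n : ℕ} {R S : Type*} [CommRing R] [CommRing S] (f : R →+* S)
    (a : Fin n → Fin n → R) (J : Fin k × Fin n →₀ ℕ) :
    (auxW a J).map f = auxW (fun i j => f (a i j)) J := by
  simp [auxW, map_prod, map_pow, map_sum]

private theorem auxW_smul {k n : ℕ} {R : Type*} [CommRing R] (q : R)
    (a : Fin n → Fin n → R) (J : Fin k × Fin n →₀ ℕ) :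
    auxW (fun i j => q * a i j) J = C (q ^ (∑ p, J p)) * auxW a J := by
  simp only [auxW]
  rw [← Finset.prod_pow_eq_pow_sum, map_prod, ← Finset.prod_mul_distrib]
  refine Finset.prod_congr rfl fun p _ => ?_
  rw [C_pow, ← mul_pow, Finset.mul_sum]
  congr 1
  refine Finset.sum_congr rfl fun i _ => ?_
  rw [C_mul, mul_assoc]

private theorem sum_MDeg {k n : ℕ} {d : Fin k → ℕ} {J : Fin k × Fin n →₀ ℕ} (hJ : MDeg d J) :
    ∑ p, J p = ∑ h, d h := by
  rw [Fintype.sum_prod_type]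
  exact Finset.sum_congr rfl fun h _ => hJ h

private theorem auxW_MDeg {k n : ℕ} {R : Type*} [CommRing R]
    (a : Fin n → Fin n → R) {d : Fin k → ℕ} {J : Fin k × Fin n →₀ ℕ} (hJ : MDeg d J)
    {J' : Fin k × Fin n →₀ ℕ} (h : (auxW a J).coeff J' ≠ 0) : MDeg d J' := by
  classical
  let w : Fin k × Fin n → (Fin k → ℕ) := fun p => Pi.single p.1 1
  have h1 : IsWeightedHomogeneous w (auxW a J) (∑ p : Fin k × Fin n, J p • (Pi.single p.1 1)) := by
    refine IsWeightedHomogeneous.prod _ _ _ fun p _ => ?_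
    refine IsWeightedHomogeneous.pow ?_ _
    refine IsWeightedHomogeneous.sum _ _ _ fun i _ => ?_
    have := (isWeightedHomogeneous_C w (a p.2 i)).mul (isWeightedHomogeneous_X R w (p.1, i))
    simpa [w] using this
  have h2 := h1 h
  have key : ∀ (I : Fin k × Fin n →₀ ℕ) (x : Fin k),
      (∑ p : Fin k × Fin n, I p • (Pi.single p.1 1 : Fin k → ℕ)) x = ∑ i, I (x, i) := by
    intro I x
    rw [Finset.sum_apply, Fintype.sum_prod_type]
    rw [Finset.sum_eq_single x]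
    · simp
    · intro y _ hy
      refine Finset.sum_eq_zero fun i _ => ?_
      simp [hy.symm]
    · simp
  intro x
  have h3 := congrFun h2 x
  rw [key, hJ x] at h3
  rw [Finsupp.weight_apply, Finsupp.sum_fintype _ _ (by simp)] at h3
  rw [← h3, key]

private theorem auxW_wn {k n : ℕ} {R : Type*} [CommRing R] {ν : R → ℝ} (hν : IsSize ν)
    (h1 : ν 1 ≤ 1) (a : Fin n → Fin n → R) (B : ℝ) (hB : ∀ j, ∑ i, ν (a j i) ≤ B)
    {d : Fin k → ℕ} {J : Fin k × Fin n →₀ ℕ} (hJ : MDeg d J) :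
    wn ν (fun _ => 1) (auxW a J) ≤ B ^ (∑ h, d h) := by
  have hw : ∀ s : Fin k × Fin n, (0 : ℝ) ≤ (fun _ => 1 : Fin k × Fin n → ℝ) s := by
    intro s; simp
  rw [← sum_MDeg hJ, ← Finset.prod_pow_eq_pow_sum]
  refine wn_prod_le hν hw h1 _ _ (fun p => B ^ (J p)) fun p _ => ?_
  refine wn_pow_le hν hw _ ?_ h1 _
  refine (wn_sum_le hν hw _ _).trans (le_trans (Finset.sum_le_sum fun i _ => ?_) (hB p.2))
  refine (wn_mul_le hν hw _ _).trans ?_
  rw [wn_C hν, wn_X hν]
  have : ν (a p.2 i) * (ν 1 * 1) ≤ ν (a p.2 i) * 1 := by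
    refine mul_le_mul_of_nonneg_left ?_ (hν.nonneg _)
    linarith
  simpa using this

private theorem auxW_coeff {k n : ℕ} {R : Type*} [CommRing R] {ν : R → ℝ} (hν : IsSize ν)
    (h1 : ν 1 ≤ 1) (a : Fin n → Fin n → R) (B : ℝ) (hB : ∀ j, ∑ i, ν (a j i) ≤ B)
    {d : Fin k → ℕ} {J : Fin k × Fin n →₀ ℕ} (hJ : MDeg d J) (J' : Fin k × Fin n →₀ ℕ) :
    ν ((auxW a J).coeff J') ≤ B ^ (∑ h, d h) := by
  have h2 := coeff_le_wn hν (w := fun _ => 1) (fun _ => zero_le_one) (auxW a J) J'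
  refine le_trans ?_ (auxW_wn hν h1 a B hB hJ)
  refine le_trans (le_of_eq ?_) h2
  simp [Finsupp.prod]

/-- The polynomial `P` in the coordinates `N`, where `W_{h,j} = ∑ i N' j i * N_{h,i}`. -/
noncomputable def inN {k n : ℕ} (N' : Matrix (Fin n) (Fin n) ℝ)
    (P : MvPolynomial (Fin k × Fin n) ℤ) : MvPolynomial (Fin k × Fin n) ℝ :=
  aeval (fun q : Fin k × Fin n => ∑ i, C (N' q.2 i) * X (q.1, i)) (P.map (Int.castRingHom ℝ))

private theorem auxpoly_pow (E B R : ℝ) (s : ℕ) :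
    E ^ s * ((E ^ s * B ^ s) * R ^ s) = (E ^ 2 * B * R) ^ s := by
  rw [mul_pow, mul_pow, ← pow_mul]
  ring

private theorem inN_sum {k n : ℕ} (N' : Matrix (Fin n) (Fin n) ℝ)
    (s : Finset (Fin k × Fin n →₀ ℕ)) (t : (Fin k × Fin n →₀ ℕ) → ℤ) :
    inN N' (∑ J ∈ s, monomial J (t J)) = ∑ J ∈ s, C (t J : ℝ) * auxW (fun i j => N' i j) J := by
  simp only [inN, map_sum, map_monomial, aeval_monomial]
  refine Finset.sum_congr rfl fun J _ => ?_
  rw [Finsupp.prod_fintype _ _ (by simp)]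
  simp [auxW, algebraMap_eq]


theorem exists_aux {n : ℕ} (hn : 1 ≤ n) (K : IntermediateField ℚ ℝ) [FiniteDimensional ℚ K]
    (N' : Matrix (Fin n) (Fin n) ℝ) (hN' : ∀ i j, N' i j ∈ K) (τ : ℝ) (hτ : 0 < τ) :
    ∃ k₀ : ℕ, ∃ C₁ : ℝ, 1 ≤ C₁ ∧ ∀ k, k₀ ≤ k → ∀ d : Fin k → ℕ, (∀ h, 1 ≤ d h) →
      ∃ P : MvPolynomial (Fin k × Fin n) ℤ, P ≠ 0 ∧
        (∀ J ∈ P.support, MDeg d J ∧ Bal d τ J) ∧
        (∀ J, |((P.coeff J : ℤ) : ℝ)| ≤ C₁ ^ (∑ h, d h)) ∧
        (∀ J ∈ (inN N' P).support, MDeg d J ∧ Bal d τ J) ∧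
        wn (fun x : ℝ => |x|) (fun _ => 1) (inN N' P) ≤ C₁ ^ (∑ h, d h) := by
  classical
  obtain ⟨O, _, f, D, Φ, q, a, hΦ, hq, hf⟩ := auxpoly_order K N' hN'
  obtain ⟨ν, hν, hν1, hνΦ⟩ := auxpoly_size Φ
  set B₀ : ℝ := 1 + ∑ j, ∑ i, ν (a j i) with hB₀
  set BR : ℝ := 1 + ∑ j, ∑ i, |N' j i| with hBR
  have hB₀1 : 1 ≤ B₀ := by
    have : 0 ≤ ∑ j, ∑ i, ν (a j i) :=
      Finset.sum_nonneg fun j _ => Finset.sum_nonneg fun i _ => hν.nonneg _
    linarith
  have hBR1 : 1 ≤ BR := by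
    have : 0 ≤ ∑ j, ∑ i, |N' j i| :=
      Finset.sum_nonneg fun j _ => Finset.sum_nonneg fun i _ => abs_nonneg _
    linarith
  have hB₀r : ∀ j, ∑ i, ν (a j i) ≤ B₀ := by
    intro j
    have h : ∑ i, ν (a j i) ≤ ∑ j, ∑ i, ν (a j i) :=
      Finset.single_le_sum (f := fun j => ∑ i, ν (a j i))
        (fun j _ => Finset.sum_nonneg fun i _ => hν.nonneg _) (Finset.mem_univ j)
    linarith
  have hBRr : ∀ j, ∑ i, |N' j i| ≤ BR := by
    intro j
    have h : ∑ i, |N' j i| ≤ ∑ j, ∑ i, |N' j i| :=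
      Finset.single_le_sum (f := fun j => ∑ i, |N' j i|)
        (fun j _ => Finset.sum_nonneg fun i _ => abs_nonneg _) (Finset.mem_univ j)
    linarith
  set E : ℝ := (2 : ℝ) ^ (n + 1) with hE
  have hE1 : 1 ≤ E := one_le_pow₀ (by norm_num)
  have hC1 : 1 ≤ E ^ 2 * B₀ * BR :=
    one_le_mul_of_one_le_of_one_le (one_le_mul_of_one_le_of_one_le (one_le_pow₀ hE1) hB₀1) hBR1
  refine ⟨⌈((2 * D ^ 2 + 2 : ℕ) : ℝ) * n / τ ^ 2⌉₊ + 1, E ^ 2 * B₀ * BR, hC1, ?_⟩
  intro k hk d hd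
  set s : ℕ := ∑ h, d h with hs
  have hk1 : 1 ≤ k := by omega
  have hkk : ((2 * D ^ 2 + 2 : ℕ) : ℝ) * n ≤ τ ^ 2 * k := by
    have h1 : ((2 * D ^ 2 + 2 : ℕ) : ℝ) * n / τ ^ 2 ≤ k := by
      refine (Nat.le_ceil _).trans ?_
      exact_mod_cast (by omega : ⌈((2 * D ^ 2 + 2 : ℕ) : ℝ) * n / τ ^ 2⌉₊ ≤ k)
    rw [div_le_iff₀ (by positivity)] at h1
    linarith
  set bal := (Ex (n := n) d).filter (fun J => Bal d τ J) with hbal
  set unb := (Ex (n := n) d).filter (fun J => ¬ Bal d τ J) with hunb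
  have hcard : bal.card + unb.card = (Ex (n := n) d).card :=
    Finset.card_filter_add_card_filter_not _
  have hpos := card_Ex_pos hn d
  have hub : (2 * D ^ 2 + 2) * unb.card ≤ (Ex (n := n) d).card := by
    have h1 := card_unbalanced hn d hd τ hτ hk1
    have h2 : (unb.card : ℝ) * (((2 * D ^ 2 + 2 : ℕ) : ℝ) * n) ≤ n * (Ex (n := n) d).card := by
      refine le_trans ?_ h1
      refine le_trans (mul_le_mul_of_nonneg_left hkk (Nat.cast_nonneg _)) (le_of_eq ?_)
      congr!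
    have h3 : (n : ℝ) * (((2 * D ^ 2 + 2 : ℕ) : ℝ) * unb.card) ≤ n * (Ex (n := n) d).card := by
      linarith
    have h4 := le_of_mul_le_mul_left h3 (by exact_mod_cast hn)
    exact_mod_cast h4
  have hbalpos : 0 < bal.card := by
    rcases Nat.eq_zero_or_pos bal.card with h0 | h0
    · exfalso
      have : unb.card = (Ex (n := n) d).card := by omega
      rw [this] at hub
      nlinarith [sq_nonneg D]
    · exact h0
  have hball : bal.card ≤ (Ex (n := n) d).card := by omega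
  have h2ub : 2 * (unb.card * (D * D)) ≤ bal.card := by
    nlinarith
  have hcE : (bal.card : ℝ) ≤ E ^ s := by
    refine le_trans ?_ (card_Ex_le hn d hd)
    exact_mod_cast hball
  -- Siegel
  obtain ⟨t, ht0, ht1, ht2⟩ := auxpoly_siegel
    (α := {J // J ∈ unb} × (Fin D × Fin D)) (β := {J // J ∈ bal})
    (Matrix.of fun x J => Φ ((auxW a J.1).coeff x.1.1) x.2.1 x.2.2) (B₀ ^ s)
    (one_le_pow₀ hB₀1)
    (fun x J => by
      refine (hνΦ _ _ _).trans (auxW_coeff hν hν1 a B₀ hB₀r ?_ _)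
      exact mem_Ex.1 (Finset.mem_filter.1 J.2).1)
    (by simpa using h2ub) (by simpa using hbalpos)
  simp only [Fintype.card_coe] at ht2
  let T : (Fin k × Fin n →₀ ℕ) → ℤ := fun J => if h : J ∈ bal then t ⟨J, h⟩ else 0
  have hT0 : ∀ J, T J ≠ 0 → J ∈ bal := by
    intro J hJ
    by_contra h
    exact hJ (dif_neg h)
  have hTb : ∀ J, |(T J : ℝ)| ≤ E ^ s * B₀ ^ s := by
    intro J
    by_cases h : J ∈ bal
    · simp only [T, dif_pos h]
      refine (ht2 ⟨J, h⟩).trans ?_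
      gcongr
    · simp only [T, dif_neg h]
      simp only [Int.cast_zero, abs_zero]
      positivity
  set P : MvPolynomial (Fin k × Fin n) ℤ := ∑ J ∈ bal, monomial J (T J) with hP
  have hcoeff : ∀ J, P.coeff J = T J := by
    intro J
    rw [hP, coeff_sum]
    simp only [coeff_monomial]
    rw [Finset.sum_ite_eq']
    split_ifs with h
    · rfl
    · by_contra h'
      exact h (hT0 J (Ne.symm h'))
  have hinN : inN N' P = ∑ J ∈ bal, C (T J : ℝ) * auxW (fun i j => N' i j) J := inN_sum N' bal T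
  have hmd : ∀ J ∈ bal, MDeg d J := fun J hJ => mem_Ex.1 (Finset.mem_filter.1 hJ).1
  refine ⟨P, ?_, ?_, ?_, ?_, ?_⟩
  · intro h
    apply ht0
    ext J
    have := hcoeff J.1
    rw [h, coeff_zero] at this
    simp only [T, dif_pos J.2] at this
    exact this.symm
  · intro J hJ
    rw [mem_support_iff, hcoeff] at hJ
    have := hT0 J hJ
    exact ⟨hmd J this, (Finset.mem_filter.1 this).2⟩
  · intro J
    rw [hcoeff]
    refine (hTb J).trans ?_
    rw [← mul_pow]
    refine pow_le_pow_left₀ (by positivity) ?_ _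
    calc E * B₀ = (E * B₀) * 1 := by ring
      _ ≤ (E ^ 2 * B₀) * BR := by
          refine mul_le_mul ?_ hBR1 zero_le_one (by positivity)
          refine mul_le_mul_of_nonneg_right ?_ (by linarith)
          nlinarith
      _ = E ^ 2 * B₀ * BR := by ring
  · intro J' hJ'
    rw [mem_support_iff, hinN, coeff_sum] at hJ'
    simp only [coeff_C_mul] at hJ'
    obtain ⟨J, hJ, hJ2⟩ := Finset.exists_ne_zero_of_sum_ne_zero hJ'
    have hJ3 : MDeg d J' := auxW_MDeg _ (hmd J hJ) (right_ne_zero_of_mul hJ2)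
    refine ⟨hJ3, ?_⟩
    by_contra hb
    have hu : J' ∈ unb := Finset.mem_filter.2 ⟨mem_Ex.2 hJ3, hb⟩
    apply hJ'
    have hz : ∑ J ∈ bal, (T J : O) * (auxW a J).coeff J' = 0 := by
      apply hΦ
      rw [map_zero]
      ext r u
      rw [map_sum, Matrix.sum_apply]
      have h1 := ht1 (⟨J', hu⟩, (r, u))
      simp only [Matrix.of_apply] at h1
      rw [Matrix.zero_apply, ← h1, ← Finset.sum_coe_sort bal]
      refine Finset.sum_congr rfl fun J _ => ?_
      rw [map_mul, map_intCast, ← zsmul_eq_mul, Matrix.smul_apply]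
      simp only [T, dif_pos J.2, smul_eq_mul]
      ring
    have hz2 := congrArg f hz
    rw [map_zero, map_sum] at hz2
    have h2 : ∀ J ∈ bal, f ((T J : O) * (auxW a J).coeff J') =
        (q : ℝ) ^ s * ((T J : ℝ) * coeff J' (auxW (fun i j => N' i j) J)) := by
      intro J hJ
      rw [map_mul, map_intCast, ← coeff_map, auxW_map]
      have : (fun i j => f (a i j)) = fun i j => (q : ℝ) * N' i j := by
        ext i j; exact hf i j
      have e : auxW (fun i j => (q : ℝ) * N' i j) J =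
          C ((q : ℝ) ^ (∑ p, J p)) * auxW (fun i j => N' i j) J := auxW_smul _ _ _
      rw [this, e, coeff_C_mul, sum_MDeg (hmd J hJ)]
      ring
    rw [Finset.sum_congr rfl h2, ← Finset.mul_sum] at hz2
    rcases mul_eq_zero.1 hz2 with h | h
    · exact absurd h (pow_ne_zero _ (by exact_mod_cast hq))
    · exact h
  · rw [hinN]
    have hw : ∀ s : Fin k × Fin n, (0 : ℝ) ≤ (fun _ => 1 : Fin k × Fin n → ℝ) s := by
      intro s; simp
    refine (wn_sum_le isSize_abs_real hw _ _).trans ?_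
    have h3 : ∀ J ∈ bal, wn (fun x : ℝ => |x|) (fun _ => 1)
        (C (T J : ℝ) * auxW (fun i j => N' i j) J) ≤ (E ^ s * B₀ ^ s) * BR ^ s := by
      intro J hJ
      refine (wn_mul_le isSize_abs_real hw _ _).trans ?_
      rw [wn_C isSize_abs_real]
      refine mul_le_mul (hTb J) ?_ (wn_nonneg isSize_abs_real hw _) (by positivity)
      exact auxW_wn isSize_abs_real (by simp) _ BR hBRr (hmd J hJ)
    refine (Finset.sum_le_sum h3).trans ?_
    rw [Finset.sum_const, nsmul_eq_mul]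
    calc (bal.card : ℝ) * ((E ^ s * B₀ ^ s) * BR ^ s)
        ≤ E ^ s * ((E ^ s * B₀ ^ s) * BR ^ s) := by gcongr
      _ = (E ^ 2 * B₀ * BR) ^ s := auxpoly_pow _ _ _ _

end SB
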