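import Pool.Agent.Lib.MP_28dc30_nt.Defs

/-! Chebyshev count of unbalanced exponents. -/

open MvPolynomial

namespace SB

/-- exponents of multidegree `d`, as functions -/
def Sx {k n : ℕ} (d : Fin k → ℕ) : Finset (Fin k → Fin n → ℕ) :=
  Fintype.piFinset fun h => Finset.piAntidiag Finset.univ (d h)

/-- function to exponent -/
noncomputable def ex {k n : ℕ} (J : Fin k → Fin n → ℕ) : Fin k × Fin n →₀ ℕ :=
  Finsupp.equivFunOnFinite.symm (fun q => J q.1 q.2)

/-- the finite set of all exponents of multidegree `d` -/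
noncomputable def Ex {k n : ℕ} (d : Fin k → ℕ) : Finset (Fin k × Fin n →₀ ℕ) :=
  open Classical in (Sx d).image ex

theorem count_ex_apply {k n : ℕ} (J : Fin k → Fin n → ℕ) (q : Fin k × Fin n) :
    ex J q = J q.1 q.2 := rfl

theorem count_ex_injective {k n : ℕ} : Function.Injective (ex (k := k) (n := n)) := by
  intro J J' h
  funext a b
  have := DFunLike.congr_fun h (a, b)
  simpa [count_ex_apply] using this

theorem mem_Ex {k n : ℕ} {d : Fin k → ℕ} {J : Fin k × Fin n →₀ ℕ} : J ∈ Ex d ↔ MDeg d J := by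
  classical
  unfold Ex Sx MDeg
  rw [Finset.mem_image]
  constructor
  · rintro ⟨v, hv, rfl⟩ h
    have h1 := (Fintype.mem_piFinset.1 hv) h
    rw [Finset.mem_piAntidiag] at h1
    simpa [count_ex_apply] using h1.1
  · intro hJ
    refine ⟨fun a b => J (a, b), ?_, ?_⟩
    · rw [Fintype.mem_piFinset]
      intro h
      rw [Finset.mem_piAntidiag]
      exact ⟨hJ h, fun _ _ => Finset.mem_univ _⟩
    · ext q
      rfl

theorem count_card_Ex {k n : ℕ} (d : Fin k → ℕ) : (Ex (n := n) d).card = (Sx (n := n) d).card := by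
  classical
  unfold Ex
  exact Finset.card_image_of_injective _ count_ex_injective

theorem count_card_pos {n : ℕ} (hn : 1 ≤ n) (D : ℕ) :
    0 < (Finset.piAntidiag (Finset.univ : Finset (Fin n)) D).card := by
  classical
  rw [Finset.card_pos]
  refine ⟨Pi.single ⟨0, hn⟩ D, ?_⟩
  rw [Finset.mem_piAntidiag]
  exact ⟨by simp, fun _ _ => Finset.mem_univ _⟩

theorem card_Ex_pos {k n : ℕ} (hn : 1 ≤ n) (d : Fin k → ℕ) : 0 < (Ex (n := n) d).card := by
  rw [count_card_Ex, Sx, Fintype.card_piFinset]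
  exact Finset.prod_pos fun h _ => count_card_pos hn (d h)

theorem count_card_le {n : ℕ} (hn : 1 ≤ n) {D : ℕ} (hD : 1 ≤ D) :
    (Finset.piAntidiag (Finset.univ : Finset (Fin n)) D).card ≤ (2 ^ (n + 1)) ^ D := by
  classical
  have h1 : (Finset.piAntidiag (Finset.univ : Finset (Fin n)) D).card = (n + D - 1).choose D := by
    rw [← Finset.map_sym_eq_piAntidiag, Finset.card_map, Finset.sym_univ, Finset.card_univ,
      Sym.card_sym_eq_choose, Fintype.card_fin]
  rw [h1]
  calc (n + D - 1).choose D ≤ 2 ^ (n + D - 1) := Nat.choose_le_two_pow _ _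
    _ ≤ 2 ^ ((n + 1) * D) := Nat.pow_le_pow_right (by norm_num) (by
        have : n * 1 ≤ n * D := Nat.mul_le_mul_left n hD
        rw [add_mul]
        omega)
    _ = (2 ^ (n + 1)) ^ D := by rw [pow_mul]

theorem card_Ex_le {k n : ℕ} (hn : 1 ≤ n) (d : Fin k → ℕ) (hd : ∀ h, 1 ≤ d h) :
    ((Ex (n := n) d).card : ℝ) ≤ ((2 : ℝ) ^ (n + 1)) ^ (∑ h, d h) := by
  rw [count_card_Ex, Sx, Fintype.card_piFinset, Nat.cast_prod, ← Finset.prod_pow_eq_pow_sum]
  refine Finset.prod_le_prod (fun _ _ => by positivity) (fun h _ => ?_)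
  exact_mod_cast count_card_le hn (hd h)

/-- second moment of a sum of independent centred variables -/
theorem count_second_moment {ι α : Type*} [Fintype ι] [DecidableEq ι] (D : ι → Finset α)
    (x : ι → α → ℝ) (h0 : ∀ h, ∑ v ∈ D h, x h v = 0) (h1 : ∀ h, ∀ v ∈ D h, |x h v| ≤ 1) :
    ∑ J ∈ Fintype.piFinset D, (∑ h, x h (J h)) ^ 2 ≤
      Fintype.card ι * (Fintype.piFinset D).card := by
  have hcross : ∀ a b, a ≠ b → ∑ J ∈ Fintype.piFinset D, x a (J a) * x b (J b) = 0 := by
    intro a b hab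
    have key := Finset.prod_univ_sum D
      (fun g v => if g = a then x a v else if g = b then x b v else 1)
    have hl : ∏ g, ∑ v ∈ D g, (if g = a then x a v else if g = b then x b v else (1:ℝ)) = 0 := by
      refine Finset.prod_eq_zero (Finset.mem_univ a) ?_
      simpa using h0 a
    rw [hl] at key
    rw [key]
    refine Finset.sum_congr rfl fun J _ => ?_
    rw [← Finset.mul_prod_erase Finset.univ _ (Finset.mem_univ a),
      ← Finset.mul_prod_erase (Finset.univ.erase a) _
        (Finset.mem_erase.2 ⟨hab.symm, Finset.mem_univ b⟩)]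
    rw [Finset.prod_eq_one (s := (Finset.univ.erase a).erase b)]
    · simp [hab.symm]
    · intro g hg
      rw [Finset.mem_erase, Finset.mem_erase] at hg
      simp [hg.1, hg.2.1]
  calc ∑ J ∈ Fintype.piFinset D, (∑ h, x h (J h)) ^ 2
      = ∑ a, ∑ b, ∑ J ∈ Fintype.piFinset D, x a (J a) * x b (J b) := by
        simp_rw [sq, Finset.sum_mul_sum]
        rw [Finset.sum_comm]
        refine Finset.sum_congr rfl fun a _ => ?_
        rw [Finset.sum_comm]
    _ = ∑ a, ∑ J ∈ Fintype.piFinset D, x a (J a) * x a (J a) := by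
        refine Finset.sum_congr rfl fun a _ => ?_
        rw [Finset.sum_eq_single a]
        · intro b _ hb
          exact hcross a b hb.symm
        · simp
    _ ≤ ∑ a : ι, ∑ J ∈ Fintype.piFinset D, (1:ℝ) := by
        refine Finset.sum_le_sum fun a _ => Finset.sum_le_sum fun J hJ => ?_
        have := h1 a (J a) (Fintype.mem_piFinset.1 hJ a)
        rw [← abs_mul_abs_self]
        exact mul_le_one₀ this (abs_nonneg _) this
    _ = Fintype.card ι * (Fintype.piFinset D).card := by
        simp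

/-- the coordinates have average `D / n` -/
theorem count_avg {n : ℕ} (hn : 1 ≤ n) {D : ℕ} (hD : 1 ≤ D) (i : Fin n) :
    ∑ v ∈ Finset.piAntidiag (Finset.univ : Finset (Fin n)) D, ((v i : ℝ) / D - 1 / n) = 0 := by
  classical
  have hsymm : ∀ j, ∑ v ∈ Finset.piAntidiag (Finset.univ : Finset (Fin n)) D, (v j : ℝ) =
      ∑ v ∈ Finset.piAntidiag (Finset.univ : Finset (Fin n)) D, (v i : ℝ) := by
    intro j
    refine Finset.sum_bij' (fun v _ => v ∘ Equiv.swap i j) (fun v _ => v ∘ Equiv.swap i j)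
      ?_ ?_ ?_ ?_ ?_
    · intro v hv
      rw [Finset.mem_piAntidiag] at hv ⊢
      refine ⟨?_, fun _ _ => Finset.mem_univ _⟩
      rw [← hv.1]
      exact Equiv.sum_comp (Equiv.swap i j) v
    · intro v hv
      rw [Finset.mem_piAntidiag] at hv ⊢
      refine ⟨?_, fun _ _ => Finset.mem_univ _⟩
      rw [← hv.1]
      exact Equiv.sum_comp (Equiv.swap i j) v
    · intro v _
      funext a
      simp
    · intro v _
      funext a
      simp
    · intro v _
      simp
  have hsum : ∑ j, ∑ v ∈ Finset.piAntidiag (Finset.univ : Finset (Fin n)) D, (v j : ℝ) =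
      D * (Finset.piAntidiag (Finset.univ : Finset (Fin n)) D).card := by
    rw [Finset.sum_comm]
    rw [Finset.sum_congr rfl (g := fun _ => (D : ℝ))]
    · simp [mul_comm]
    · intro v hv
      rw [Finset.mem_piAntidiag] at hv
      rw [← hv.1]
      push_cast
      rfl
  simp_rw [hsymm] at hsum
  rw [Finset.sum_const, Finset.card_univ, Fintype.card_fin, nsmul_eq_mul] at hsum
  rw [Finset.sum_sub_distrib, ← Finset.sum_div, Finset.sum_const, nsmul_eq_mul]
  have hn' : (n : ℝ) ≠ 0 := by positivity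
  have hD' : (D : ℝ) ≠ 0 := by positivity
  field_simp
  linarith

theorem count_abs_le {n : ℕ} (hn : 1 ≤ n) {D : ℕ} (hD : 1 ≤ D) (i : Fin n) {v : Fin n → ℕ}
    (hv : v ∈ Finset.piAntidiag (Finset.univ : Finset (Fin n)) D) :
    |(v i : ℝ) / D - 1 / n| ≤ 1 := by
  classical
  rw [Finset.mem_piAntidiag] at hv
  have h1 : v i ≤ D := by
    rw [← hv.1]
    exact Finset.single_le_sum (f := v) (fun _ _ => Nat.zero_le _) (Finset.mem_univ i)
  have hD' : (0 : ℝ) < D := by positivity
  have h2 : (v i : ℝ) / D ≤ 1 := by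
    rw [div_le_one hD']
    exact_mod_cast h1
  have h3 : (0 : ℝ) ≤ (v i : ℝ) / D := by positivity
  have h4 : (1 : ℝ) / n ≤ 1 := by
    rw [div_le_one (by positivity)]
    exact_mod_cast hn
  have h5 : (0 : ℝ) ≤ 1 / n := by positivity
  rw [abs_le]
  constructor <;> linarith

/-- the proportion of unbalanced exponents is at most `n / (τ² k)` -/
theorem card_unbalanced {k n : ℕ} (hn : 1 ≤ n) (d : Fin k → ℕ) (hd : ∀ h, 1 ≤ d h) (τ : ℝ)
    (hτ : 0 < τ) (hk : 1 ≤ k) :
    (((open Classical in (Ex (n := n) d).filter (fun J => ¬ Bal d τ J)).card : ℝ)) * (τ ^ 2 * k) ≤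
      n * (Ex (n := n) d).card := by
  classical
  have hk' : (0 : ℝ) < k := by positivity
  -- the bad set for one coordinate
  set U : Fin n → Finset (Fin k → Fin n → ℕ) := fun i =>
    (Sx (n := n) d).filter (fun J => τ * k < |∑ h, ((J h i : ℝ) / (d h : ℝ) - 1 / n)|) with hU
  have hUcard : ∀ i, ((U i).card : ℝ) * (τ ^ 2 * k) ≤ (Sx (n := n) d).card := by
    intro i
    have h1 := count_second_moment (fun h : Fin k => Finset.piAntidiag (Finset.univ : Finset (Fin n)) (d h))
      (fun h v => (v i : ℝ) / (d h : ℝ) - 1 / n) (fun h => count_avg hn (hd h) i)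
      (fun h v hv => count_abs_le hn (hd h) i hv)
    have h2 : ((U i).card : ℝ) * (τ * k) ^ 2 ≤
        ∑ J ∈ Sx (n := n) d, (∑ h, ((J h i : ℝ) / (d h : ℝ) - 1 / n)) ^ 2 := by
      calc ((U i).card : ℝ) * (τ * k) ^ 2 = ∑ J ∈ U i, (τ * k) ^ 2 := by simp
        _ ≤ ∑ J ∈ U i, (∑ h, ((J h i : ℝ) / (d h : ℝ) - 1 / n)) ^ 2 := by
            refine Finset.sum_le_sum fun J hJ => ?_
            rw [hU, Finset.mem_filter] at hJ
            rw [← sq_abs (∑ h, ((J h i : ℝ) / (d h : ℝ) - 1 / n))]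
            exact pow_le_pow_left₀ (by positivity) hJ.2.le 2
        _ ≤ _ := Finset.sum_le_sum_of_subset_of_nonneg (Finset.filter_subset _ _)
            (fun _ _ _ => sq_nonneg _)
    have h3 : ((U i).card : ℝ) * (τ * k) ^ 2 ≤ k * (Sx (n := n) d).card := by
      refine h2.trans ?_
      have := h1
      rw [Fintype.card_fin] at this
      exact this
    have h4 : k * (((U i).card : ℝ) * (τ ^ 2 * k)) ≤ k * ((Sx (n := n) d).card : ℝ) := by
      calc k * (((U i).card : ℝ) * (τ ^ 2 * k)) = ((U i).card : ℝ) * (τ * k) ^ 2 := by ring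
        _ ≤ _ := h3
    exact le_of_mul_le_mul_left h4 hk'
  have hsub : (Ex (n := n) d).filter (fun J => ¬ Bal d τ J) ⊆
      (Finset.univ.biUnion U).image ex := by
    intro J hJ
    rw [Finset.mem_filter] at hJ
    obtain ⟨hJ1, hJ2⟩ := hJ
    unfold Ex at hJ1
    rw [Finset.mem_image] at hJ1
    obtain ⟨v, hv, rfl⟩ := hJ1
    rw [Finset.mem_image]
    refine ⟨v, ?_, rfl⟩
    rw [Finset.mem_biUnion]
    unfold Bal at hJ2
    push Not at hJ2
    obtain ⟨i, hi⟩ := hJ2
    refine ⟨i, Finset.mem_univ _, ?_⟩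
    rw [hU, Finset.mem_filter]
    refine ⟨hv, ?_⟩
    rw [Finset.sum_sub_distrib, Finset.sum_const, Finset.card_univ, Fintype.card_fin,
      nsmul_eq_mul, mul_one_div]
    exact hi
  calc (((Ex (n := n) d).filter (fun J => ¬ Bal d τ J)).card : ℝ) * (τ ^ 2 * k)
      ≤ (∑ i, (U i).card : ℕ) * (τ ^ 2 * k) := by
        refine mul_le_mul_of_nonneg_right ?_ (by positivity)
        exact_mod_cast (Finset.card_le_card hsub).trans
          (Finset.card_image_le.trans Finset.card_biUnion_le)
    _ = ∑ i, ((U i).card : ℝ) * (τ ^ 2 * k) := by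
        push_cast
        rw [Finset.sum_mul]
    _ ≤ ∑ i : Fin n, ((Sx (n := n) d).card : ℝ) := Finset.sum_le_sum fun i _ => hUcard i
    _ = n * (Ex (n := n) d).card := by
        rw [count_card_Ex]
        simp

end SB
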