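import Mathlib

/-!
Shared definitions for MP_28dc30_nt (Roth lemma, hyperplane lemma, gcd of iterated integer parts).
-/

open MvPolynomial

namespace SB

/-- weighted degree `∑ i_h / d_h` of an exponent -/
noncomputable def wt {k : ℕ} (d : Fin k → ℕ) (i : Fin k →₀ ℕ) : ℝ :=
  ∑ h, (i h : ℝ) / (d h : ℝ)

/-- translation `Q(ζ + z)` -/
noncomputable def tr {k : ℕ} (ζ : Fin k → ℚ) :
    MvPolynomial (Fin k) ℚ →ₐ[ℚ] MvPolynomial (Fin k) ℚ :=
  aeval (fun h => C (ζ h) + X h)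

/-- Hasse derivative of multi-order `μ` -/
noncomputable def hd {σ R : Type*} [Fintype σ] [CommSemiring R] (μ : σ →₀ ℕ) :
    MvPolynomial σ R →ₗ[R] MvPolynomial σ R :=
  (basisMonomials σ R).constr R
    (fun J => monomial (J - μ) (((∏ h, (J h).choose (μ h) : ℕ) : R)))

/-- multidegree condition -/
def MDeg {k n : ℕ} (d : Fin k → ℕ) (J : Fin k × Fin n →₀ ℕ) : Prop :=
  ∀ h, ∑ i, J (h, i) = d h

/-- balanced exponents -/
def Bal {k n : ℕ} (d : Fin k → ℕ) (τ : ℝ) (J : Fin k × Fin n →₀ ℕ) : Prop :=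
  ∀ i, |∑ h, (J (h, i) : ℝ) / (d h : ℝ) - (k : ℝ) / n| ≤ τ * k

/-- weighted `ℓ¹`-norm of a polynomial with respect to a size function `ν` on the coefficients
and weights `w` of the variables -/
noncomputable def wn {σ R : Type*} [CommSemiring R] (ν : R → ℝ) (w : σ → ℝ)
    (p : MvPolynomial σ R) : ℝ :=
  ∑ J ∈ p.support, ν (p.coeff J) * J.prod (fun s e => w s ^ e)

/-- a size function on a ring: nonnegative, subadditive, submultiplicative -/
structure IsSize {R : Type*} [CommRing R] (ν : R → ℝ) : Prop where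
  zero : ν 0 = 0
  nonneg : ∀ x, 0 ≤ ν x
  add_le : ∀ x y, ν (x + y) ≤ ν x + ν y
  mul_le : ∀ x y, ν (x * y) ≤ ν x * ν y

/-- the coordinates of the generic point `∑ j a_{h,j} u_{h,j} + z_h e_0` of block `h` -/
noncomputable def gp {k n : ℕ} {R : Type*} [CommRing R] (u : Fin k → Fin n → Fin (n + 1) → R)
    (q : Fin k × Fin (n + 1)) : MvPolynomial ((Fin k × Fin n) ⊕ Fin k) R :=
  ∑ j, C (u q.1 j q.2) * X (Sum.inl (q.1, j)) + if q.2 = 0 then X (Sum.inr q.1) else 0

/-- the `z`-part of an exponent -/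
noncomputable def zpart {α : Type*} {k : ℕ} (e : (α ⊕ Fin k) →₀ ℕ) : Fin k →₀ ℕ :=
  Finsupp.equivFunOnFinite.symm (fun h => e (Sum.inr h))

end SB
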