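import Pool.Agent.Lib.MP_28dc30_nt.App

/-! Two independent small vectors in a planar lattice. -/

namespace SB

/-- a too short lattice vector -/
def PairBad (b : ℕ) (γ η : ℝ) (g : ℕ → ℕ) (m : ℕ) (r s : ℤ) : Prop :=
  s ≠ 0 ∧ |(s : ℝ)| ≤ √(g m) * Real.exp (-(η / 2 * m)) ∧
    |(r : ℝ) + γ * (b : ℝ) ^ m * s / g m| ≤ Real.exp (-(η / 2 * m)) / √(g m)

theorem pair_bad_finite (b : ℕ) (hb : 2 ≤ b) (γ : ℝ) (hγ : Irrational γ) (hγ' : IsAlgebraic ℚ γ)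
    (g : ℕ → ℕ) (T : Set ℕ) (hg : ∀ m ∈ T, g m ∣ b ^ m) (η : ℝ) (hη : 0 < η) :
    {m | m ∈ T ∧ ∃ r s : ℤ, PairBad b γ η g m r s}.Finite := by
  classical
  by_contra hinf
  have hinf' : {m | m ∈ T ∧ ∃ r s : ℤ, PairBad b γ η g m r s}.Infinite := hinf
  have hb0 : (0 : ℝ) < b := by positivity
  have hb1 : (1 : ℝ) < b := by exact_mod_cast (by omega : 1 < b)
  have hlogb : 0 < Real.log b := Real.log_pos hb1
  have hbm : ∀ m : ℕ, (b : ℝ) ^ m = Real.exp (Real.log b * m) := by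
    intro m
    rw [mul_comm, Real.exp_nat_mul, Real.exp_log hb0]
  choose! r s hrs using fun (m : ℕ) (hm : m ∈ {m | m ∈ T ∧ ∃ r s : ℤ, PairBad b γ η g m r s}) =>
    hm.2
  have hg0 : ∀ m ∈ {m | m ∈ T ∧ ∃ r s : ℤ, PairBad b γ η g m r s}, 0 < g m := fun m hm =>
    Nat.pos_of_dvd_of_pos (hg m hm.1) (by positivity)
  have hF : ∀ m ∈ {m | m ∈ T ∧ ∃ r s : ℤ, PairBad b γ η g m r s},
      ((b ^ m / g m : ℕ) : ℝ) = (b : ℝ) ^ m / g m := fun m hm => by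
    rw [Nat.cast_div (hg m hm.1) (by exact_mod_cast (hg0 m hm).ne')]
    push_cast
    rfl
  have hFw : ∀ m ∈ {m | m ∈ T ∧ ∃ r s : ℤ, PairBad b γ η g m r s},
      ((((b ^ m / g m : ℕ) : ℤ) * s m : ℤ) : ℝ) = (b : ℝ) ^ m / g m * s m := fun m hm => by
    rw [Int.cast_mul, Int.cast_natCast, hF m hm]
  have hgle : ∀ m ∈ {m | m ∈ T ∧ ∃ r s : ℤ, PairBad b γ η g m r s}, (g m : ℝ) ≤ (b : ℝ) ^ m :=
    fun m hm => by exact_mod_cast Nat.le_of_dvd (by positivity) (hg m hm.1)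
  refine ridout γ hγ hγ' b.primeFactors (fun p hp => Nat.prime_of_mem_primeFactors hp)
    (Real.log b) η (Real.log b / 2) hη (by positivity) _ hinf' r
    (fun m => (b ^ m / g m : ℕ) * s m) (fun _ => 1) (fun m => b ^ m / g m) ?_ ?_ ?_ ?_ ?_ ?_ ?_ ?_
    ?_ ?_ ?_ ?_
  · intro m hm
    have h1 : (b ^ m / g m : ℕ) ≠ 0 :=
      (Nat.div_pos (Nat.le_of_dvd (by positivity) (hg m hm.1)) (hg0 m hm)).ne'
    exact mul_ne_zero (by exact_mod_cast h1) (hrs m hm).1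
  · intro m hm
    obtain ⟨h1, h2, h3⟩ := hrs m hm
    have hgm : (0 : ℝ) < g m := by exact_mod_cast hg0 m hm
    have hsq : 0 < √(g m : ℝ) := Real.sqrt_pos.2 hgm
    rw [hFw m hm]
    have e1 : (r m : ℝ) + γ * ((b : ℝ) ^ m / g m * s m) = r m + γ * (b : ℝ) ^ m * s m / g m := by
      ring
    rw [e1]
    have e2 : Real.exp (-(η / 2 * m)) ≤ 1 := Real.exp_le_one_iff.2 (by
      have : (0 : ℝ) ≤ m := Nat.cast_nonneg _
      nlinarith)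
    have e3 : |(r m : ℝ) + γ * (b : ℝ) ^ m * s m / g m| ≤ 1 / √(g m) := by
      refine h3.trans ?_
      gcongr
    refine e3.trans ?_
    have hs1 : (1 : ℝ) ≤ |(s m : ℝ)| := by
      exact_mod_cast Int.one_le_abs h1
    rw [abs_mul, abs_of_pos (by positivity : (0 : ℝ) < (b : ℝ) ^ m / g m)]
    have e4 : Real.exp (-(Real.log b / 2 * m)) = 1 / √((b : ℝ) ^ m) := by
      rw [hbm m, Real.sqrt_eq_rpow, ← Real.exp_mul, one_div, ← Real.exp_neg]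
      congr 1
      ring
    rw [e4]
    have e5 : √(g m : ℝ) ≤ √((b : ℝ) ^ m) := Real.sqrt_le_sqrt (hgle m hm)
    have hsb : 0 < √((b : ℝ) ^ m) := hsq.trans_le e5
    have e6 : √((b : ℝ) ^ m) * √((b : ℝ) ^ m) = (b : ℝ) ^ m := Real.mul_self_sqrt (by positivity)
    have e7 : √(g m : ℝ) * √(g m : ℝ) = g m := Real.mul_self_sqrt hgm.le
    have e8 : 1 / √((b : ℝ) ^ m) * ((b : ℝ) ^ m / g m) = √((b : ℝ) ^ m) / g m := by
      rw [div_mul_div_comm, one_mul, div_eq_div_iff (by positivity) (by positivity)]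
      rw [← mul_assoc, e6]
    calc 1 / √(g m : ℝ) = √(g m : ℝ) / g m := by
          rw [div_eq_div_iff hsq.ne' hgm.ne', one_mul, e7]
      _ ≤ √((b : ℝ) ^ m) / g m := by gcongr
      _ = 1 / √((b : ℝ) ^ m) * ((b : ℝ) ^ m / g m) := e8.symm
      _ = 1 / √((b : ℝ) ^ m) * ((b : ℝ) ^ m / g m * 1) := by ring
      _ ≤ 1 / √((b : ℝ) ^ m) * ((b : ℝ) ^ m / g m * |(s m : ℝ)|) := by gcongr
  · intro m hm
    obtain ⟨h1, h2, h3⟩ := hrs m hm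
    have hgm : (0 : ℝ) < g m := by exact_mod_cast hg0 m hm
    have hg1 : (1 : ℝ) ≤ g m := by exact_mod_cast hg0 m hm
    have hsq : 0 < √(g m : ℝ) := Real.sqrt_pos.2 hgm
    rw [hFw m hm, abs_mul, abs_of_pos (by positivity : (0 : ℝ) < (b : ℝ) ^ m / g m), ← hbm m]
    have e2 : Real.exp (-(η / 2 * m)) ≤ 1 := Real.exp_le_one_iff.2 (by
      have : (0 : ℝ) ≤ m := Nat.cast_nonneg _
      nlinarith)
    have e3 : |(s m : ℝ)| ≤ √(g m) * 1 := h2.trans (by gcongr)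
    have e4 : √(g m : ℝ) ≤ g m := by
      rw [Real.sqrt_le_left hgm.le]
      nlinarith
    calc (b : ℝ) ^ m / g m * |(s m : ℝ)| ≤ (b : ℝ) ^ m / g m * g m := by
          gcongr
          linarith
      _ = (b : ℝ) ^ m := by field_simp
  · intro m _; exact one_ne_zero
  · intro m hm
    exact (Nat.div_pos (Nat.le_of_dvd (by positivity) (hg m hm.1)) (hg0 m hm)).ne'
  · intro m _; simp
  · intro m hm
    intro p hp
    have hp1 := Nat.prime_of_mem_primeFactors hp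
    have hp2 : p ∣ b ^ m := (Nat.dvd_of_mem_primeFactors hp).trans
      (Nat.div_dvd_of_dvd (hg m hm.1))
    exact Nat.mem_primeFactors.2 ⟨hp1, hp1.dvd_of_dvd_pow hp2, by omega⟩
  · intro m _
    simp only [Nat.cast_one]
    exact Real.one_le_exp (by positivity)
  · intro m hm
    rw [hF m hm, ← hbm m]
    have hg1 : (1 : ℝ) ≤ g m := by exact_mod_cast hg0 m hm
    exact div_le_self (by positivity) hg1
  · intro m _; simp
  · intro m _; exact Dvd.intro _ rfl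
  · intro m hm
    obtain ⟨h1, h2, h3⟩ := hrs m hm
    have hgm : (0 : ℝ) < g m := by exact_mod_cast hg0 m hm
    have hsq : 0 < √(g m : ℝ) := Real.sqrt_pos.2 hgm
    rw [hFw m hm, abs_mul, abs_of_pos (by positivity : (0 : ℝ) < (b : ℝ) ^ m / g m)]
    have e1 : (r m : ℝ) + γ * ((b : ℝ) ^ m / g m * s m) = r m + γ * (b : ℝ) ^ m * s m / g m := by
      ring
    rw [e1, Nat.cast_one, one_mul, hF m hm]
    have e2 : Real.exp (η * m) = Real.exp (η / 2 * m) * Real.exp (η / 2 * m) := by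
      rw [← Real.exp_add]
      congr 1
      ring
    have e3 : Real.exp (-(η / 2 * m)) * Real.exp (η / 2 * m) = 1 := by
      rw [← Real.exp_add]
      simp
    calc |(r m : ℝ) + γ * (b : ℝ) ^ m * s m / g m| * ((b : ℝ) ^ m / g m * |(s m : ℝ)|) *
          Real.exp (η * m)
        ≤ (Real.exp (-(η / 2 * m)) / √(g m)) * ((b : ℝ) ^ m / g m *
          (√(g m) * Real.exp (-(η / 2 * m)))) * Real.exp (η * m) := by gcongr
      _ = (Real.exp (-(η / 2 * m)) * Real.exp (η / 2 * m)) ^ 2 * ((b : ℝ) ^ m / g m) := by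
          rw [e2]
          field_simp
      _ = (b : ℝ) ^ m / g m := by rw [e3]; ring

/-- two independent small vectors of the planar lattice -/
theorem exists_pair (b : ℕ) (hb : 2 ≤ b) (γ : ℝ) (hγ : Irrational γ) (hγ' : IsAlgebraic ℚ γ)
    (g : ℕ → ℕ) (T : Set ℕ) (hT : T.Infinite) (hg : ∀ m ∈ T, g m ∣ b ^ m) (ε : ℝ) (_hε : 0 < ε)
    (hge : ∀ m ∈ T, Real.exp (ε * m) ≤ g m) (η : ℝ) (hη : 0 < η) (hηε : η ≤ ε / 4) :
    ∃ T' ⊆ T, T'.Infinite ∧ ∀ m ∈ T', ∃ r₁ s₁ r₂ s₂ : ℤ, r₁ * s₂ ≠ r₂ * s₁ ∧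
      |(s₁ : ℝ)| ≤ √(g m) * Real.exp (η * m) ∧ |(s₂ : ℝ)| ≤ √(g m) * Real.exp (η * m) ∧
      |(r₁ : ℝ) + γ * (b : ℝ) ^ m * s₁ / g m| ≤ Real.exp (η * m) / √(g m) ∧
      |(r₂ : ℝ) + γ * (b : ℝ) ^ m * s₂ / g m| ≤ Real.exp (η * m) / √(g m) := by
  classical
  have hfin := pair_bad_finite b hb γ hγ hγ' g T hg η hη
  refine ⟨(T \ {0}) \ {m | m ∈ T ∧ ∃ r s : ℤ, PairBad b γ η g m r s}, ?_, ?_, ?_⟩
  · intro m hm
    exact hm.1.1
  · exact (hT.sdiff (Set.finite_singleton 0)).sdiff hfin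
  intro m hm
  have hmT : m ∈ T := hm.1.1
  have hm0 : m ≠ 0 := fun h => hm.1.2 h
  have hmpos : (0 : ℝ) < m := by exact_mod_cast Nat.pos_of_ne_zero hm0
  have hnb : ∀ r s : ℤ, ¬ PairBad b γ η g m r s := fun r s h => hm.2 ⟨hmT, r, s, h⟩
  have hgm1 := hge m hmT
  have hgm : (0 : ℝ) < g m := (Real.exp_pos _).trans_le hgm1
  obtain ⟨G, hG⟩ : ∃ G : ℝ, G = √(g m : ℝ) := ⟨_, rfl⟩
  have hGpos : 0 < G := by rw [hG]; exact Real.sqrt_pos.2 hgm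
  obtain ⟨y, hy⟩ : ∃ y : ℝ, y = Real.exp (η / 2 * m) := ⟨_, rfl⟩
  have hy1 : 1 < y := by rw [hy]; exact Real.one_lt_exp_iff.2 (by positivity)
  have hy0 : 0 < y := by linarith
  have hyη : Real.exp (η * m) = y ^ 2 := by
    rw [hy, ← Real.exp_nat_mul]
    congr 1
    push_cast
    ring
  have hyn : Real.exp (-(η / 2 * m)) = 1 / y := by rw [Real.exp_neg, hy, one_div]
  have hGy : y ^ 4 ≤ G := by
    rw [hG]
    apply Real.le_sqrt_of_sq_le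
    refine le_trans ?_ hgm1
    rw [hy, ← pow_mul, ← Real.exp_nat_mul]
    apply Real.exp_le_exp.2
    push_cast
    nlinarith
  have hG1 : 1 ≤ G / y ^ 2 := by
    rw [le_div_iff₀ (by positivity)]
    nlinarith [one_le_pow₀ (n := 2) hy1.le]
  have hnb' : ∀ r s : ℤ, s ≠ 0 → |(s : ℝ)| ≤ G / y →
      1 / (G * y) < |(r : ℝ) + γ * (b : ℝ) ^ m * s / g m| := by
    intro r s hs h1
    by_contra h2
    push Not at h2
    refine hnb r s ⟨hs, ?_, ?_⟩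
    · rw [← hG, hyn]
      calc |(s : ℝ)| ≤ G / y := h1
        _ = G * (1 / y) := by ring
    · rw [← hG, hyn]
      calc |(r : ℝ) + γ * (b : ℝ) ^ m * s / g m| ≤ 1 / (G * y) := h2
        _ = 1 / y / G := by field_simp
  obtain ⟨j₁, s₁, hs₁0, hs₁, hr₁⟩ := Real.exists_int_int_abs_mul_sub_le
    (γ * (b : ℝ) ^ m / g m) (n := ⌊G / y ^ 2⌋₊) (Nat.floor_pos.2 hG1)
  have hGy2 : 1 ≤ G * y ^ 2 := by
    have : 1 ≤ y ^ 4 := one_le_pow₀ hy1.le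
    have h2 : 1 ≤ y ^ 2 := one_le_pow₀ hy1.le
    nlinarith
  obtain ⟨j₂, s₂, hs₂0, hs₂, hr₂⟩ := Real.exists_int_int_abs_mul_sub_le
    (γ * (b : ℝ) ^ m / g m) (n := ⌊G * y ^ 2⌋₊) (Nat.floor_pos.2 hGy2)
  have a1 : |(s₁ : ℝ)| ≤ G / y ^ 2 := by
    rw [abs_of_pos (by exact_mod_cast hs₁0)]
    calc (s₁ : ℝ) ≤ ((⌊G / y ^ 2⌋₊ : ℕ) : ℝ) := by exact_mod_cast hs₁
      _ ≤ G / y ^ 2 := Nat.floor_le (by positivity)
  have a2 : |(s₂ : ℝ)| ≤ G * y ^ 2 := by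
    rw [abs_of_pos (by exact_mod_cast hs₂0)]
    calc (s₂ : ℝ) ≤ ((⌊G * y ^ 2⌋₊ : ℕ) : ℝ) := by exact_mod_cast hs₂
      _ ≤ G * y ^ 2 := Nat.floor_le (by positivity)
  have a3 : |((-j₁ : ℤ) : ℝ) + γ * (b : ℝ) ^ m * s₁ / g m| ≤ y ^ 2 / G := by
    have e1 : ((-j₁ : ℤ) : ℝ) + γ * (b : ℝ) ^ m * s₁ / g m =
        s₁ * (γ * (b : ℝ) ^ m / g m) - j₁ := by push_cast; ring
    rw [e1]
    refine hr₁.trans ?_
    have e2 : G / y ^ 2 < (⌊G / y ^ 2⌋₊ : ℝ) + 1 := Nat.lt_floor_add_one _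
    calc 1 / ((⌊G / y ^ 2⌋₊ : ℝ) + 1) ≤ 1 / (G / y ^ 2) := by
          apply one_div_le_one_div_of_le (by positivity) e2.le
      _ = y ^ 2 / G := by field_simp
  have a4 : |((-j₂ : ℤ) : ℝ) + γ * (b : ℝ) ^ m * s₂ / g m| ≤ 1 / (G * y ^ 2) := by
    have e1 : ((-j₂ : ℤ) : ℝ) + γ * (b : ℝ) ^ m * s₂ / g m =
        s₂ * (γ * (b : ℝ) ^ m / g m) - j₂ := by push_cast; ring
    rw [e1]
    refine hr₂.trans ?_
    have e2 : G * y ^ 2 < (⌊G * y ^ 2⌋₊ : ℝ) + 1 := Nat.lt_floor_add_one _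
    apply one_div_le_one_div_of_le (by positivity) e2.le
  have hyy : y ≤ y ^ 2 := by nlinarith
  have b1 : 1 / (G * y) < |((-j₁ : ℤ) : ℝ) + γ * (b : ℝ) ^ m * s₁ / g m| := by
    refine hnb' _ _ hs₁0.ne' (a1.trans ?_)
    gcongr
  have b2 : G / y < |(s₂ : ℝ)| := by
    by_contra h
    push Not at h
    have h1 := hnb' (-j₂) s₂ hs₂0.ne' h
    have h2 : 1 / (G * y ^ 2) ≤ 1 / (G * y) := by gcongr
    linarith
  have b3 : |(s₁ : ℝ)| ≤ |(s₂ : ℝ)| := by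
    have : G / y ^ 2 ≤ G / y := by gcongr
    linarith
  have b4 : |((-j₂ : ℤ) : ℝ) + γ * (b : ℝ) ^ m * s₂ / g m| <
      |((-j₁ : ℤ) : ℝ) + γ * (b : ℝ) ^ m * s₁ / g m| := by
    have h2 : 1 / (G * y ^ 2) ≤ 1 / (G * y) := by gcongr
    linarith
  have hy21 : 1 ≤ y ^ 2 := one_le_pow₀ hy1.le
  refine ⟨-j₁, s₁, -j₂, s₂, ?_, ?_, ?_, ?_, ?_⟩
  · intro h
    have h1 : (((-j₁ : ℤ) : ℝ) + γ * (b : ℝ) ^ m * s₁ / g m) * s₂ =
        s₁ * (((-j₂ : ℤ) : ℝ) + γ * (b : ℝ) ^ m * s₂ / g m) := by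
      have h2 : ((-j₁ : ℤ) : ℝ) * s₂ = ((-j₂ : ℤ) : ℝ) * s₁ := by exact_mod_cast h
      have h3 : (((-j₁ : ℤ) : ℝ) + γ * (b : ℝ) ^ m * s₁ / g m) * s₂ =
        ((-j₁ : ℤ) : ℝ) * s₂ + γ * (b : ℝ) ^ m * s₁ / g m * s₂ := by ring
      rw [h3, h2]
      ring
    have h2 := congrArg abs h1
    rw [abs_mul, abs_mul] at h2
    have h3 : (0 : ℝ) < |(s₂ : ℝ)| := abs_pos.2 (by exact_mod_cast hs₂0.ne')
    have h4 : |(s₁ : ℝ)| * |((-j₂ : ℤ) : ℝ) + γ * (b : ℝ) ^ m * s₂ / g m| <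
        |((-j₁ : ℤ) : ℝ) + γ * (b : ℝ) ^ m * s₁ / g m| * |(s₂ : ℝ)| := by
      calc |(s₁ : ℝ)| * |((-j₂ : ℤ) : ℝ) + γ * (b : ℝ) ^ m * s₂ / g m|
          ≤ |(s₂ : ℝ)| * |((-j₂ : ℤ) : ℝ) + γ * (b : ℝ) ^ m * s₂ / g m| := by gcongr
        _ < |(s₂ : ℝ)| * |((-j₁ : ℤ) : ℝ) + γ * (b : ℝ) ^ m * s₁ / g m| := by gcongr
        _ = _ := mul_comm _ _
    linarith
  · rw [← hG, hyη]
    refine a1.trans ?_
    rw [div_le_iff₀ (by positivity)]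
    nlinarith [mul_pos hGpos (by positivity : 0 < y ^ 2)]
  · rw [← hG, hyη]
    exact a2
  · rw [← hG, hyη]
    exact a3
  · rw [← hG, hyη]
    refine a4.trans ?_
    rw [div_le_div_iff₀ (by positivity) hGpos]
    nlinarith [mul_pos hGpos (by positivity : 0 < y ^ 2)]

end SB
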