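import Pool.Agent.Lib.MP_28dc30_nt.FinalS

/-! The irrational case and the final theorem. -/

namespace SB

/-- the integer vector attached to a lattice vector `(r, s)` -/
def irrW (A f' h' B : ℤ) (r s : ℤ) : Fin 3 → ℤ :=
  ![-(A * r) - f' * s, B * r, h' * B * s]

/-- bounds for the three linear forms -/
theorem irr_bounds (α β A f g f' h' B r s e : ℝ) (hg : 0 < g) (hB : 0 < B) (_he : 0 ≤ e)
    (hf' : g * f' = f) (hh' : g * h' = B) (hA0 : 0 ≤ α * B - A) (hA1 : α * B - A < 1)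
    (hf : |f - 2 * α * β * B * A + α ^ 2 * β * B ^ 2| ≤ |β| + 1)
    (hs : |s| ≤ √g * e) (hr : |r + 2 * (α * β) * B * s / g| ≤ e / √g) :
    |(-(A * r) - f' * s) + α * (B * r) + α ^ 2 * β * (h' * B * s)| ≤ (|β| + 2) * (e / √g) ∧
    |B * r + 2 * (α * β) * (h' * B * s)| ≤ B * (e / √g) ∧
    |h' * B * s| ≤ B ^ 2 * (e / √g) := by
  have hsq : 0 < √g := Real.sqrt_pos.2 hg
  have hsg : √g * √g = g := Real.mul_self_sqrt hg.le
  have hf'' : f' = f / g := by field_simp; linarith
  have hh'' : h' = B / g := by field_simp; linarith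
  have hsg' : |s| / g ≤ e / √g := by
    rw [div_le_div_iff₀ hg hsq]
    calc |s| * √g ≤ (√g * e) * √g := mul_le_mul_of_nonneg_right hs hsq.le
      _ = e * (√g * √g) := by ring
      _ = e * g := by rw [hsg]
  refine ⟨?_, ?_, ?_⟩
  · have e1 : (-(A * r) - f' * s) + α * (B * r) + α ^ 2 * β * (h' * B * s)
        = (α * B - A) * (r + 2 * (α * β) * B * s / g)
          - (f - 2 * α * β * B * A + α ^ 2 * β * B ^ 2) * (s / g) := by
      rw [hf'', hh'']
      field_simp
      ring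
    rw [e1]
    calc _ ≤ |(α * B - A) * (r + 2 * (α * β) * B * s / g)|
          + |(f - 2 * α * β * B * A + α ^ 2 * β * B ^ 2) * (s / g)| := abs_sub _ _
      _ ≤ 1 * (e / √g) + (|β| + 1) * (e / √g) := by
          apply add_le_add
          · rw [abs_mul]
            apply mul_le_mul _ hr (abs_nonneg _) zero_le_one
            rw [abs_of_nonneg hA0]; exact hA1.le
          · rw [abs_mul]
            apply mul_le_mul hf _ (abs_nonneg _) (by positivity)
            rw [abs_div, abs_of_pos hg]; exact hsg'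
      _ = _ := by ring
  · have e2 : B * r + 2 * (α * β) * (h' * B * s) = B * (r + 2 * (α * β) * B * s / g) := by
      rw [hh'']
      field_simp
    rw [e2, abs_mul, abs_of_pos hB]
    exact mul_le_mul_of_nonneg_left hr hB.le
  · have e3 : h' * B * s = B ^ 2 * (s / g) := by
      rw [hh'']
      field_simp
    rw [e3, abs_mul, abs_of_nonneg (by positivity : (0 : ℝ) ≤ B ^ 2), abs_div, abs_of_pos hg]
    exact mul_le_mul_of_nonneg_left hsg' (by positivity)

/-- the plane `V · w = 0` is spanned by two vectors -/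
theorem irr_span (A f g f' h' B r₁ s₁ r₂ s₂ : ℚ) (_hg : g ≠ 0) (hB : B ≠ 0)
    (hf' : g * f' = f) (hh' : g * h' = B) (hne : r₁ * s₂ ≠ r₂ * s₁) (w : Fin 3 → ℚ)
    (hw : B ^ 2 * w 0 + B * A * w 1 + f * w 2 = 0) :
    ∃ x y : ℚ, x * (-(A * r₁) - f' * s₁) + y * (-(A * r₂) - f' * s₂) = w 0 ∧
      x * (B * r₁) + y * (B * r₂) = w 1 ∧ x * (h' * B * s₁) + y * (h' * B * s₂) = w 2 := by
  have hh0 : h' ≠ 0 := by
    rintro rfl
    rw [mul_zero] at hh'
    exact hB hh'.symm
  have hD : r₁ * s₂ - r₂ * s₁ ≠ 0 := sub_ne_zero.2 hne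
  set D := r₁ * s₂ - r₂ * s₁ with hDdef
  refine ⟨(w 1 * h' * s₂ - w 2 * r₂) / (B * h' * D), (w 2 * r₁ - w 1 * h' * s₁) / (B * h' * D),
    ?_, ?_, ?_⟩
  · have h1 : w 0 = -(B * A * w 1 + f * w 2) / B ^ 2 := by
      field_simp
      linarith
    rw [h1]
    have hf2 : f = B / h' * f' := by
      rw [← hf']; congr 1; field_simp; linarith
    rw [hf2]
    field_simp
    rw [hDdef]
    ring
  · field_simp
    rw [hDdef]
    ring
  · field_simp
    rw [hDdef]
    ring

theorem irr_eventually (a A c : ℝ) (ha : 0 < a) (hc : 0 < c) (B : ℝ) :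
    ∃ m₀ : ℕ, ∀ m : ℕ, m₀ ≤ m → A ≤ Real.exp (a * m) ∧ B ≤ Real.exp (c * m) := by
  have h1 : Filter.Tendsto (fun m : ℕ => Real.exp (a * m)) Filter.atTop Filter.atTop :=
    Real.tendsto_exp_atTop.comp
      ((tendsto_natCast_atTop_atTop (R := ℝ)).const_mul_atTop ha)
  have h2 : Filter.Tendsto (fun m : ℕ => Real.exp (c * m)) Filter.atTop Filter.atTop :=
    Real.tendsto_exp_atTop.comp
      ((tendsto_natCast_atTop_atTop (R := ℝ)).const_mul_atTop hc)
  obtain ⟨m₀, hm₀⟩ := Filter.eventually_atTop.1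
    ((h1.eventually_ge_atTop A).and (h2.eventually_ge_atTop B))
  exact ⟨m₀, fun m hm => hm₀ m hm⟩

theorem case_irrational (b : ℕ) (hb : 2 ≤ b) (α β : ℝ) (hα : Irrational α) (hβ : Irrational β)
    (hα' : IsAlgebraic ℚ α) (hβ' : IsAlgebraic ℚ β) (hαβ : Irrational (α * β)) (ε : ℝ)
    (hε : 0 < ε) (T : Set ℕ) (hT : T.Infinite)
    (hg : ∀ m ∈ T, Real.exp (ε * m) ≤ gg b α β m) : False := by
  have hbR : (2 : ℝ) ≤ b := by exact_mod_cast hb
  have hb0 : (0 : ℝ) < b := by linarith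
  have hlb : 0 < Real.log b := Real.log_pos (by linarith)
  have hγ : Irrational (2 * (α * β)) := by
    have := hαβ.ratCast_mul (q := 2) (by norm_num)
    simpa using this
  have hγ' : IsAlgebraic ℚ (2 * (α * β)) := by
    have h2 : IsAlgebraic ℚ ((2 : ℕ) : ℝ) := isAlgebraic_natCast 2
    have := h2.mul (hα'.mul hβ')
    simpa using this
  have hgd : ∀ m ∈ T, gg b α β m ∣ b ^ m := by
    intro m _
    have := Int.gcd_dvd_right (ff b α β m) ((b : ℤ) ^ m)
    exact_mod_cast this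
  obtain ⟨T', hT', hT'inf, hpair⟩ := exists_pair b hb _ hγ hγ' (gg b α β) T hT hgd ε hε hg
    (ε / 24) (by positivity) (by linarith)
  choose! r₁ s₁ r₂ s₂ hne hs₁ hs₂ hr₁ hr₂ using hpair
  obtain ⟨A₀, hA₀, D, hD, hL⟩ := liouville_den α hα hα'
  obtain ⟨m₀, hm₀⟩ := irr_eventually (ε / 8) (|β| + 2) (Real.log b / 2) (by positivity)
    (by positivity) A₀
  set T'' := T' \ Set.Iio m₀ with hT''def
  have hT'' : T''.Infinite := hT'inf.sdiff (Set.finite_Iio m₀)
  have hge : ∀ m ∈ T'', m₀ ≤ m := fun m hm => by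
    have := hm.2
    simpa using this
  have hmem : ∀ m ∈ T'', m ∈ T' := fun m hm => hm.1
  -- basic facts
  have hgpos : ∀ m ∈ T'', 0 < gg b α β m := by
    intro m hm
    have := hg m (hT' (hmem m hm))
    have h2 : (0 : ℝ) < gg b α β m := lt_of_lt_of_le (Real.exp_pos _) this
    exact_mod_cast h2
  set f' : ℕ → ℤ := fun m => ff b α β m / gg b α β m with hf'def
  set h' : ℕ → ℕ := fun m => b ^ m / gg b α β m with hh'def
  have hf' : ∀ m ∈ T'', (gg b α β m : ℤ) * f' m = ff b α β m := by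
    intro m _
    exact Int.mul_ediv_cancel' (Int.gcd_dvd_left _ _)
  have hh' : ∀ m ∈ T'', gg b α β m * h' m = b ^ m := by
    intro m hm
    exact Nat.mul_div_cancel' (hgd m (hT' (hmem m hm)))
  have hbm : ∀ m : ℕ, (0 : ℝ) < (b : ℝ) ^ m := fun m => by positivity
  have hbexp : ∀ m : ℕ, (b : ℝ) ^ m = Real.exp (Real.log b * m) := by
    intro m
    rw [mul_comm, Real.exp_nat_mul, Real.exp_log hb0]
  set ν : ℕ → ℝ := fun m => Real.exp (ε / 24 * m) / √(gg b α β m) with hνdef
  have hνpos : ∀ m ∈ T'', 0 < ν m := by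
    intro m hm
    have : (0 : ℝ) < gg b α β m := by exact_mod_cast hgpos m hm
    have h2 := Real.sqrt_pos.2 this
    simp only [hνdef]
    positivity
  have hsqle : ∀ m ∈ T'', √(gg b α β m : ℝ) ≤ Real.exp (Real.log b * m) := by
    intro m hm
    have h1 : (1 : ℝ) ≤ gg b α β m := by exact_mod_cast hgpos m hm
    have h2 : (gg b α β m : ℝ) ≤ (b : ℝ) ^ m := by
      have := Nat.le_of_dvd (by positivity) (hgd m (hT' (hmem m hm)))
      exact_mod_cast this
    rw [← hbexp]
    calc √(gg b α β m : ℝ) ≤ √((gg b α β m : ℝ) ^ 2) := Real.sqrt_le_sqrt (by nlinarith)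
      _ = gg b α β m := Real.sqrt_sq (by linarith)
      _ ≤ _ := h2
  have hsqge : ∀ m ∈ T'', 1 ≤ √(gg b α β m : ℝ) := by
    intro m hm
    have h1 : (1 : ℝ) ≤ gg b α β m := by exact_mod_cast hgpos m hm
    rw [← Real.sqrt_one]
    exact Real.sqrt_le_sqrt h1
  have hνlow : ∀ m ∈ T'', Real.exp (-(Real.log b * m)) ≤ ν m := by
    intro m hm
    simp only [hνdef]
    rw [Real.exp_neg, inv_eq_one_div]
    have h1 : (1 : ℝ) ≤ Real.exp (ε / 24 * m) := Real.one_le_exp (by positivity)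
    have h2 := hsqge m hm
    exact div_le_div₀ (by positivity) h1 (by linarith) (hsqle m hm)
  have hνup : ∀ m ∈ T'', ν m ≤ Real.exp (ε / 24 * m) := by
    intro m hm
    exact div_le_self (Real.exp_pos _).le (hsqge m hm)
  -- the matrices
  set K : IntermediateField ℚ ℝ := IntermediateField.adjoin ℚ {α, β} with hK
  have hKfin : FiniteDimensional ℚ K := by
    apply IntermediateField.finiteDimensional_adjoin
    intro x hx
    rcases hx with rfl | rfl
    · exact hα'.isIntegral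
    · exact hβ'.isIntegral
  have hαK : α ∈ K := IntermediateField.subset_adjoin _ _ (by simp)
  have hβK : β ∈ K := IntermediateField.subset_adjoin _ _ (by simp)
  have h2K : (2 : ℝ) ∈ K := by
    have := K.algebraMap_mem 2
    simpa using this
  set N : Matrix (Fin 3) (Fin 3) ℝ := !![1, α, α ^ 2 * β; 0, 1, 2 * (α * β); 0, 0, 1] with hNdef
  set N' : Matrix (Fin 3) (Fin 3) ℝ := !![1, -α, α ^ 2 * β; 0, 1, -(2 * (α * β)); 0, 0, 1]
    with hN'def
  have hNN : N' * N = 1 := by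
    rw [hNdef, hN'def]
    ext i j
    fin_cases i <;> fin_cases j <;> simp [Matrix.mul_apply, Fin.sum_univ_three]
    ring
  have hN'K : ∀ i j, N' i j ∈ K := by
    intro i j
    rw [hN'def]
    fin_cases i <;> fin_cases j <;>
      simp [hαK, hβK, h2K, K.zero_mem, K.one_mem, K.mul_mem, K.neg_mem, K.pow_mem, pow_two,
        mul_assoc]
  set u : ℕ → Fin 2 → Fin 3 → ℤ := fun m j =>
    irrW (Aa b α m) (f' m) (h' m) ((b : ℤ) ^ m) (if j = 0 then r₁ m else r₂ m)
      (if j = 0 then s₁ m else s₂ m) with hu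
  set V : ℕ → Fin 3 → ℤ := fun m => ![((b : ℤ) ^ m) ^ 2, (b : ℤ) ^ m * Aa b α m, ff b α β m]
    with hV
  set B : ℕ → Fin 3 → ℝ := fun m => ![(|β| + 2) * ν m, (b : ℝ) ^ m * ν m,
    ((b : ℝ) ^ m) ^ 2 * ν m] with hB
  set E : ℕ → Fin 3 → ℕ := fun m => ![1, b ^ m, h' m * b ^ m] with hE
  have hh'0 : ∀ m ∈ T'', h' m ≠ 0 := by
    intro m hm h0
    have := hh' m hm
    rw [h0, mul_zero] at this
    have h3 : 0 < b ^ m := by positivity
    omega
  have hh'le : ∀ m ∈ T'', (h' m : ℝ) ≤ (b : ℝ) ^ m := by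
    intro m hm
    have h1 := hh' m hm
    have h2 := hgpos m hm
    have h3 : h' m ≤ b ^ m := by
      rw [← h1]; exact Nat.le_mul_of_pos_left _ h2
    exact_mod_cast h3
  refine hyperplane_lemma' (n := 1) K N N' hNN hN'K b.primeFactors
    (fun p hp => Nat.prime_of_mem_primeFactors hp) (2 * Real.log b + ε) (ε / 4)
    (Real.log b / (2 * D)) (by positivity) (by positivity) T'' hT'' u V B E
    ?_ ?_ ?_ ?_ ?_ ?_ ?_ ?_ ?_ ?_
  · -- sizes
    intro m hm j i
    have hgp : (0 : ℝ) < gg b α β m := by exact_mod_cast hgpos m hm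
    have hA := Aa_approx b α m
    have hF := ff_approx b α β m
    rw [show 2 * m = m * 2 from mul_comm _ _, pow_mul] at hF
    have e1 : (gg b α β m : ℝ) * (f' m : ℝ) = ff b α β m := by exact_mod_cast hf' m hm
    have e2 : (gg b α β m : ℝ) * (h' m : ℝ) = (b : ℝ) ^ m := by exact_mod_cast hh' m hm
    have hmain : ∀ r s : ℤ, |(s : ℝ)| ≤ √(gg b α β m) * Real.exp (ε / 24 * m) →
        |(r : ℝ) + 2 * (α * β) * (b : ℝ) ^ m * s / gg b α β m| ≤
          Real.exp (ε / 24 * m) / √(gg b α β m) →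
        |∑ l, N i l * ((irrW (Aa b α m) (f' m) (h' m) ((b : ℤ) ^ m) r s l : ℤ) : ℝ)| ≤ B m i := by
      intro r s h1 h2
      obtain ⟨k1, k2, k3⟩ := irr_bounds α β (Aa b α m) (ff b α β m) (gg b α β m) (f' m) (h' m)
        ((b : ℝ) ^ m) r s (Real.exp (ε / 24 * m)) hgp (hbm m) (Real.exp_pos _).le e1 e2 hA.1 hA.2
        hF h1 h2
      fin_cases i
      · simpa [Fin.sum_univ_three, irrW, hNdef, hB, hνdef] using k1
      · simpa [Fin.sum_univ_three, irrW, hNdef, hB, hνdef] using k2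
      · simpa [Fin.sum_univ_three, irrW, hNdef, hB, hνdef] using k3
    have hm' := hmem m hm
    fin_cases j
    · exact hmain _ _ (hs₁ m hm') (hr₁ m hm')
    · exact hmain _ _ (hs₂ m hm') (hr₂ m hm')
  · -- divisibility
    intro m hm j i
    fin_cases i
    · change (((1 : ℕ) : ℕ) : ℤ) ∣ _
      simp
    · change ((b ^ m : ℕ) : ℤ) ∣ (b : ℤ) ^ m * (if j = 0 then r₁ m else r₂ m)
      push_cast
      exact Dvd.intro _ rfl
    · change ((h' m * b ^ m : ℕ) : ℤ) ∣ (h' m : ℤ) * (b : ℤ) ^ m * (if j = 0 then s₁ m else s₂ m)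
      push_cast
      exact Dvd.intro _ rfl
  · -- bounds for B
    intro m hm i
    have hν1 := hνlow m hm
    have hν2 := hνup m hm
    have hν0 := hνpos m hm
    have hmR : (0 : ℝ) ≤ m := Nat.cast_nonneg m
    have hb1 : (1 : ℝ) ≤ (b : ℝ) ^ m := one_le_pow₀ (by linarith)
    have hlow : Real.exp (-((2 * Real.log b + ε) * m)) ≤ ν m := by
      refine le_trans ?_ hν1
      rw [Real.exp_le_exp]
      nlinarith [mul_nonneg hlb.le hmR, mul_nonneg hε.le hmR]
    have hup1 : (|β| + 2) * ν m ≤ Real.exp ((2 * Real.log b + ε) * m) := by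
      calc (|β| + 2) * ν m ≤ Real.exp (ε / 8 * m) * Real.exp (ε / 24 * m) :=
            mul_le_mul (hm₀ m (hge m hm)).1 hν2 hν0.le (Real.exp_pos _).le
        _ ≤ _ := by
            rw [← Real.exp_add, Real.exp_le_exp]
            nlinarith [mul_nonneg hlb.le hmR, mul_nonneg hε.le hmR]
    have hup3 : ((b : ℝ) ^ m) ^ 2 * ν m ≤ Real.exp ((2 * Real.log b + ε) * m) := by
      calc ((b : ℝ) ^ m) ^ 2 * ν m ≤ (Real.exp (Real.log b * m)) ^ 2 * Real.exp (ε / 24 * m) := by
            rw [hbexp]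
            exact mul_le_mul_of_nonneg_left hν2 (by positivity)
        _ ≤ _ := by
            rw [pow_two, ← Real.exp_add, ← Real.exp_add, Real.exp_le_exp]
            nlinarith [mul_nonneg hlb.le hmR, mul_nonneg hε.le hmR]
    fin_cases i
    · refine ⟨?_, ?_⟩
      · simp only [hB]
        refine hlow.trans ?_
        change ν m ≤ (|β| + 2) * ν m
        nlinarith [abs_nonneg β]
      · exact hup1
    · refine ⟨?_, ?_⟩
      · refine hlow.trans ?_
        change ν m ≤ (b : ℝ) ^ m * ν m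
        nlinarith
      · refine le_trans ?_ hup3
        change (b : ℝ) ^ m * ν m ≤ ((b : ℝ) ^ m) ^ 2 * ν m
        apply mul_le_mul_of_nonneg_right _ hν0.le
        nlinarith
    · refine ⟨?_, hup3⟩
      refine hlow.trans ?_
      change ν m ≤ ((b : ℝ) ^ m) ^ 2 * ν m
      have : (1 : ℝ) ≤ ((b : ℝ) ^ m) ^ 2 := one_le_pow₀ hb1
      nlinarith
  · -- E ≠ 0
    intro m hm i
    have h1 : b ^ m ≠ 0 := by positivity
    fin_cases i
    · exact one_ne_zero
    · exact h1
    · exact mul_ne_zero (hh'0 m hm) h1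
  · -- prime factors
    intro m hm i
    have h1 : (b ^ m).primeFactors ⊆ b.primeFactors := by
      rcases Nat.eq_zero_or_pos m with h | h
      · simp [h]
      · rw [Nat.primeFactors_pow _ (by omega)]
    have hb2 : b ^ m ≠ 0 := by positivity
    fin_cases i
    · change (1 : ℕ).primeFactors ⊆ _
      simp
    · exact h1
    · change (h' m * b ^ m).primeFactors ⊆ _
      rw [Nat.primeFactors_mul (hh'0 m hm) hb2]
      apply Finset.union_subset _ h1
      refine (Nat.primeFactors_mono ?_ hb2).trans h1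
      exact Dvd.intro_left _ (hh' m hm)
  · -- size of E
    intro m hm i
    have hmR : (0 : ℝ) ≤ m := Nat.cast_nonneg m
    have hb1 : (1 : ℝ) ≤ (b : ℝ) ^ m := one_le_pow₀ (by linarith)
    have h2 : ((b : ℝ) ^ m) ^ 2 ≤ Real.exp ((2 * Real.log b + ε) * m) := by
      rw [hbexp, pow_two, ← Real.exp_add, Real.exp_le_exp]
      nlinarith [mul_nonneg hlb.le hmR, mul_nonneg hε.le hmR]
    fin_cases i
    · refine le_trans ?_ h2
      change ((1 : ℕ) : ℝ) ≤ _
      rw [Nat.cast_one]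
      exact one_le_pow₀ hb1
    · refine le_trans ?_ h2
      change ((b ^ m : ℕ) : ℝ) ≤ _
      push_cast
      nlinarith
    · refine le_trans ?_ h2
      change ((h' m * b ^ m : ℕ) : ℝ) ≤ _
      push_cast
      rw [pow_two]
      exact mul_le_mul_of_nonneg_right (hh'le m hm) (by linarith)
  · -- product
    intro m hm
    have hgp : (0 : ℝ) < gg b α β m := by exact_mod_cast hgpos m hm
    have hsq := Real.sqrt_pos.2 hgp
    have hss : √(gg b α β m : ℝ) * √(gg b α β m : ℝ) = gg b α β m := Real.mul_self_sqrt hgp.le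
    have e2 : (h' m : ℝ) = (b : ℝ) ^ m / gg b α β m := by
      have : (gg b α β m : ℝ) * (h' m : ℝ) = (b : ℝ) ^ m := by exact_mod_cast hh' m hm
      field_simp
      linarith
    have hsqexp : Real.exp (ε / 2 * m) ≤ √(gg b α β m : ℝ) := by
      have h1 := hg m (hT' (hmem m hm))
      have h2 : Real.exp (ε / 2 * m) = √(Real.exp (ε * m)) := by
        rw [← Real.exp_half]; congr 1; ring
      rw [h2]
      exact Real.sqrt_le_sqrt h1
    have h3 : (|β| + 2) * (Real.exp (ε / 24 * m)) ^ 3 * Real.exp (ε / 4 * m) ≤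
        √(gg b α β m : ℝ) := by
      calc (|β| + 2) * (Real.exp (ε / 24 * m)) ^ 3 * Real.exp (ε / 4 * m)
          ≤ Real.exp (ε / 8 * m) * (Real.exp (ε / 24 * m)) ^ 3 * Real.exp (ε / 4 * m) := by
            have := (hm₀ m (hge m hm)).1
            gcongr
        _ = Real.exp (ε / 2 * m) := by
            rw [← Real.exp_nat_mul, ← Real.exp_add, ← Real.exp_add]
            congr 1
            push_cast
            ring
        _ ≤ _ := hsqexp
    have hBp : ∏ i, B m i = (|β| + 2) * ν m * ((b : ℝ) ^ m * ν m) * (((b : ℝ) ^ m) ^ 2 * ν m) := by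
      rw [Fin.prod_univ_three]
      rfl
    have hEp : ∏ i, (E m i : ℝ) = (h' m : ℝ) * (b : ℝ) ^ m * (b : ℝ) ^ m := by
      rw [Fin.prod_univ_three]
      change ((1 : ℕ) : ℝ) * ((b ^ m : ℕ) : ℝ) * ((h' m * b ^ m : ℕ) : ℝ) = _
      push_cast
      ring
    change (∏ i : Fin 3, B m i) * _ ≤ ∏ i : Fin 3, (E m i : ℝ)
    rw [hBp, hEp, e2]
    simp only [hνdef]
    have e4 : (|β| + 2) * (Real.exp (ε / 24 * m) / √(gg b α β m)) *
        ((b : ℝ) ^ m * (Real.exp (ε / 24 * m) / √(gg b α β m))) *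
        (((b : ℝ) ^ m) ^ 2 * (Real.exp (ε / 24 * m) / √(gg b α β m))) * Real.exp (ε / 4 * m)
        = ((b : ℝ) ^ m) ^ 3 * (((|β| + 2) * (Real.exp (ε / 24 * m)) ^ 3 * Real.exp (ε / 4 * m)) /
          (√(gg b α β m) * √(gg b α β m) * √(gg b α β m))) := by
      field_simp
    have e5 : (b : ℝ) ^ m / gg b α β m * (b : ℝ) ^ m * (b : ℝ) ^ m
        = ((b : ℝ) ^ m) ^ 3 * (√(gg b α β m) /
          (√(gg b α β m) * √(gg b α β m) * √(gg b α β m))) := by
      have e6 : √(gg b α β m) / (√(gg b α β m) * √(gg b α β m) * √(gg b α β m))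
          = 1 / (gg b α β m : ℝ) := by
        rw [hss]
        field_simp
      rw [e6]
      field_simp
    rw [e4, e5]
    apply mul_le_mul_of_nonneg_left _ (by positivity)
    exact div_le_div_of_nonneg_right h3 (by positivity)
  · -- V 0
    intro m hm
    change ((b : ℤ) ^ m) ^ 2 ≠ 0
    positivity
  · -- span
    intro m hm w hw
    have hgp : (gg b α β m : ℚ) ≠ 0 := by
      have := hgpos m hm
      exact_mod_cast this.ne'
    have hB0 : ((b : ℚ) ^ m) ≠ 0 := by
      have : b ≠ 0 := by omega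
      positivity
    have e1 : (gg b α β m : ℚ) * (f' m : ℚ) = ff b α β m := by exact_mod_cast hf' m hm
    have e2 : (gg b α β m : ℚ) * (h' m : ℚ) = (b : ℚ) ^ m := by exact_mod_cast hh' m hm
    have hne' : (r₁ m : ℚ) * (s₂ m : ℚ) ≠ (r₂ m : ℚ) * (s₁ m : ℚ) := by
      exact_mod_cast hne m (hmem m hm)
    have hw' : ((b : ℚ) ^ m) ^ 2 * w 0 + (b : ℚ) ^ m * (Aa b α m : ℚ) * w 1
        + (ff b α β m : ℚ) * w 2 = 0 := by
      have : ∑ i : Fin 3, (V m i : ℚ) * w i = 0 := hw
      rw [Fin.sum_univ_three] at this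
      simpa [hV] using this
    obtain ⟨x, y, h0, h1, h2⟩ := irr_span (Aa b α m) (ff b α β m) (gg b α β m) (f' m) (h' m)
      ((b : ℚ) ^ m) (r₁ m) (s₁ m) (r₂ m) (s₂ m) hgp hB0 e1 e2 hne' w hw'
    have hwe : w = x • (fun i => (u m 0 i : ℚ)) + y • (fun i => (u m 1 i : ℚ)) := by
      funext i
      fin_cases i
      · simp [hu, irrW, ← h0]
      · simp [hu, irrW, ← h1]
      · simp [hu, irrW, ← h2]
    rw [hwe]
    apply Submodule.add_mem
    · exact Submodule.smul_mem _ _ (Submodule.subset_span ⟨0, rfl⟩)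
    · exact Submodule.smul_mem _ _ (Submodule.subset_span ⟨1, rfl⟩)
  · -- denominators
    intro m hm
    have hB0 : ((b : ℚ) ^ m) ≠ 0 := by
      have : b ≠ 0 := by omega
      positivity
    set ρ : ℚ := (Aa b α m : ℚ) / (b : ℚ) ^ m with hρ
    have hVr : (-(V m 1 : ℚ) / (V m 0 : ℚ)) = -ρ := by
      simp only [hV, hρ]
      simp
      field_simp
    have hden : ((-(V m 1 : ℚ) / (V m 0 : ℚ)).den : ℝ) = (ρ.den : ℝ) := by
      rw [hVr, Rat.neg_den]
    rw [hden]
    have h1 := hL ρ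
    have hA := Aa_approx b α m
    have h2 : |α - ρ| ≤ 1 / (b : ℝ) ^ m := by
      have : α - (ρ : ℝ) = (α * (b : ℝ) ^ m - Aa b α m) / (b : ℝ) ^ m := by
        rw [hρ]
        push_cast
        field_simp
      rw [this, abs_div, abs_of_pos (hbm m), abs_of_nonneg hA.1]
      exact div_le_div_of_nonneg_right hA.2.le (hbm m).le
    have hdenp : (0 : ℝ) < (ρ.den : ℝ) := by exact_mod_cast ρ.den_pos
    have h3 : Real.exp (Real.log b / 2 * m) ≤ (ρ.den : ℝ) ^ D := by
      have h4 : 1 ≤ (ρ.den : ℝ) ^ D * (1 / (b : ℝ) ^ m * A₀) := by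
        refine h1.trans ?_
        apply mul_le_mul_of_nonneg_left _ (by positivity)
        exact mul_le_mul_of_nonneg_right h2 hA₀.le
      have h5 : (b : ℝ) ^ m ≤ (ρ.den : ℝ) ^ D * A₀ := by
        have e : (ρ.den : ℝ) ^ D * (1 / (b : ℝ) ^ m * A₀) = ((ρ.den : ℝ) ^ D * A₀) / (b : ℝ) ^ m := by
          field_simp
        rw [e, one_le_div (hbm m)] at h4
        exact h4
      have h6 : (b : ℝ) ^ m ≤ (ρ.den : ℝ) ^ D * Real.exp (Real.log b / 2 * m) :=
        h5.trans (mul_le_mul_of_nonneg_left (hm₀ m (hge m hm)).2 (by positivity))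
      have h7 : (b : ℝ) ^ m = Real.exp (Real.log b / 2 * m) * Real.exp (Real.log b / 2 * m) := by
        rw [hbexp, ← Real.exp_add]; congr 1; ring
      rw [h7] at h6
      exact le_of_mul_le_mul_right h6 (Real.exp_pos _)
    have hD0 : D ≠ 0 := by omega
    have h8 : (Real.exp (Real.log b / (2 * D) * m)) ^ D = Real.exp (Real.log b / 2 * m) := by
      rw [← Real.exp_nat_mul]
      congr 1
      field_simp
    rw [← h8] at h3
    exact (pow_le_pow_iff_left₀ (Real.exp_pos _).le hdenp.le hD0).1 h3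

/-- Main theorem of MP_28dc30_nt. -/
theorem gcd_lt (b : ℕ) (hb : 2 ≤ b) (α β : ℝ) (hα : Irrational α) (hβ : Irrational β)
    (hα' : IsAlgebraic ℚ α) (hβ' : IsAlgebraic ℚ β) (ε : ℝ) (hε : 0 < ε) :
    ∃ M : ℕ, ∀ m ≥ M,
      ((Int.gcd ⌊β * ((⌊α * (b : ℝ) ^ m⌋ : ℤ) : ℝ) ^ 2⌋ ((b : ℤ) ^ m) : ℕ) : ℝ) <
        (b : ℝ) ^ (ε * m) := by
  by_contra hcon
  push Not at hcon
  have hb0 : (0 : ℝ) < b := by
    have : 0 < b := by omega
    exact_mod_cast this
  have hlb : 0 < Real.log b := Real.log_pos (by exact_mod_cast (by omega : 1 < b))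
  set T : Set ℕ := {m | Real.exp (ε * Real.log b * m) ≤ gg b α β m} with hTdef
  have hT : T.Infinite := by
    apply Set.infinite_of_forall_exists_gt
    intro M
    obtain ⟨m, hm, hm2⟩ := hcon (M + 1)
    refine ⟨m, ?_, by omega⟩
    have h1 : (b : ℝ) ^ (ε * m) = Real.exp (ε * Real.log b * m) := by
      rw [Real.rpow_def_of_pos hb0]; congr 1; ring
    rw [h1] at hm2
    exact hm2
  by_cases hαβ : Irrational (α * β)
  · exact case_irrational b hb α β hα hβ hα' hβ' hαβ (ε * Real.log b) (by positivity) T hT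
      (fun m hm => hm)
  · rw [Irrational, not_not] at hαβ
    obtain ⟨q, hq⟩ := hαβ
    exact case_rational b hb α β hα hβ hα' hβ' q hq.symm (ε * Real.log b) (by positivity) T hT
      (fun m hm => hm)

end SB
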