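import Pool.Agent.Lib.MP_28dc30_nt.App

/-! The case `α β` rational (pieces 12a of the final theorem). The definitions `Aa`, `ff`, `gg` are
those of Final.lean. -/

namespace SB

/-- `A = ⌊α b^m⌋` -/
noncomputable def Aa (b : ℕ) (α : ℝ) (m : ℕ) : ℤ := ⌊α * (b : ℝ) ^ m⌋

/-- `f = ⌊β A²⌋` -/
noncomputable def ff (b : ℕ) (α β : ℝ) (m : ℕ) : ℤ := ⌊β * (Aa b α m : ℝ) ^ 2⌋

/-- `g = gcd(f, b^m)` -/
noncomputable def gg (b : ℕ) (α β : ℝ) (m : ℕ) : ℕ := Int.gcd (ff b α β m) ((b : ℤ) ^ m)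

theorem Aa_approx (b : ℕ) (α : ℝ) (m : ℕ) :
    0 ≤ α * (b : ℝ) ^ m - Aa b α m ∧ α * (b : ℝ) ^ m - Aa b α m < 1 := by
  unfold Aa
  have h1 := Int.floor_le (α * (b : ℝ) ^ m)
  have h2 := Int.lt_floor_add_one (α * (b : ℝ) ^ m)
  constructor <;> linarith

theorem ff_approx (b : ℕ) (α β : ℝ) (m : ℕ) :
    |(ff b α β m : ℝ) - 2 * α * β * (b : ℝ) ^ m * Aa b α m + α ^ 2 * β * (b : ℝ) ^ (2 * m)| ≤
      |β| + 1 := by
  obtain ⟨h0, h1⟩ := Aa_approx b α m
  set A : ℝ := (Aa b α m : ℝ) with hA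
  set B : ℝ := (b : ℝ) ^ m with hB
  have hB2 : (b : ℝ) ^ (2 * m) = B ^ 2 := by rw [hB, ← pow_mul, mul_comm]
  set δ : ℝ := α * B - A with hδ
  have hf1 : (ff b α β m : ℝ) ≤ β * A ^ 2 := Int.floor_le _
  have hf2 : β * A ^ 2 < (ff b α β m : ℝ) + 1 := Int.lt_floor_add_one _
  set f : ℝ := (ff b α β m : ℝ) with hf
  have hAδ : A = α * B - δ := by rw [hδ]; ring
  have key : f - 2 * α * β * B * A + α ^ 2 * β * (b : ℝ) ^ (2 * m) =
      (f - β * A ^ 2) + β * δ ^ 2 := by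
    rw [hB2, hAδ]
    ring
  rw [key]
  have e1 : |f - β * A ^ 2| ≤ 1 := by
    rw [abs_le]
    constructor <;> linarith
  have e2 : |β * δ ^ 2| ≤ |β| := by
    rw [abs_mul]
    have : |δ ^ 2| ≤ 1 := by
      rw [abs_of_nonneg (sq_nonneg δ)]
      nlinarith
    nlinarith [abs_nonneg β, abs_nonneg (δ ^ 2)]
  calc |(f - β * A ^ 2) + β * δ ^ 2| ≤ |f - β * A ^ 2| + |β * δ ^ 2| := abs_add_le _ _
    _ ≤ |β| + 1 := by linarith

theorem gg_ne_zero (b : ℕ) (hb : 2 ≤ b) (α β : ℝ) (m : ℕ) : gg b α β m ≠ 0 := by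
  unfold gg
  rw [Ne, Int.gcd_eq_zero_iff]
  rintro ⟨_, h⟩
  have : (b : ℤ) ≠ 0 := by positivity
  exact pow_ne_zero m this h

theorem gg_dvd_pow (b : ℕ) (α β : ℝ) (m : ℕ) : gg b α β m ∣ b ^ m := by
  have h : ((gg b α β m : ℕ) : ℤ) ∣ (b : ℤ) ^ m := Int.gcd_dvd_right _ _
  exact_mod_cast h

theorem gg_dvd_ff (b : ℕ) (α β : ℝ) (m : ℕ) : ((gg b α β m : ℕ) : ℤ) ∣ ff b α β m :=
  Int.gcd_dvd_left _ _

theorem primeFactors_of_dvd_pow (b : ℕ) (hb : 2 ≤ b) {d m : ℕ} (h : d ∣ b ^ m) :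
    d.primeFactors ⊆ b.primeFactors := by
  intro p hp
  rw [Nat.mem_primeFactors] at hp ⊢
  obtain ⟨hp1, hp2, _⟩ := hp
  exact ⟨hp1, hp1.dvd_of_dvd_pow (hp2.trans h), by omega⟩

theorem case_rational (b : ℕ) (hb : 2 ≤ b) (α β : ℝ) (hα : Irrational α) (hβ : Irrational β)
    (hα' : IsAlgebraic ℚ α) (hβ' : IsAlgebraic ℚ β) (q : ℚ) (hq : α * β = q) (ε : ℝ) (hε : 0 < ε)
    (T : Set ℕ) (hT : T.Infinite) (hg : ∀ m ∈ T, Real.exp (ε * m) ≤ gg b α β m) : False := by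
  have hb0 : (0 : ℝ) < b := by positivity
  have hb1 : (1 : ℝ) < b := by exact_mod_cast (by omega : 1 < b)
  have hlb : 0 < Real.log b := Real.log_pos hb1
  have hq0 : q ≠ 0 := by
    rintro rfl
    rw [Rat.cast_zero, mul_eq_zero] at hq
    rcases hq with h | h
    · exact hα.ne_zero h
    · exact hβ.ne_zero h
  set u : ℤ := (2 * q).num with hu
  set v : ℕ := (2 * q).den with hv
  have hv0 : (0 : ℝ) < v := by exact_mod_cast (2 * q).den_pos
  have hu0 : u ≠ 0 := by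
    rw [hu, Rat.num_ne_zero]
    exact mul_ne_zero two_ne_zero hq0
  have huv : (v : ℝ) * (2 * (α * β)) = u := by
    rw [hq]
    have h1 : ((2 * q : ℚ) : ℝ) * (v : ℝ) = (u : ℝ) := by
      have := Rat.mul_den_eq_num (2 * q)
      exact_mod_cast this
    push_cast at h1
    linarith
  set C1 : ℝ := v * (|β| + 1) with hC1
  have hC1pos : 0 < C1 := by positivity
  -- large indices
  obtain ⟨M1, hM1⟩ : ∃ M : ℕ, ∀ m ≥ M, C1 ≤ (b : ℝ) ^ m := by
    have := (tendsto_pow_atTop_atTop_of_one_lt hb1).eventually_ge_atTop C1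
    exact Filter.eventually_atTop.mp this
  obtain ⟨M2, hM2⟩ : ∃ M : ℕ, ∀ m ≥ M, C1 ≤ Real.exp (ε / 2 * m) := by
    have h1 : Filter.Tendsto (fun m : ℕ => Real.exp (ε / 2 * m)) Filter.atTop Filter.atTop := by
      apply Real.tendsto_exp_atTop.comp
      exact (tendsto_natCast_atTop_atTop).const_mul_atTop (by positivity)
    exact Filter.eventually_atTop.mp (h1.eventually_ge_atTop C1)
  set T' : Set ℕ := T \ {m | m < max M1 M2} with hT'
  have hT'inf : T'.Infinite := hT.sdiff (Set.finite_lt_nat _)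
  have hT'T : ∀ m ∈ T', m ∈ T := fun m hm => hm.1
  have hT'1 : ∀ m ∈ T', C1 ≤ (b : ℝ) ^ m := fun m hm => hM1 m (by
    have := hm.2
    simp only [Set.mem_ofPred_eq, not_lt] at this
    exact le_trans (le_max_left _ _) this)
  have hT'2 : ∀ m ∈ T', C1 ≤ Real.exp (ε / 2 * m) := fun m hm => hM2 m (by
    have := hm.2
    simp only [Set.mem_ofPred_eq, not_lt] at this
    exact le_trans (le_max_right _ _) this)
  set r : ℕ → ℤ := fun m => u * (b : ℤ) ^ m * Aa b α m - v * ff b α β m with hr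
  set w : ℕ → ℤ := fun m => (b : ℤ) ^ (2 * m) with hw
  set γ : ℝ := -(α * u / 2) with hγ
  have happ1 : ∀ m, |(r m : ℝ) + γ * w m| ≤ C1 := by
    intro m
    have h1 := ff_approx b α β m
    set κ : ℝ := (ff b α β m : ℝ) - 2 * α * β * (b : ℝ) ^ m * Aa b α m
      + α ^ 2 * β * (b : ℝ) ^ (2 * m) with hκ
    have h2 : (r m : ℝ) + γ * w m = -(v * κ) := by
      simp only [hr, hw, hγ, hκ]
      push_cast
      rw [← huv]
      ring
    rw [h2, abs_neg, abs_mul, abs_of_pos hv0]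
    exact mul_le_mul_of_nonneg_left h1 hv0.le
  have hexp : ∀ m : ℕ, Real.exp (Real.log b * m) = (b : ℝ) ^ m := by
    intro m
    rw [mul_comm, Real.exp_nat_mul, Real.exp_log hb0]
  have hexp2 : ∀ m : ℕ, Real.exp (2 * Real.log b * m) = (b : ℝ) ^ (2 * m) := by
    intro m
    have : 2 * Real.log b * m = (2 * m : ℕ) * Real.log b := by push_cast; ring
    rw [this, Real.exp_nat_mul, Real.exp_log hb0]
  have hwabs : ∀ m, |(w m : ℝ)| = (b : ℝ) ^ (2 * m) := by
    intro m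
    simp only [hw]
    push_cast
    exact abs_of_nonneg (by positivity)
  refine ridout γ ?_ ?_ b.primeFactors (fun p hp => Nat.prime_of_mem_primeFactors hp)
    (2 * Real.log b) (ε / 2) (Real.log b) (by positivity) hlb T' hT'inf r w
    (fun m => gg b α β m) (fun m => b ^ (2 * m)) ?_ ?_ ?_ ?_ ?_ ?_ ?_ ?_ ?_ ?_ ?_ ?_
  · -- irrational
    have h1 : γ = α * ((-(u : ℚ) / 2 : ℚ) : ℝ) := by
      rw [hγ]
      push_cast
      ring
    rw [h1]
    apply hα.mul_ratCast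
    have : (u : ℚ) ≠ 0 := by exact_mod_cast hu0
    exact div_ne_zero (neg_ne_zero.mpr this) two_ne_zero
  · -- algebraic
    have h1 : γ = α * ((-(u : ℚ) / 2 : ℚ) : ℝ) := by
      rw [hγ]
      push_cast
      ring
    rw [h1]
    exact hα'.mul (isAlgebraic_algebraMap (A := ℝ) ((-(u : ℚ) / 2 : ℚ)))
  · intro m _
    simp only [hw]
    have : (b : ℤ) ≠ 0 := by positivity
    exact pow_ne_zero _ this
  · intro m hm
    refine (happ1 m).trans ?_
    rw [hwabs]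
    refine (hT'1 m hm).trans (le_of_eq ?_)
    rw [Real.exp_neg, hexp m, two_mul, pow_add]
    field_simp
  · intro m _
    rw [hwabs, hexp2]
  · intro m _
    exact gg_ne_zero b hb α β m
  · intro m _
    positivity
  · intro m _
    exact primeFactors_of_dvd_pow b hb (gg_dvd_pow b α β m)
  · intro m _
    exact primeFactors_of_dvd_pow b hb (dvd_refl _)
  · intro m _
    rw [hexp2]
    have h1 : gg b α β m ≤ b ^ m :=
      Nat.le_of_dvd (by positivity) (gg_dvd_pow b α β m)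
    have h2 : ((gg b α β m : ℕ) : ℝ) ≤ (b : ℝ) ^ m := by exact_mod_cast h1
    refine h2.trans ?_
    exact pow_le_pow_right₀ hb1.le (by omega)
  · intro m _
    rw [hexp2]
    push_cast
    exact le_refl _
  · intro m _
    simp only [hr]
    apply dvd_sub
    · have h1 : ((gg b α β m : ℕ) : ℤ) ∣ (b : ℤ) ^ m := by
        exact_mod_cast gg_dvd_pow b α β m
      exact dvd_mul_of_dvd_left (dvd_mul_of_dvd_right h1 _) _
    · exact dvd_mul_of_dvd_right (gg_dvd_ff b α β m) _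
  · intro m _
    simp only [hw]
    push_cast
    exact dvd_refl _
  · intro m hm
    rw [hwabs]
    have h1 := happ1 m
    have h2 := hT'2 m hm
    have h3 := hg m (hT'T m hm)
    have h4 : Real.exp (ε * m) = Real.exp (ε / 2 * m) * Real.exp (ε / 2 * m) := by
      rw [← Real.exp_add]
      ring_nf
    have h5 : |(r m : ℝ) + γ * w m| * Real.exp (ε / 2 * m) ≤ gg b α β m := by
      calc |(r m : ℝ) + γ * w m| * Real.exp (ε / 2 * m)
          ≤ Real.exp (ε / 2 * m) * Real.exp (ε / 2 * m) :=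
            mul_le_mul_of_nonneg_right (h1.trans h2) (Real.exp_pos _).le
        _ = Real.exp (ε * m) := h4.symm
        _ ≤ _ := h3
    push_cast
    calc |(r m : ℝ) + γ * w m| * (b : ℝ) ^ (2 * m) * Real.exp (ε / 2 * m)
        = (|(r m : ℝ) + γ * w m| * Real.exp (ε / 2 * m)) * (b : ℝ) ^ (2 * m) := by ring
      _ ≤ (gg b α β m : ℝ) * (b : ℝ) ^ (2 * m) :=
          mul_le_mul_of_nonneg_right h5 (by positivity)

end SB
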