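import Pool.Agent.Lib.MP_28dc30_nt.AuxPoly

/-! Size and divisibility of the coefficients of `P` at the generic point. -/

open MvPolynomial

namespace SB

/-- weights of the variables -/
def vanish_w {k n : ℕ} (ρ : Fin k → ℝ) : (Fin k × Fin n) ⊕ Fin k → ℝ
  | Sum.inl _ => 1
  | Sum.inr h => ρ h

/-- the forms of the generic point -/
noncomputable def vanish_psi {k n : ℕ} (N : Matrix (Fin (n + 1)) (Fin (n + 1)) ℝ)
    (u : Fin k → Fin n → Fin (n + 1) → ℝ) (q : Fin k × Fin (n + 1)) :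
    MvPolynomial ((Fin k × Fin n) ⊕ Fin k) ℝ :=
  ∑ l, C (N q.2 l) * gp u (q.1, l)

theorem vanish_psi_eq {k n : ℕ} (N : Matrix (Fin (n + 1)) (Fin (n + 1)) ℝ)
    (u : Fin k → Fin n → Fin (n + 1) → ℝ) (q : Fin k × Fin (n + 1)) :
    vanish_psi N u q = (∑ j, monomial (Finsupp.single (Sum.inl (q.1, j)) 1)
      (∑ l, N q.2 l * u q.1 j l)) + monomial (Finsupp.single (Sum.inr q.1) 1) (N q.2 0) := by
  unfold vanish_psi gp
  simp_rw [mul_add, Finset.mul_sum, Finset.sum_add_distrib]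
  congr 1
  · rw [Finset.sum_comm]
    refine Finset.sum_congr rfl fun j _ => ?_
    rw [map_sum]
    refine Finset.sum_congr rfl fun l _ => ?_
    rw [← mul_assoc, ← C_mul, ← C_mul_X_eq_monomial]
  · rw [Finset.sum_eq_single 0]
    · simp [C_mul_X_eq_monomial]
    · intro l _ hl
      simp [hl]
    · simp

theorem vanish_prod_single {k n : ℕ} (ρ : Fin k → ℝ) (s : (Fin k × Fin n) ⊕ Fin k) :
    ((Finsupp.single s 1).prod fun t e => vanish_w ρ t ^ e) = vanish_w ρ s := by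
  rw [Finsupp.prod_single_index (h := fun t e => vanish_w ρ t ^ e) (pow_zero _), pow_one]

theorem vanish_psi_wn {k n : ℕ} (N : Matrix (Fin (n + 1)) (Fin (n + 1)) ℝ)
    (u : Fin k → Fin n → Fin (n + 1) → ℝ) (B : Fin k → Fin (n + 1) → ℝ) (ρ : Fin k → ℝ)
    (M : ℝ) (hρ : ∀ h, 0 < ρ h) (hρB : ∀ h i, ρ h ≤ B h i) (hM : ∀ i, |N i 0| ≤ M)
    (hu : ∀ h j i, |∑ l, N i l * u h j l| ≤ B h i) (q : Fin k × Fin (n + 1)) :
    wn (fun x : ℝ => |x|) (vanish_w ρ) (vanish_psi N u q) ≤ (n + M) * B q.1 q.2 := by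
  have hw : ∀ s, 0 ≤ vanish_w (n := n) ρ s := by
    rintro (s | s)
    · exact zero_le_one
    · exact (hρ s).le
  rw [vanish_psi_eq]
  refine (wn_add_le isSize_abs_real hw _ _).trans ?_
  have h1 : wn (fun x : ℝ => |x|) (vanish_w (n := n) ρ)
      (∑ j, monomial (Finsupp.single (Sum.inl (q.1, j)) 1)
      (∑ l, N q.2 l * u q.1 j l)) ≤ n * B q.1 q.2 := by
    refine (wn_sum_le isSize_abs_real hw _ _).trans ?_
    have e0 : (n : ℝ) * B q.1 q.2 = ∑ _j : Fin n, B q.1 q.2 := by simp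
    rw [e0]
    refine Finset.sum_le_sum fun j _ => ?_
    rw [wn_monomial isSize_abs_real, vanish_prod_single]
    simpa [vanish_w] using hu q.1 j q.2
  have h2 : wn (fun x : ℝ => |x|) (vanish_w (n := n) ρ)
      (monomial (Finsupp.single (Sum.inr q.1) 1) (N q.2 0)) ≤ M * B q.1 q.2 := by
    rw [wn_monomial isSize_abs_real, vanish_prod_single]
    exact mul_le_mul (hM _) (hρB _ _) (hρ _).le ((abs_nonneg _).trans (hM 0))
  linarith

theorem vanish_map_eq {k n : ℕ} (N N' : Matrix (Fin (n + 1)) (Fin (n + 1)) ℝ)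
    (hN : N' * N = 1) (P : MvPolynomial (Fin k × Fin (n + 1)) ℤ)
    (u : Fin k → Fin n → Fin (n + 1) → ℤ) :
    (aeval (gp u) P).map (Int.castRingHom ℝ) =
      aeval (vanish_psi N (fun h j i => (u h j i : ℝ))) (inN N' P) := by
  unfold inN
  have h1 : ∀ q : Fin k × Fin (n + 1), map (Int.castRingHom ℝ) (gp u q) =
      aeval (vanish_psi N (fun h j i => (u h j i : ℝ)))
        (∑ i, C (N' q.2 i) * X (q.1, i) : MvPolynomial (Fin k × Fin (n + 1)) ℝ) := by
    intro q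
    have h2 : map (Int.castRingHom ℝ) (gp u q) = gp (fun h j i => (u h j i : ℝ)) q := by
      unfold gp
      rw [map_add, map_sum]
      congr 1
      · refine Finset.sum_congr rfl fun j _ => ?_
        simp
      · split_ifs <;> simp
    rw [h2, map_sum]
    simp_rw [map_mul, aeval_X]
    have h3 : ∀ i, (aeval (vanish_psi N (fun h j i => (u h j i : ℝ)))
        (C (N' q.2 i) : MvPolynomial (Fin k × Fin (n + 1)) ℝ) :
        MvPolynomial ((Fin k × Fin n) ⊕ Fin k) ℝ) = C (N' q.2 i) := by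
      intro i
      rw [aeval_C]
      rfl
    simp_rw [h3]
    unfold vanish_psi
    simp_rw [Finset.mul_sum]
    rw [Finset.sum_comm]
    simp_rw [← mul_assoc, ← C_mul, ← Finset.sum_mul, ← map_sum]
    have h4 : ∀ l, ∑ i, N' q.2 i * N i l = (1 : Matrix (Fin (n + 1)) (Fin (n + 1)) ℝ) q.2 l := by
      intro l
      rw [← hN, Matrix.mul_apply]
    simp_rw [h4]
    rw [Finset.sum_eq_single q.2]
    · simp
    · intro l _ hl
      rw [Matrix.one_apply_ne hl.symm]
      simp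
    · simp
  induction P using MvPolynomial.induction_on with
  | C a => simp
  | add p q hp hq => simp only [map_add, hp, hq]
  | mul_X p q hp =>
    simp only [map_mul, hp, aeval_X, map_X]
    rw [h1 q]

/-- archimedean bound -/
theorem arch_bound {k n : ℕ} (d : Fin k → ℕ) (N N' : Matrix (Fin (n + 1)) (Fin (n + 1)) ℝ)
    (hN : N' * N = 1) (P : MvPolynomial (Fin k × Fin (n + 1)) ℤ)
    (u : Fin k → Fin n → Fin (n + 1) → ℤ) (B : Fin k → Fin (n + 1) → ℝ) (ρ : Fin k → ℝ)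
    (M T : ℝ) (hρ : ∀ h, 0 < ρ h) (hρB : ∀ h i, ρ h ≤ B h i) (hM : ∀ i, |N i 0| ≤ M) 
    (hu : ∀ h j i, |∑ l, N i l * (u h j l : ℝ)| ≤ B h i) (hT : 0 ≤ T)
    (hP : ∀ J ∈ (inN N' P).support, MDeg d J ∧ (∏ q, B q.1 q.2 ^ J q) ≤ T)
    (e : ((Fin k × Fin n) ⊕ Fin k) →₀ ℕ) :
    |(((aeval (gp u) P).coeff e : ℤ) : ℝ)| * ∏ h, ρ h ^ (e (Sum.inr h)) ≤
      wn (fun x : ℝ => |x|) (fun _ => 1) (inN N' P) * (n + M) ^ (∑ h, d h) * T := by
  classical
  have hw : ∀ s, 0 ≤ vanish_w (n := n) ρ s := by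
    rintro (s | s)
    · exact zero_le_one
    · exact (hρ s).le
  have hM0 : 0 ≤ M := (abs_nonneg _).trans (hM 0)
  have hB : ∀ h i, 0 < B h i := fun h i => (hρ h).trans_le (hρB h i)
  have e1 : (((aeval (gp u) P).coeff e : ℤ) : ℝ) =
      ((aeval (vanish_psi N (fun h j i => (u h j i : ℝ))) (inN N' P)).coeff e) := by
    rw [← vanish_map_eq N N' hN P u, coeff_map]
    simp
  have e2 : e.prod (fun s m => vanish_w ρ s ^ m) = ∏ h, ρ h ^ (e (Sum.inr h)) := by
    rw [Finsupp.prod_fintype _ _ (fun _ => pow_zero _), Fintype.prod_sum_type]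
    simp [vanish_w]
  rw [e1, ← e2]
  refine (coeff_le_wn isSize_abs_real hw _ e).trans ?_
  rw [aeval_def, eval₂_eq']
  refine (wn_sum_le isSize_abs_real hw _ _).trans ?_
  unfold wn
  rw [Finset.sum_mul, Finset.sum_mul]
  refine Finset.sum_le_sum fun J hJ => ?_
  obtain ⟨hJ1, hJ2⟩ := hP J hJ
  change wn (fun x : ℝ => |x|) (vanish_w ρ) _ ≤ _
  refine (wn_mul_le isSize_abs_real hw _ _).trans ?_
  have e3 : wn (fun x : ℝ => |x|) (vanish_w (n := n) ρ)
      ((algebraMap ℝ (MvPolynomial ((Fin k × Fin n) ⊕ Fin k) ℝ)) (coeff J (inN N' P))) =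
      |coeff J (inN N' P)| := by
    rw [algebraMap_eq, wn_C isSize_abs_real]
  have e4 : J.prod (fun _ m => (1:ℝ) ^ m) = 1 := by simp
  rw [e3, e4, mul_one, mul_assoc]
  refine mul_le_mul_of_nonneg_left ?_ (abs_nonneg _)
  have h1 : |(1:ℝ)| ≤ 1 := by simp
  refine (wn_prod_le isSize_abs_real hw h1 Finset.univ _
    (fun q => ((n + M) * B q.1 q.2) ^ J q) ?_).trans ?_
  · intro q _
    exact wn_pow_le isSize_abs_real hw _
      (vanish_psi_wn N _ B ρ M hρ hρB hM hu q) h1 _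
  · simp_rw [mul_pow]
    rw [Finset.prod_mul_distrib, Finset.prod_pow_eq_pow_sum]
    have e5 : ∑ q, J q = ∑ h, d h := by
      rw [Fintype.sum_prod_type]
      exact Finset.sum_congr rfl fun h _ => hJ1 h
    rw [e5]
    exact mul_le_mul_of_nonneg_left hJ2 (by positivity)

theorem vanish_coeff_scale {σ : Type*} [Fintype σ] (c : σ → ℤ) (F : MvPolynomial σ ℤ)
    (e : σ →₀ ℕ) :
    (aeval (fun s => C (c s) * X s : σ → MvPolynomial σ ℤ) F).coeff e =
      (∏ s, c s ^ e s) * F.coeff e := by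
  classical
  induction F using MvPolynomial.induction_on' with
  | monomial J a =>
    rw [aeval_monomial, Finsupp.prod_fintype _ _ (fun _ => pow_zero _)]
    simp_rw [mul_pow]
    rw [Finset.prod_mul_distrib]
    simp_rw [← C_pow]
    rw [← map_prod, ← mul_assoc, algebraMap_eq, ← C_mul, coeff_C_mul, coeff_monomial]
    have : (∏ s, (X s : MvPolynomial σ ℤ) ^ J s) = monomial J 1 := by
      rw [monomial_eq, Finsupp.prod_fintype _ _ (fun _ => pow_zero _)]
      simp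
    rw [this, coeff_monomial]
    split_ifs with h
    · subst h
      ring
    · simp
  | add p q hp hq =>
    rw [map_add, coeff_add, coeff_add, hp, hq]
    ring

/-- p-adic divisibility -/
theorem padic_bound {k n : ℕ} (p : ℕ) (P : MvPolynomial (Fin k × Fin (n + 1)) ℤ)
    (u : Fin k → Fin n → Fin (n + 1) → ℤ) (a : Fin k → Fin (n + 1) → ℕ)
    (hu : ∀ h j i, ((p : ℤ) ^ a h i) ∣ u h j i) (A : ℕ)
    (hA : ∀ J ∈ P.support, A ≤ ∑ q, a q.1 q.2 * J q)
    (e : ((Fin k × Fin n) ⊕ Fin k) →₀ ℕ) :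
    ((p : ℤ) ^ A) ∣ (p : ℤ) ^ (∑ h, a h 0 * e (Sum.inr h)) * (aeval (gp u) P).coeff e := by
  classical
  -- the scaling of the variables
  set c : (Fin k × Fin n) ⊕ Fin k → ℤ := Sum.elim (fun _ => 1) (fun h => (p : ℤ) ^ a h 0) with hc
  have h1 := vanish_coeff_scale c (aeval (gp u) P) e
  have h2 : ∏ s, c s ^ e s = (p : ℤ) ^ (∑ h, a h 0 * e (Sum.inr h)) := by
    rw [Fintype.prod_sum_type]
    simp [hc, ← pow_mul, Finset.prod_pow_eq_pow_sum]
  rw [← h2, ← h1]
  -- the generic point is divisible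
  have h3 : ∀ q : Fin k × Fin (n + 1), ∃ g : MvPolynomial ((Fin k × Fin n) ⊕ Fin k) ℤ,
      aeval (fun s => C (c s) * X s : _ → MvPolynomial ((Fin k × Fin n) ⊕ Fin k) ℤ) (gp u q) =
        C ((p : ℤ) ^ a q.1 q.2) * g := by
    intro q
    choose u' hu' using hu
    refine ⟨∑ j, C (u' q.1 j q.2) * X (Sum.inl (q.1, j)) +
      if q.2 = 0 then X (Sum.inr q.1) else 0, ?_⟩
    unfold gp
    rw [map_add, map_sum, mul_add, Finset.mul_sum]
    congr 1
    · refine Finset.sum_congr rfl fun j _ => ?_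
      rw [map_mul, aeval_X, aeval_C, algebraMap_eq, hu' q.1 j q.2, C_mul]
      simp only [hc, Sum.elim_inl, C_1, one_mul]
      ring
    · by_cases hq : q.2 = 0
      · simp [hq, hc]
      · simp [hq]
  choose g hg using h3
  have h4 : aeval (fun s => C (c s) * X s : _ → MvPolynomial ((Fin k × Fin n) ⊕ Fin k) ℤ)
      (aeval (gp u) P) = aeval (fun q => C ((p : ℤ) ^ a q.1 q.2) * g q) P := by
    rw [← AlgHom.comp_apply]
    congr 1
    refine MvPolynomial.algHom_ext fun q => ?_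
    rw [AlgHom.comp_apply, aeval_X, aeval_X, hg q]
  rw [h4, aeval_def, eval₂_eq', coeff_sum]
  refine Finset.dvd_sum fun J hJ => ?_
  rw [algebraMap_eq, coeff_C_mul]
  refine Dvd.dvd.mul_left ?_ _
  simp_rw [mul_pow]
  rw [Finset.prod_mul_distrib]
  simp_rw [← C_pow]
  rw [← map_prod, coeff_C_mul]
  refine Dvd.dvd.mul_right ?_ _
  simp_rw [← pow_mul]
  rw [Finset.prod_pow_eq_pow_sum]
  exact pow_dvd_pow _ (hA J hJ)

/-- a nonzero integer is at least the product of its prime power parts -/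
theorem sum_padicVal_le (S : Finset ℕ) (hS : ∀ p ∈ S, p.Prime) (c : ℤ) (hc : c ≠ 0) :
    ∑ p ∈ S, (padicValInt p c : ℝ) * Real.log p ≤ Real.log |(c : ℝ)| := by
  have h1 : ∏ p ∈ S, ((p : ℤ) ^ padicValInt p c) ∣ c := by
    refine Finset.prod_dvd_of_coprime ?_ ?_
    · intro p hp q hq hpq
      refine IsCoprime.pow ?_
      rw [Nat.isCoprime_iff_coprime]
      exact (Nat.coprime_primes (hS p hp) (hS q hq)).2 hpq
    · intro p hp
      have : Fact p.Prime := ⟨hS p hp⟩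
      exact (padicValInt_dvd_iff _ _).2 (Or.inr le_rfl)
  have h2 : ((∏ p ∈ S, ((p : ℤ) ^ padicValInt p c) : ℤ) : ℝ) ≤ |(c : ℝ)| := by
    have h3 : ∏ p ∈ S, ((p : ℤ) ^ padicValInt p c) ∣ |c| := (dvd_abs _ _).2 h1
    have := Int.le_of_dvd (abs_pos.2 hc) h3
    exact_mod_cast this
  have h4 : ∑ p ∈ S, (padicValInt p c : ℝ) * Real.log p =
      Real.log ((∏ p ∈ S, ((p : ℤ) ^ padicValInt p c) : ℤ) : ℝ) := by
    push_cast
    rw [Real.log_prod]
    · refine Finset.sum_congr rfl fun p _ => ?_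
      rw [Real.log_pow]
    · intro p hp
      have := (hS p hp).pos
      positivity
  rw [h4]
  refine Real.log_le_log ?_ h2
  push_cast
  refine Finset.prod_pos fun p hp => ?_
  have := (hS p hp).pos
  positivity

end SB
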