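import Pool.Agent.Lib.MP_28dc30_nt.MainAux
import Pool.Agent.Lib.MP_28dc30_nt.Vanish

/-! The auxiliary polynomial vanishes to high order along the hyperplanes. -/

open MvPolynomial

namespace SB

theorem main_zpart {α : Type*} {k : ℕ} (e : (α ⊕ Fin k) →₀ ℕ) (h : Fin k) :
    zpart e h = e (Sum.inr h) := rfl

theorem main_zsum {α : Type*} {k : ℕ} (d : Fin k → ℕ) (hd : ∀ h, 1 ≤ d h) (τ D : ℝ)
    (hτ1 : τ ≤ 1) (hD : 0 < D) (m : Fin k → ℕ)
    (hm2 : ∀ h, (m h : ℝ) * d h ≤ (1 + τ) * D) (e : (α ⊕ Fin k) →₀ ℕ) :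
    ∑ h, (m h : ℝ) * e (Sum.inr h) ≤ 2 * D * wt d (zpart e) := by
  unfold wt
  rw [Finset.mul_sum]
  refine Finset.sum_le_sum fun h _ => ?_
  have hd' : (0 : ℝ) < d h := by exact_mod_cast hd h
  rw [main_zpart]
  have e1 : (m h : ℝ) * e (Sum.inr h) = (m h * d h) * ((e (Sum.inr h) : ℝ) / d h) := by
    field_simp
  rw [e1]
  have h0 : (0 : ℝ) ≤ (e (Sum.inr h) : ℝ) / d h := by positivity
  have h1 : (m h : ℝ) * d h ≤ 2 * D := (hm2 h).trans (by nlinarith)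
  exact mul_le_mul_of_nonneg_right h1 h0

theorem main_vanish {k n : ℕ} (d : Fin k → ℕ) (hd : ∀ h, 1 ≤ d h)
    (N N' : Matrix (Fin (n + 1)) (Fin (n + 1)) ℝ) (hN : N' * N = 1) (S : Finset ℕ)
    (hS : ∀ p ∈ S, p.Prime) (C ε τ D M C₁ : ℝ) (hC : 0 ≤ C) (hτ : 0 < τ) (hτ1 : τ ≤ 1)
    (hD : 0 < D) (hM : ∀ i, |N i 0| ≤ M) (hM1 : 1 ≤ M) (hC₁ : 1 ≤ C₁)
    (m : Fin k → ℕ) (hm0 : ∀ h, 0 < m h) (hm1 : ∀ h, D ≤ (m h : ℝ) * d h)
    (hm2 : ∀ h, (m h : ℝ) * d h ≤ (1 + τ) * D)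
    (β : Fin k → Fin (n + 1) → ℝ) (β₀ : Fin (n + 1) → ℝ) (hβ : ∀ h i, |β h i - β₀ i| ≤ τ)
    (hβ₀ : ∀ i, |β₀ i| ≤ C) (hβC : ∀ h i, |β h i| ≤ C)
    (a : Fin k → ℕ → Fin (n + 1) → ℕ) (lam₀ : ℕ → Fin (n + 1) → ℝ)
    (hlam : ∀ p ∈ S, ∀ h i, |(a h p i : ℝ) * Real.log p / m h - lam₀ p i| ≤ τ)
    (hlam₀ : ∀ p ∈ S, ∀ i, |lam₀ p i| ≤ C)
    (hlamC : ∀ p ∈ S, ∀ h i, |(a h p i : ℝ) * Real.log p / m h| ≤ C)
    (hsum : ∑ i, β₀ i + ε ≤ ∑ p ∈ S, ∑ i, lam₀ p i)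
    (u : Fin k → Fin n → Fin (n + 1) → ℤ)
    (hu : ∀ h j i, |∑ l, N i l * (u h j l : ℝ)| ≤ Real.exp (β h i * m h))
    (hdiv : ∀ p ∈ S, ∀ h j i, ((p : ℤ) ^ a h p i) ∣ u h j i)
    (P : MvPolynomial (Fin k × Fin (n + 1)) ℤ) (hP0 : P ≠ 0)
    (hP1 : ∀ J ∈ P.support, MDeg d J ∧ Bal d τ J)
    (hP3 : ∀ J ∈ (inN N' P).support, MDeg d J ∧ Bal d τ J)
    (hP4 : wn (fun x : ℝ => |x|) (fun _ => 1) (inN N' P) ≤ C₁ ^ (∑ h, d h))
    (hfin : (∑ h, d h : ℕ) * Real.log (C₁ * (n + M)) +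
      (S.card + 1) * ((2 + C + ((n + 1 : ℕ) : ℝ) * C) + 2 * C) * τ * D * k <
        D * (k / ((n + 1 : ℕ) : ℝ)) * ε)
    (e : ((Fin k × Fin n) ⊕ Fin k) →₀ ℕ) (he : wt d (zpart e) < τ * k) :
    (aeval (gp u) P).coeff e = 0 := by
  classical
  by_contra hc
  set c : ℤ := (aeval (gp u) P).coeff e with hcdef
  obtain ⟨κ, hκ⟩ : ∃ κ : ℝ, κ = (2 + C + ((n + 1 : ℕ) : ℝ) * C) * τ * D * k := ⟨_, rfl⟩
  obtain ⟨Dk, hDk⟩ : ∃ Dk : ℝ, Dk = D * (k / ((n + 1 : ℕ) : ℝ)) := ⟨_, rfl⟩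
  obtain ⟨s, hs⟩ : ∃ s : ℝ, s = ∑ h, (m h : ℝ) * e (Sum.inr h) := ⟨_, rfl⟩
  have hs1 : s ≤ 2 * τ * D * k := by
    rw [hs]
    refine (main_zsum d hd τ D hτ1 hD m hm2 e).trans ?_
    nlinarith [mul_pos hD hτ]
  have hs0 : 0 ≤ s := by rw [hs]; positivity
  -- archimedean part
  have harch : Real.log |(c : ℝ)| ≤
      (∑ h, d h : ℕ) * Real.log (C₁ * (n + M)) + (Dk * ∑ i, β₀ i + κ) + C * s := by
    have h1 := arch_bound d N N' hN P u (fun h i => Real.exp (β h i * m h))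
      (fun h => Real.exp (-(C * m h))) M (Real.exp (Dk * ∑ i, β₀ i + κ))
      (fun h => Real.exp_pos _) (fun h i => by
        apply Real.exp_le_exp.2
        have h2 := (abs_le.1 (hβC h i)).1
        have h3 : (0 : ℝ) ≤ m h := Nat.cast_nonneg _
        nlinarith) hM hu (Real.exp_pos _).le (fun J hJ => by
        refine ⟨(hP3 J hJ).1, ?_⟩
        have h2 := main_est (by omega) d hd τ D C hτ hτ1 hD hC m hm1 hm2 β β₀ hβ hβ₀ J
          (hP3 J hJ).1 (hP3 J hJ).2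
        rw [← hκ, ← hDk] at h2
        have h3 : ∏ q : Fin k × Fin (n + 1), Real.exp (β q.1 q.2 * m q.1) ^ J q =
            Real.exp (∑ h, ∑ i, β h i * m h * J (h, i)) := by
          rw [← Fintype.sum_prod_type' (f := fun h i => β h i * m h * (J (h, i) : ℝ)), Real.exp_sum]
          refine Finset.prod_congr rfl fun q _ => ?_
          rw [← Real.exp_nat_mul]
          congr 1
          ring
        rw [h3]
        apply Real.exp_le_exp.2
        have := (abs_le.1 h2).2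
        linarith) e
    rw [← hcdef] at h1
    have hc' : (0 : ℝ) < |(c : ℝ)| := abs_pos.2 (by exact_mod_cast hc)
    have h4 : ∏ h, Real.exp (-(C * m h)) ^ (e (Sum.inr h)) = Real.exp (-(C * s)) := by
      rw [hs, Finset.mul_sum, ← Finset.sum_neg_distrib, Real.exp_sum]
      refine Finset.prod_congr rfl fun h _ => ?_
      rw [← Real.exp_nat_mul]
      congr 1
      ring
    rw [h4] at h1
    have hnM : (1 : ℝ) ≤ n + M := by
      have : (0 : ℝ) ≤ n := Nat.cast_nonneg _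
      linarith
    have h5 : |(c : ℝ)| * Real.exp (-(C * s)) ≤
        (C₁ * (n + M)) ^ (∑ h, d h) * Real.exp (Dk * ∑ i, β₀ i + κ) := by
      refine h1.trans ?_
      rw [mul_pow]
      gcongr
    have h6 := Real.log_le_log (mul_pos hc' (Real.exp_pos _)) h5
    rw [Real.log_mul hc'.ne' (Real.exp_pos _).ne', Real.log_exp,
      Real.log_mul (pow_pos (by nlinarith) _).ne' (Real.exp_pos _).ne', Real.log_exp,
      Real.log_pow] at h6
    linarith
  -- p-adic part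
  have hpadic : ∀ p ∈ S, Dk * ∑ i, lam₀ p i - κ - C * s ≤
      (padicValInt p c : ℝ) * Real.log p := by
    intro p hp
    have hpp := hS p hp
    have : Fact p.Prime := ⟨hpp⟩
    have hlog : 0 < Real.log p := Real.log_pos (by exact_mod_cast hpp.one_lt)
    have hne : P.support.Nonempty := by
      rw [Finset.nonempty_iff_ne_empty]
      intro h
      exact hP0 (MvPolynomial.support_eq_empty.1 h)
    obtain ⟨J, hJ, hmin⟩ := Finset.exists_min_image P.support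
      (fun J => ∑ q : Fin k × Fin (n + 1), a q.1 p q.2 * J q) hne
    have h1 := padic_bound p P u (fun h i => a h p i) (fun h j i => hdiv p hp h j i)
      (∑ q : Fin k × Fin (n + 1), a q.1 p q.2 * J q) (fun J' hJ' => hmin J' hJ') e
    rw [← hcdef] at h1
    have h2 : ∑ q : Fin k × Fin (n + 1), a q.1 p q.2 * J q ≤
        ∑ h, a h p 0 * e (Sum.inr h) + padicValInt p c := by
      have h3 : (p : ℤ) ^ (∑ h, a h p 0 * e (Sum.inr h)) ≠ 0 :=
        pow_ne_zero _ (by exact_mod_cast hpp.ne_zero)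
      have h4 := (padicValInt_dvd_iff _ _).1 h1
      rcases h4 with h4 | h4
      · exact absurd h4 (mul_ne_zero h3 hc)
      · rw [padicValInt.mul h3 hc] at h4
        have h5 : padicValInt p ((p : ℤ) ^ (∑ h, a h p 0 * e (Sum.inr h))) =
            ∑ h, a h p 0 * e (Sum.inr h) := by
          rw [padicValInt, Int.natAbs_pow, Int.natAbs_natCast]
          exact padicValNat.prime_pow _
        rw [h5] at h4
        exact h4
    have h3 : (∑ q : Fin k × Fin (n + 1), (a q.1 p q.2 : ℝ) * J q) ≤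
        ∑ h, (a h p 0 : ℝ) * e (Sum.inr h) + padicValInt p c := by exact_mod_cast h2
    have h4 := main_est (by omega) d hd τ D C hτ hτ1 hD hC m hm1 hm2
      (fun h i => (a h p i : ℝ) * Real.log p / m h) (lam₀ p) (hlam p hp) (hlam₀ p hp) J
      (hP1 J hJ).1 (hP1 J hJ).2
    rw [← hκ, ← hDk] at h4
    have h5 : ∑ h, ∑ i, (a h p i : ℝ) * Real.log p / m h * m h * J (h, i) =
        (∑ q : Fin k × Fin (n + 1), (a q.1 p q.2 : ℝ) * J q) * Real.log p := by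
      rw [Fintype.sum_prod_type, Finset.sum_mul]
      refine Finset.sum_congr rfl fun h _ => ?_
      rw [Finset.sum_mul]
      refine Finset.sum_congr rfl fun i _ => ?_
      have : (m h : ℝ) ≠ 0 := by exact_mod_cast (hm0 h).ne'
      field_simp
    rw [h5] at h4
    have h6 : (∑ h, (a h p 0 : ℝ) * e (Sum.inr h)) * Real.log p ≤ C * s := by
      rw [hs, Finset.mul_sum, Finset.sum_mul]
      refine Finset.sum_le_sum fun h _ => ?_
      have hmh : (0 : ℝ) < m h := by exact_mod_cast (hm0 h)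
      have h7 := (abs_le.1 (hlamC p hp h 0)).2
      rw [div_le_iff₀ hmh] at h7
      have h8 : (0 : ℝ) ≤ e (Sum.inr h) := Nat.cast_nonneg _
      nlinarith
    have h7 := (abs_le.1 h4).1
    have h8 := mul_le_mul_of_nonneg_right h3 hlog.le
    rw [add_mul] at h8
    linarith
  have htot := sum_padicVal_le S hS c hc
  have h1 : ∑ p ∈ S, (Dk * ∑ i, lam₀ p i - κ - C * s) ≤ Real.log |(c : ℝ)| :=
    (Finset.sum_le_sum hpadic).trans htot
  have h2 : ∑ p ∈ S, (Dk * ∑ i, lam₀ p i - κ - C * s) =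
      Dk * ∑ p ∈ S, ∑ i, lam₀ p i - S.card * (κ + C * s) := by
    rw [Finset.sum_sub_distrib, Finset.sum_sub_distrib, ← Finset.mul_sum]
    simp only [Finset.sum_const, nsmul_eq_mul]
    ring
  rw [h2] at h1
  have hDk0 : 0 ≤ Dk := by rw [hDk]; positivity
  have h3 := mul_le_mul_of_nonneg_left hsum hDk0
  rw [← hDk] at hfin
  have h4 : C * s ≤ 2 * C * τ * D * k := by
    calc C * s ≤ C * (2 * τ * D * k) := by gcongr
      _ = 2 * C * τ * D * k := by ring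
  have h5 : (0 : ℝ) ≤ S.card + 1 := by positivity
  have h6 : (S.card + 1 : ℝ) * (κ + C * s) ≤
      (S.card + 1) * ((2 + C + ((n + 1 : ℕ) : ℝ) * C) + 2 * C) * τ * D * k := by
    calc (S.card + 1 : ℝ) * (κ + C * s) ≤ (S.card + 1 : ℝ) * (κ + 2 * C * τ * D * k) := by gcongr
      _ = _ := by rw [hκ]; ring
  nlinarith

end SB
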