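import Pool.Agent.Lib.MP_28dc30_nt.Defs

/-! Restriction to two variables in each block. -/

open MvPolynomial

namespace SB

/-- the exponents of the variables of index at least two -/
noncomputable def restrict_rest {k n : ℕ} (J : Fin k × Fin (n + 2) →₀ ℕ) : Fin k × Fin n →₀ ℕ :=
  Finsupp.equivFunOnFinite.symm (fun q => J (q.1, q.2.succ.succ))

/-- the exponents of the variables of index zero -/
noncomputable def restrict_zero {k n : ℕ} (J : Fin k × Fin (n + 2) →₀ ℕ) : Fin k →₀ ℕ :=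
  Finsupp.equivFunOnFinite.symm (fun h => J (h, 0))

theorem restrict_rest_apply {k n : ℕ} (J : Fin k × Fin (n + 2) →₀ ℕ) (h : Fin k) (i : Fin n) :
    restrict_rest J (h, i) = J (h, i.succ.succ) := rfl

theorem restrict_zero_apply {k n : ℕ} (J : Fin k × Fin (n + 2) →₀ ℕ) (h : Fin k) :
    restrict_zero J h = J (h, 0) := rfl

theorem restrict_deg {k n : ℕ} {d : Fin k → ℕ} {J : Fin k × Fin (n + 2) →₀ ℕ} (hJ : MDeg d J)
    (h : Fin k) : J (h, 0) + (J (h, 1) + ∑ i : Fin n, J (h, i.succ.succ)) = d h := by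
  have := hJ h
  rw [Fin.sum_univ_succ, Fin.sum_univ_succ] at this
  exact this

theorem restrict_inj {k n : ℕ} {d : Fin k → ℕ} {J J' : Fin k × Fin (n + 2) →₀ ℕ}
    (hJ : MDeg d J) (hJ' : MDeg d J') (h0 : restrict_zero J = restrict_zero J')
    (h1 : restrict_rest J = restrict_rest J') : J = J' := by
  have e0 : ∀ h, J (h, 0) = J' (h, 0) := fun h => by
    rw [← restrict_zero_apply, h0, restrict_zero_apply]
  have e2 : ∀ h (i : Fin n), J (h, i.succ.succ) = J' (h, i.succ.succ) := fun h i => by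
    rw [← restrict_rest_apply, h1, restrict_rest_apply]
  have e1 : ∀ h, J (h, 1) = J' (h, 1) := fun h => by
    have a := restrict_deg hJ h
    have b := restrict_deg hJ' h
    simp only [e0, e2] at a
    omega
  ext ⟨h, i⟩
  refine Fin.cases ?_ (fun i => Fin.cases ?_ (fun i => ?_) i) i
  · exact e0 h
  · exact e1 h
  · exact e2 h i

theorem restrict_wt_mono {k : ℕ} (d : Fin k → ℕ) {a b : Fin k →₀ ℕ} (hab : a ≤ b) :
    wt d a ≤ wt d b := by
  unfold wt
  apply Finset.sum_le_sum
  intro h _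
  apply div_le_div_of_nonneg_right _ (Nat.cast_nonneg _)
  exact_mod_cast hab h

/-- the ideal of polynomials without monomials of small weight -/
def restrict_ideal {k : ℕ} (d : Fin k → ℕ) (σ : ℝ) : Ideal (MvPolynomial (Fin k) ℚ) where
  carrier := {p | ∀ i, wt d i < σ → p.coeff i = 0}
  add_mem' := by
    intro p q hp hq i hi
    rw [coeff_add, hp i hi, hq i hi, add_zero]
  zero_mem' := fun i _ => coeff_zero i
  smul_mem' := by
    intro c p hp i hi
    rw [smul_eq_mul, coeff_mul]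
    apply Finset.sum_eq_zero
    rintro ⟨a, b⟩ hab
    rw [Finset.HasAntidiagonal.mem_antidiagonal] at hab
    have hb : b ≤ i := by rw [← hab]; exact le_add_self
    simp only
    rw [hp b (lt_of_le_of_lt (restrict_wt_mono d hb) hi), mul_zero]

theorem restrict_mem {k : ℕ} {d : Fin k → ℕ} {σ : ℝ} {p : MvPolynomial (Fin k) ℚ} :
    p ∈ restrict_ideal d σ ↔ ∀ i, wt d i < σ → p.coeff i = 0 := Iff.rfl

theorem restrict_monomial_mem {k : ℕ} {d : Fin k → ℕ} {σ : ℝ} {m : Fin k →₀ ℕ}
    (hm : ¬ wt d m < σ) (c : ℚ) : monomial m c ∈ restrict_ideal d σ := by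
  rw [restrict_mem]
  intro i hi
  rw [coeff_monomial, if_neg]
  rintro rfl
  exact hm hi

/-- the generic point of the orthogonal of `V` in the chart where `V 0 ≠ 0` -/
noncomputable def restrict_pt {k n : ℕ} (V : Fin k → Fin (n + 2) → ℤ)
    (q : Fin k × Fin (n + 2)) : MvPolynomial (Fin k × Fin n) (MvPolynomial (Fin k) ℚ) :=
  Fin.cases (C (C (V q.1 0 : ℚ) * X q.1 - C (V q.1 1 : ℚ)) -
      ∑ i : Fin n, C (C (V q.1 i.succ.succ : ℚ)) * X (q.1, i))
    (fun j => Fin.cases (C (C (V q.1 0 : ℚ))) (fun i => C (C (V q.1 0 : ℚ)) * X (q.1, i)) j) q.2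

theorem restrict_factor {k n : ℕ} (P : MvPolynomial (Fin k × Fin (n + 2)) ℤ)
    (u : Fin k → Fin (n + 1) → Fin (n + 2) → ℤ) (V : Fin k → Fin (n + 2) → ℤ)
    (hspan : ∀ h, ∀ w : Fin (n + 2) → ℚ, ∑ i, (V h i : ℚ) * w i = 0 →
      w ∈ Submodule.span ℚ (Set.range fun j : Fin (n + 1) => fun i => (u h j i : ℚ))) :
    ∃ Ψ : MvPolynomial ((Fin k × Fin (n + 1)) ⊕ Fin k) ℤ →ₐ[ℤ]
        MvPolynomial (Fin k × Fin n) (MvPolynomial (Fin k) ℚ),
      (∀ h, Ψ (X (Sum.inr h)) = C (C (V h 0 : ℚ) * X h)) ∧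
      Ψ (aeval (gp u) P) = aeval (restrict_pt V) P := by
  -- the base point
  have h1 : ∀ h, ∃ c : Fin (n + 1) → ℚ, ∀ i, ∑ j, c j * (u h j i : ℚ) =
      Fin.cases (-(V h 1 : ℚ)) (fun l => Fin.cases (V h 0 : ℚ) (fun _ => 0) l) i := by
    intro h
    have := hspan h (fun i => Fin.cases (-(V h 1 : ℚ))
      (fun l => Fin.cases (V h 0 : ℚ) (fun _ => 0) l) i) (by
        rw [Fin.sum_univ_succ, Fin.sum_univ_succ]
        simp only [Fin.cases_zero, Fin.cases_succ, mul_zero, Finset.sum_const_zero]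
        rw [show (Fin.succ 0 : Fin (n + 2)) = 1 from rfl]
        ring)
    rw [Submodule.mem_span_range_iff_exists_fun] at this
    obtain ⟨c, hc⟩ := this
    refine ⟨c, fun i => ?_⟩
    have := congrFun hc i
    rw [← this, Finset.sum_apply]
    simp
  have h2 : ∀ (h : Fin k) (m : Fin n), ∃ c : Fin (n + 1) → ℚ, ∀ i, ∑ j, c j * (u h j i : ℚ) =
      Fin.cases (-(V h m.succ.succ : ℚ))
        (fun l => Fin.cases (0 : ℚ) (fun l => if l = m then (V h 0 : ℚ) else 0) l) i := by
    intro h m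
    have := hspan h (fun i => Fin.cases (-(V h m.succ.succ : ℚ))
        (fun l => Fin.cases (0 : ℚ) (fun l => if l = m then (V h 0 : ℚ) else 0) l) i) (by
        rw [Fin.sum_univ_succ, Fin.sum_univ_succ]
        simp only [Fin.cases_zero, Fin.cases_succ, mul_zero, mul_ite, Finset.sum_ite_eq',
          Finset.mem_univ, if_true]
        ring)
    rw [Submodule.mem_span_range_iff_exists_fun] at this
    obtain ⟨c, hc⟩ := this
    refine ⟨c, fun i => ?_⟩
    have := congrFun hc i
    rw [← this, Finset.sum_apply]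
    simp
  choose c hc using h1
  choose c' hc' using h2
  refine ⟨aeval (Sum.elim (fun q => C (C (c q.1 q.2)) + ∑ m, C (C (c' q.1 m q.2)) * X (q.1, m))
    (fun h => C (C (V h 0 : ℚ) * X h))), ?_, ?_⟩
  · intro h
    rw [aeval_X]; rfl
  · rw [← AlgHom.comp_apply]
    refine DFunLike.congr_fun ?_ P
    apply algHom_ext
    rintro ⟨h, i⟩
    rw [AlgHom.comp_apply, aeval_X, aeval_X]
    have key : (aeval (Sum.elim (fun q : Fin k × Fin (n + 1) => C (C (c q.1 q.2)) +
        ∑ m, C (C (c' q.1 m q.2)) * X (q.1, m)) (fun h => C (C (V h 0 : ℚ) * X h))))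
        (gp u (h, i)) = C (C (∑ j, c h j * (u h j i : ℚ))) +
        ∑ m, C (C (∑ j, c' h m j * (u h j i : ℚ))) * X (h, m) +
        if i = 0 then C (C (V h 0 : ℚ) * X h) else 0 := by
      unfold gp
      rw [map_add, map_sum]
      refine congrArg₂ (· + ·) ?_ ?_
      · simp only [map_mul, aeval_X, Sum.elim_inl, algHom_C, map_sum, Finset.sum_mul]
        rw [Finset.sum_comm, ← Finset.sum_add_distrib]
        apply Finset.sum_congr rfl
        intro j _
        simp only [eq_intCast, map_intCast]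
        rw [mul_add, Finset.mul_sum]
        refine congrArg₂ (· + ·) ?_ ?_
        · ring
        · apply Finset.sum_congr rfl
          intro m _
          ring
      · split_ifs <;> simp
    rw [key, hc h i]
    simp only [hc' h _ i]
    unfold restrict_pt
    refine Fin.cases ?_ (fun i => Fin.cases ?_ (fun i => ?_) i) i
    · simp only [Fin.cases_zero, if_true, map_neg, map_sub]
      have e : (∑ x : Fin n, -C (C (V h x.succ.succ : ℚ)) * X (h, x) :
          MvPolynomial (Fin k × Fin n) (MvPolynomial (Fin k) ℚ)) +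
          ∑ x : Fin n, C (C (V h x.succ.succ : ℚ)) * X (h, x) = 0 := by
        rw [← Finset.sum_add_distrib]
        apply Finset.sum_eq_zero
        intro x _
        ring
      linear_combination e
    · simp only [Fin.cases_zero, Fin.cases_succ, map_zero, zero_mul, Finset.sum_const_zero]
      rw [if_neg (Fin.succ_ne_zero _)]
      ring
    · simp only [Fin.cases_succ, map_zero]
      rw [if_neg (Fin.succ_ne_zero _), Finset.sum_eq_single i]
      · rw [if_pos rfl]; ring
      · intro m _ hm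
        rw [if_neg (Ne.symm hm), map_zero, map_zero, zero_mul]
      · intro h; exact absurd (Finset.mem_univ _) h

/-- monomials are mapped to the ideal -/
theorem restrict_image_mem {k n : ℕ} {d : Fin k → ℕ} {σ : ℝ} (V : Fin k → Fin (n + 2) → ℤ)
    (Ψ : MvPolynomial ((Fin k × Fin (n + 1)) ⊕ Fin k) ℤ →ₐ[ℤ]
        MvPolynomial (Fin k × Fin n) (MvPolynomial (Fin k) ℚ))
    (hΨ : ∀ h, Ψ (X (Sum.inr h)) = C (C (V h 0 : ℚ) * X h))
    (p : MvPolynomial ((Fin k × Fin (n + 1)) ⊕ Fin k) ℤ)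
    (hp : ∀ e, wt d (zpart e) < σ → p.coeff e = 0) (m : Fin k × Fin n →₀ ℕ) :
    (Ψ p).coeff m ∈ restrict_ideal d σ := by
  have : Ψ p ∈ Ideal.map C (restrict_ideal d σ) := by
    rw [p.as_sum, map_sum]
    apply Ideal.sum_mem
    intro e he
    have he' : ¬ wt d (zpart e) < σ := fun h => (mem_support_iff.1 he) (hp e h)
    rw [monomial_eq, map_mul, Finsupp.prod_fintype _ _ (fun _ => pow_zero _),
      Fintype.prod_sum_type, map_mul, map_prod, map_prod]
    apply Ideal.mul_mem_left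
    apply Ideal.mul_mem_left
    have : (∏ h : Fin k, Ψ (X (Sum.inr h) ^ e (Sum.inr h))) =
        C ((∏ h : Fin k, C ((V h 0 : ℚ) ^ e (Sum.inr h))) * monomial (zpart e) 1) := by
      rw [monomial_eq, Finsupp.prod_fintype _ _ (fun _ => pow_zero _), C_1, one_mul,
        ← Finset.prod_mul_distrib, map_prod]
      apply Finset.prod_congr rfl
      intro h _
      rw [map_pow, hΨ, ← map_pow, mul_pow, map_pow]
      rfl
    rw [this]
    apply Ideal.mem_map_of_mem
    apply Ideal.mul_mem_left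
    exact restrict_monomial_mem he' 1
  exact mem_map_C_iff.1 this m

/-- the part of the image of a monomial which has no monomial of index at least two -/
noncomputable def restrict_unit {k n : ℕ} (V : Fin k → Fin (n + 2) → ℤ)
    (J : Fin k × Fin (n + 2) →₀ ℕ) : MvPolynomial (Fin k × Fin n) (MvPolynomial (Fin k) ℚ) :=
  ∏ h, (restrict_pt V (h, 0) ^ J (h, 0) * (C (C (V h 0 : ℚ)) ^ J (h, 1) *
    ∏ i : Fin n, C (C (V h 0 : ℚ)) ^ J (h, i.succ.succ)))

theorem restrict_prod {k n : ℕ} (V : Fin k → Fin (n + 2) → ℤ) (J : Fin k × Fin (n + 2) →₀ ℕ) :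
    ∏ q, restrict_pt V q ^ J q = monomial (restrict_rest J) 1 * restrict_unit V J := by
  rw [Fintype.prod_prod_type, monomial_eq, Finsupp.prod_fintype _ _ (fun _ => pow_zero _), C_1,
    one_mul, Fintype.prod_prod_type, restrict_unit, ← Finset.prod_mul_distrib]
  apply Finset.prod_congr rfl
  intro h _
  rw [Fin.prod_univ_succ, Fin.prod_univ_succ]
  have e1 : restrict_pt V (h, Fin.succ 0) = C (C (V h 0 : ℚ)) := rfl
  have e2 : ∀ i : Fin n, restrict_pt V (h, i.succ.succ) = C (C (V h 0 : ℚ)) * X (h, i) :=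
    fun i => rfl
  simp only [e1, e2, mul_pow, Finset.prod_mul_distrib]
  simp only [restrict_rest_apply]
  rw [show (Fin.succ 0 : Fin (n + 2)) = 1 from rfl]
  ring

theorem restrict_unit_coeff {k n : ℕ} {d : Fin k → ℕ} (V : Fin k → Fin (n + 2) → ℤ)
    {J : Fin k × Fin (n + 2) →₀ ℕ} (hJ : MDeg d J) (hV0 : ∀ h, V h 0 ≠ 0) :
    (restrict_unit V J).coeff 0 = C (∏ h, (V h 0 : ℚ) ^ d h) *
      ∏ h, (C (-(V h 1 : ℚ) / (V h 0 : ℚ)) + X h) ^ J (h, 0) := by
  have e0 : ∀ p : MvPolynomial (Fin k × Fin n) (MvPolynomial (Fin k) ℚ),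
      p.coeff 0 = constantCoeff p := fun p => rfl
  rw [e0, restrict_unit, map_prod, map_prod, ← Finset.prod_mul_distrib]
  apply Finset.prod_congr rfl
  intro h _
  have e1 : constantCoeff (restrict_pt V (h, 0)) = C (V h 0 : ℚ) * X h - C (V h 1 : ℚ) := by
    unfold restrict_pt
    simp only [Fin.cases_zero, map_sub, map_sum, map_mul, constantCoeff_X, mul_zero,
      Finset.sum_const_zero, sub_zero, constantCoeff_C]
  rw [map_mul, map_mul, map_pow, map_pow, map_prod, e1]
  simp only [map_pow, constantCoeff_C]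
  rw [Finset.prod_pow_eq_pow_sum, ← pow_add]
  have e2 : (C (V h 0 : ℚ) * X h - C (V h 1 : ℚ) : MvPolynomial (Fin k) ℚ) =
      C (V h 0 : ℚ) * (C (-(V h 1 : ℚ) / (V h 0 : ℚ)) + X h) := by
    have h0 : (V h 0 : ℚ) ≠ 0 := by exact_mod_cast hV0 h
    rw [mul_add, ← C_mul, mul_div_cancel₀ _ h0, C_neg]
    ring
  rw [e2, mul_pow, ← restrict_deg hJ h, pow_add (C (V h 0 : ℚ)) (J (h, 0))]
  ring

theorem exists_restrict {k n : ℕ} (d : Fin k → ℕ) (_hd : ∀ h, 1 ≤ d h)
    (P : MvPolynomial (Fin k × Fin (n + 2)) ℤ) (hP0 : P ≠ 0)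
    (hPd : ∀ J ∈ P.support, MDeg d J)
    (u : Fin k → Fin (n + 1) → Fin (n + 2) → ℤ) (V : Fin k → Fin (n + 2) → ℤ)
    (hV0 : ∀ h, V h 0 ≠ 0)
    (hspan : ∀ h, ∀ w : Fin (n + 2) → ℚ, ∑ i, (V h i : ℚ) * w i = 0 →
      w ∈ Submodule.span ℚ (Set.range fun j : Fin (n + 1) => fun i => (u h j i : ℚ)))
    (σ : ℝ)
    (hvan : ∀ e, wt d (zpart e) < σ → (aeval (gp u) P).coeff e = 0) :
    ∃ Q : MvPolynomial (Fin k) ℤ, Q ≠ 0 ∧ (∀ h, Q.degreeOf h ≤ d h) ∧
      (∀ i, Q.coeff i = 0 ∨ ∃ J, Q.coeff i = P.coeff J) ∧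
      ∀ i, wt d i < σ →
        (tr (fun h => -(V h 1 : ℚ) / (V h 0 : ℚ)) (Q.map (Int.castRingHom ℚ))).coeff i = 0 := by
  classical
  obtain ⟨Ψ, hΨ, hΨP⟩ := restrict_factor P u V hspan
  have hne : P.support.Nonempty := by
    rw [Finset.nonempty_iff_ne_empty, Ne, support_eq_empty]; exact hP0
  obtain ⟨J₀, hJ₀, hmin⟩ := P.support.exists_min_image (fun J => (restrict_rest J).degree) hne
  set R := restrict_rest J₀ with hR
  set S := P.support.filter (fun J => restrict_rest J = R) with hS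
  have hSd : ∀ J ∈ S, MDeg d J := fun J hJ => hPd J (Finset.mem_filter.1 hJ).1
  have hinj : ∀ J ∈ S, ∀ J' ∈ S, restrict_zero J = restrict_zero J' → J = J' :=
    fun J hJ J' hJ' h => restrict_inj (hSd J hJ) (hSd J' hJ') h
      (by rw [(Finset.mem_filter.1 hJ).2, (Finset.mem_filter.1 hJ').2])
  set Q : MvPolynomial (Fin k) ℤ := ∑ J ∈ S, monomial (restrict_zero J) (P.coeff J) with hQ
  have hQc : ∀ i, Q.coeff i = ∑ J ∈ S, if restrict_zero J = i then P.coeff J else 0 := by
    intro i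
    rw [hQ, coeff_sum]
    simp only [coeff_monomial]
  have hQJ : ∀ J ∈ S, Q.coeff (restrict_zero J) = P.coeff J := by
    intro J hJ
    rw [hQc, Finset.sum_eq_single J]
    · rw [if_pos rfl]
    · intro J' hJ' hne
      rw [if_neg]
      exact fun h => hne (hinj J' hJ' J hJ h)
    · exact fun h => absurd hJ h
  have hQ0 : ∀ i, (∀ J ∈ S, restrict_zero J ≠ i) → Q.coeff i = 0 := by
    intro i hi
    rw [hQc]
    apply Finset.sum_eq_zero
    intro J hJ
    rw [if_neg (hi J hJ)]
  have hJ₀S : J₀ ∈ S := Finset.mem_filter.2 ⟨hJ₀, rfl⟩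
  refine ⟨Q, ?_, ?_, ?_, ?_⟩
  · intro h
    have := hQJ J₀ hJ₀S
    rw [h, coeff_zero] at this
    exact (mem_support_iff.1 hJ₀) this.symm
  · intro h
    rw [degreeOf_le_iff]
    intro m hm
    by_contra hcon
    push Not at hcon
    apply mem_support_iff.1 hm
    apply hQ0
    intro J hJ hJm
    rw [← hJm, restrict_zero_apply] at hcon
    have := restrict_deg (hSd J hJ) h
    omega
  · intro i
    by_cases h : ∃ J ∈ S, restrict_zero J = i
    · obtain ⟨J, hJ, rfl⟩ := h
      exact Or.inr ⟨J, hQJ J hJ⟩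
    · push Not at h
      exact Or.inl (hQ0 i h)
  · -- the vanishing
    have hmem := restrict_image_mem V Ψ hΨ _ hvan R
    rw [hΨP, aeval_def, eval₂_eq', coeff_sum] at hmem
    have hterm : ∀ J ∈ P.support, coeff R (algebraMap ℤ _ (P.coeff J) *
        ∏ q, restrict_pt V q ^ J q) =
        if restrict_rest J = R then C (∏ h, (V h 0 : ℚ) ^ d h) * (C ((P.coeff J : ℤ) : ℚ) *
          ∏ h, (C (-(V h 1 : ℚ) / (V h 0 : ℚ)) + X h) ^ J (h, 0)) else 0 := by
      intro J hJ
      have e1 : (algebraMap ℤ (MvPolynomial (Fin k × Fin n) (MvPolynomial (Fin k) ℚ)))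
          (P.coeff J) = C (C ((P.coeff J : ℤ) : ℚ)) := by
        simp
      rw [e1, restrict_prod, coeff_C_mul, coeff_monomial_mul']
      by_cases hle : restrict_rest J ≤ R
      · have heq : restrict_rest J = R := by
          have h1 := hmin J hJ
          have h2 : restrict_rest J + (R - restrict_rest J) = R := add_tsub_cancel_of_le hle
          have h3 : (restrict_rest J).degree + (R - restrict_rest J).degree = R.degree := by
            rw [← map_add, h2]
          have h4 : (R - restrict_rest J).degree = 0 := by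
            omega
          rw [Finsupp.degree_eq_zero_iff] at h4
          rw [h4, add_zero] at h2
          exact h2
        rw [if_pos hle, if_pos heq, heq, tsub_self, one_mul, restrict_unit_coeff V (hPd J hJ) hV0]
        ring
      · rw [if_neg hle, if_neg, mul_zero]
        exact fun h => hle h.le
    rw [Finset.sum_congr rfl hterm, ← Finset.sum_filter, ← Finset.mul_sum] at hmem
    have htr : tr (fun h => -(V h 1 : ℚ) / (V h 0 : ℚ)) (Q.map (Int.castRingHom ℚ)) =
        ∑ J ∈ P.support.filter (fun J => restrict_rest J = R), (C ((P.coeff J : ℤ) : ℚ) *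
          ∏ h, (C (-(V h 1 : ℚ) / (V h 0 : ℚ)) + X h) ^ J (h, 0)) := by
      rw [hQ, map_sum, map_sum]
      apply Finset.sum_congr rfl
      intro J _
      rw [map_monomial, tr, aeval_monomial, Finsupp.prod_fintype _ _ (fun _ => pow_zero _)]
      rfl
    intro i hi
    rw [← htr] at hmem
    have h1 := hmem i hi
    rw [coeff_C_mul] at h1
    have h2 : (∏ h, (V h 0 : ℚ) ^ d h) ≠ 0 := by
      rw [Finset.prod_ne_zero_iff]
      intro h _
      exact pow_ne_zero _ (by exact_mod_cast hV0 h)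
    exact (mul_eq_zero.1 h1).resolve_left h2

end SB
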