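import Pool.Agent.Lib.MP_28dc30_nt.Roth
import Pool.Agent.Lib.MP_28dc30_nt.MainVanish
import Pool.Agent.Lib.MP_28dc30_nt.Restrict

/-! The hyperplane lemma. -/

open MvPolynomial

namespace SB

/-- Main lemma: there is no infinite family of small and highly divisible systems of `n + 1`
integer points spanning hyperplanes whose equation has a rapidly growing height. -/
theorem hyperplane_lemma {n : ℕ} (K : IntermediateField ℚ ℝ) [FiniteDimensional ℚ K]
    (N N' : Matrix (Fin (n + 2)) (Fin (n + 2)) ℝ) (hN : N' * N = 1)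
    (hN' : ∀ i j, N' i j ∈ K) (S : Finset ℕ) (hS : ∀ p ∈ S, p.Prime)
    (C₀ ε c : ℝ) (hε : 0 < ε) (hc : 0 < c) (T : Set ℕ) (hT : T.Infinite)
    (u : ℕ → Fin (n + 1) → Fin (n + 2) → ℤ) (V : ℕ → Fin (n + 2) → ℤ)
    (β : ℕ → Fin (n + 2) → ℝ) (a : ℕ → ℕ → Fin (n + 2) → ℕ)
    (hu : ∀ m ∈ T, ∀ j i, |∑ l, N i l * (u m j l : ℝ)| ≤ Real.exp (β m i * m))
    (hdiv : ∀ m ∈ T, ∀ p ∈ S, ∀ j i, ((p : ℤ) ^ a m p i) ∣ u m j i)
    (hβ : ∀ m ∈ T, ∀ i, |β m i| ≤ C₀)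
    (ha : ∀ m ∈ T, ∀ p ∈ S, ∀ i, (a m p i : ℝ) ≤ C₀ * m)
    (hsum : ∀ m ∈ T, ∑ i, β m i * m + ε * m ≤ ∑ p ∈ S, ∑ i, (a m p i : ℝ) * Real.log p)
    (hV0 : ∀ m ∈ T, V m 0 ≠ 0)
    (hspan : ∀ m ∈ T, ∀ w : Fin (n + 2) → ℚ, ∑ i, (V m i : ℚ) * w i = 0 →
      w ∈ Submodule.span ℚ (Set.range fun j : Fin (n + 1) => fun i => (u m j i : ℚ)))
    (hden : ∀ m ∈ T, Real.exp (c * m) ≤ ((-(V m 1 : ℚ) / (V m 0 : ℚ)).den : ℝ)) :
    False := by
  classical
  -- constants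
  have hlogp : ∀ p ∈ S, 0 < Real.log p := fun p hp =>
    Real.log_pos (by exact_mod_cast (hS p hp).one_lt)
  obtain ⟨Ls, hLs⟩ : ∃ Ls : ℝ, Ls = ∑ p ∈ S, Real.log p := ⟨_, rfl⟩
  have hLs0 : 0 ≤ Ls := by rw [hLs]; exact Finset.sum_nonneg fun p hp => (hlogp p hp).le
  have hLsp : ∀ p ∈ S, Real.log p ≤ Ls := by
    intro p hp
    rw [hLs]
    exact Finset.single_le_sum (f := fun p : ℕ => Real.log p) (fun q hq => (hlogp q hq).le) hp
  obtain ⟨C, hC⟩ : ∃ C : ℝ, C = (|C₀| + 1) * (1 + Ls) := ⟨_, rfl⟩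
  have hC0 : 0 ≤ C := by rw [hC]; positivity
  have hCC0 : C₀ ≤ C := by
    rw [hC]
    nlinarith [le_abs_self C₀, abs_nonneg C₀]
  obtain ⟨M, hM⟩ : ∃ M : ℝ, M = 1 + ∑ i, |N i 0| := ⟨_, rfl⟩
  have hM1 : 1 ≤ M := by
    rw [hM]
    have : 0 ≤ ∑ i, |N i 0| := Finset.sum_nonneg fun i _ => abs_nonneg _
    linarith
  have hMi : ∀ i, |N i 0| ≤ M := by
    intro i
    rw [hM]
    have h1 : |N i 0| ≤ ∑ i, |N i 0| := Finset.single_le_sum (f := fun i => |N i 0|)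
      (fun i _ => abs_nonneg _) (Finset.mem_univ i)
    linarith
  obtain ⟨κ, hκ⟩ : ∃ κ : ℝ, κ = (S.card + 1) *
      ((2 + C + ((n + 1 + 1 : ℕ) : ℝ) * C) + 2 * C) := ⟨_, rfl⟩
  have hκ0 : 0 < κ := by rw [hκ]; positivity
  obtain ⟨ν, hν⟩ : ∃ ν : ℝ, ν = ((n + 1 + 1 : ℕ) : ℝ) := ⟨_, rfl⟩
  have hν0 : 0 < ν := by rw [hν]; positivity
  obtain ⟨τ, hτ⟩ : ∃ τ : ℝ, τ = min 1 (ε / (4 * ν * κ)) := ⟨_, rfl⟩
  have hτ0 : 0 < τ := by rw [hτ]; exact lt_min one_pos (by positivity)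
  have hτ1 : τ ≤ 1 := by rw [hτ]; exact min_le_left _ _
  have hτκ : κ * τ ≤ ε / (4 * ν) := by
    have h1 : τ ≤ ε / (4 * ν * κ) := by rw [hτ]; exact min_le_right _ _
    calc κ * τ ≤ κ * (ε / (4 * ν * κ)) := by gcongr
      _ = ε / (4 * ν) := by field_simp
  obtain ⟨k₀, C₁, hC₁, haux⟩ := exists_aux (by omega : 1 ≤ n + 2) K N' hN' τ hτ0
  obtain ⟨k, hk⟩ : ∃ k : ℕ, k = max k₀ 1 := ⟨_, rfl⟩
  have hk0 : k₀ ≤ k := by rw [hk]; exact le_max_left _ _
  have hk1 : 1 ≤ k := by rw [hk]; exact le_max_right _ _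
  have hkpos : (0 : ℝ) < k := by exact_mod_cast hk1
  obtain ⟨ω, hω, hroth⟩ := roth_lemma k (τ / 2) (by positivity)
  -- pigeonhole
  have hT1 : (T \ {0}).Infinite := hT.sdiff (Set.finite_singleton 0)
  have hlamb : ∀ m ∈ T \ {0}, ∀ p ∈ S, ∀ i, |(a m p i : ℝ) * Real.log p / m| ≤ C := by
    intro m hm p hp i
    have hm0 : (0 : ℝ) < m := by
      have : m ≠ 0 := fun h => hm.2 h
      exact_mod_cast Nat.pos_of_ne_zero this
    have h1 := ha m hm.1 p hp i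
    have h2 := hlogp p hp
    have h3 := hLsp p hp
    have h4 : (0 : ℝ) ≤ a m p i := Nat.cast_nonneg _
    rw [abs_of_nonneg (by positivity), div_le_iff₀ hm0, hC]
    have h5 : (a m p i : ℝ) * Real.log p ≤ (C₀ * m) * Real.log p :=
      mul_le_mul_of_nonneg_right h1 h2.le
    have h6 : C₀ * m * Real.log p ≤ |C₀| * m * Ls := by
      calc C₀ * m * Real.log p ≤ |C₀| * m * Real.log p := by
            gcongr
            exact le_abs_self _
        _ ≤ |C₀| * m * Ls := by gcongr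
    have h7 : 0 ≤ |C₀| := abs_nonneg _
    nlinarith [mul_nonneg h7 hm0.le, mul_nonneg hLs0 hm0.le]
  obtain ⟨T', hT'T, hT'inf, hT'⟩ := main_pigeon
    (ι := Fin (n + 2) ⊕ (S × Fin (n + 2)))
    (fun m => Sum.elim (fun i => β m i)
      (fun q => (a m q.1 q.2 : ℝ) * Real.log (q.1 : ℕ) / m)) C τ hτ0 (T \ {0}) hT1 (by
      intro m hm i
      rcases i with i | q
      · simp only [Sum.elim_inl]
        exact (hβ m hm.1 i).trans hCC0
      · simp only [Sum.elim_inr]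
        exact hlamb m hm q.1 q.1.2 q.2)
  have hTβ : ∀ m ∈ T', ∀ m' ∈ T', ∀ i, |β m i - β m' i| ≤ τ := fun m hm m' hm' i =>
    hT' m hm m' hm' (Sum.inl i)
  have hTa : ∀ m ∈ T', ∀ m' ∈ T', ∀ p ∈ S, ∀ i,
      |(a m p i : ℝ) * Real.log p / m - (a m' p i : ℝ) * Real.log p / m'| ≤ τ :=
    fun m hm m' hm' p hp i => hT' m hm m' hm' (Sum.inr (⟨p, hp⟩, i))
  -- size constants
  obtain ⟨L1, hL1⟩ : ∃ L1 : ℝ, L1 = Real.log (C₁ * (((n + 1 : ℕ) : ℝ) + M)) := ⟨_, rfl⟩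
  obtain ⟨L2, hL2⟩ : ∃ L2 : ℝ, L2 = |L1| + Real.log 8 + Real.log C₁ := ⟨_, rfl⟩
  have hlog8 : 0 < Real.log 8 := Real.log_pos (by norm_num)
  have hlogC₁ : 0 ≤ Real.log C₁ := Real.log_nonneg hC₁
  have hL20 : 0 < L2 := by rw [hL2]; positivity
  obtain ⟨m₀, hm₀⟩ : ∃ m₀ : ℕ, 8 * ν * L2 / ε + 2 * k * L2 / (ω * c) + 1 ≤ m₀ :=
    ⟨_, Nat.le_ceil _⟩
  have hpos1 : 0 ≤ 8 * ν * L2 / ε := by positivity
  have hpos2 : 0 ≤ 2 * k * L2 / (ω * c) := by positivity
  have hm₀1 : 8 * ν * L2 / ε ≤ m₀ := by linarith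
  have hm₀2 : 2 * k * L2 / (ω * c) ≤ m₀ := by linarith
  have hm₀3 : (1 : ℝ) ≤ m₀ := by linarith
  have hm₀pos : (0 : ℝ) < m₀ := by linarith
  obtain ⟨m, hmT, hmR⟩ := main_select T' hT'inf (2 / ω) m₀ k
  have hmm₀ : ∀ h, (m₀ : ℝ) ≤ m h := fun h => by exact_mod_cast (hmT h).2
  have hmpos : ∀ h, (0 : ℝ) < m h := fun h => hm₀pos.trans_le (hmm₀ h)
  have hmT1 : ∀ h, m h ∈ T := fun h => (hT'T (hmT h).1).1
  obtain ⟨D, hD⟩ : ∃ D : ℝ, D = (∑ h, (m h : ℝ)) / τ + 1 := ⟨_, rfl⟩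
  have hDpos : 0 < D := by rw [hD]; positivity
  have hDm : ∀ h, (m h : ℝ) ≤ τ * D := by
    intro h
    have h1 : (m h : ℝ) ≤ ∑ h, (m h : ℝ) :=
      Finset.single_le_sum (f := fun h => (m h : ℝ)) (fun _ _ => Nat.cast_nonneg _)
        (Finset.mem_univ h)
    have h2 : τ * D = (∑ h, (m h : ℝ)) + τ := by
      rw [hD]
      field_simp
    rw [h2]
    linarith
  have hDm' : ∀ h, (m h : ℝ) ≤ D := fun h => (hDm h).trans (by nlinarith)
  obtain ⟨d, hd⟩ : ∃ d : Fin k → ℕ, d = fun h => ⌈D / m h⌉₊ := ⟨_, rfl⟩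
  have hdl : ∀ h, D / m h ≤ d h := fun h => by rw [hd]; exact Nat.le_ceil _
  have hdu : ∀ h, (d h : ℝ) < D / m h + 1 := fun h => by
    rw [hd]
    exact Nat.ceil_lt_add_one (div_pos hDpos (hmpos h)).le
  have hd1 : ∀ h, 1 ≤ d h := by
    intro h
    have h1 : (0 : ℝ) < d h := (div_pos hDpos (hmpos h)).trans_le (hdl h)
    exact_mod_cast h1
  have hmd1 : ∀ h, D ≤ (m h : ℝ) * d h := by
    intro h
    have h1 := hdl h
    rw [div_le_iff₀ (hmpos h)] at h1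
    linarith
  have hmd2 : ∀ h, (m h : ℝ) * d h ≤ (1 + τ) * D := by
    intro h
    have h1 : (m h : ℝ) * d h ≤ m h * (D / m h + 1) :=
      mul_le_mul_of_nonneg_left (hdu h).le (hmpos h).le
    have h2 : (m h : ℝ) * (D / m h + 1) = D + m h := by
      have := (hmpos h).ne'
      field_simp
    have h3 := hDm h
    linarith
  have hd2 : ∀ h, (d h : ℝ) ≤ 2 * D / m h := by
    intro h
    rw [le_div_iff₀ (hmpos h)]
    have h1 := hmd2 h
    nlinarith
  have hsumd : ((∑ h, d h : ℕ) : ℝ) ≤ 2 * k * D / m₀ := by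
    push_cast
    calc ∑ h, (d h : ℝ) ≤ ∑ h : Fin k, 2 * D / m₀ := by
          refine Finset.sum_le_sum fun h _ => ?_
          refine (hd2 h).trans ?_
          have := hmm₀ h
          gcongr
      _ = 2 * k * D / m₀ := by
          simp
          ring
  have hsumd0 : (0 : ℝ) ≤ ((∑ h, d h : ℕ) : ℝ) := Nat.cast_nonneg _
  have hsumdL : ((∑ h, d h : ℕ) : ℝ) * L2 ≤ ω * c * D := by
    have h1 : 2 * k * L2 ≤ m₀ * (ω * c) := by
      rw [div_le_iff₀ (by positivity)] at hm₀2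
      linarith
    calc ((∑ h, d h : ℕ) : ℝ) * L2 ≤ 2 * k * D / m₀ * L2 := by gcongr
      _ = (2 * k * L2) * D / m₀ := by ring
      _ ≤ (m₀ * (ω * c)) * D / m₀ := by gcongr
      _ = ω * c * D := by field_simp
  obtain ⟨P, hP0, hP1, hP2, hP3, hP4⟩ := haux k hk0 d hd1
  -- vanishing
  obtain ⟨ms, hms⟩ : ∃ ms : ℕ, ms = m ⟨0, hk1⟩ := ⟨_, rfl⟩
  have hmsT' : ms ∈ T' := by rw [hms]; exact (hmT _).1
  have hms0 : (0 : ℝ) < ms := by rw [hms]; exact hmpos _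
  have hvan := main_vanish d hd1 N N' hN S hS C ε τ D M C₁ hC0 hτ0 hτ1 hDpos hMi hM1 hC₁ m
    (fun h => by exact_mod_cast hmpos h) hmd1 hmd2 (fun h i => β (m h) i) (β ms)
    (fun h i => hTβ _ (hmT h).1 _ hmsT' i)
    (fun i => (hβ ms (hT'T hmsT').1 i).trans hCC0)
    (fun h i => (hβ (m h) (hmT1 h) i).trans hCC0)
    (fun h => a (m h)) (fun p i => (a ms p i : ℝ) * Real.log p / ms)
    (fun p hp h i => hTa _ (hmT h).1 _ hmsT' p hp i)
    (fun p hp i => hlamb ms (hT'T hmsT') p hp i)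
    (fun p hp h i => hlamb (m h) (hT'T (hmT h).1) p hp i)
    (by
      have h1 := hsum ms (hT'T hmsT').1
      have h2 : (∑ i, β ms i + ε) * ms ≤ (∑ p ∈ S, ∑ i, (a ms p i : ℝ) * Real.log p / ms) * ms := by
        have h3 : (∑ p ∈ S, ∑ i, (a ms p i : ℝ) * Real.log p / ms) * ms =
            ∑ p ∈ S, ∑ i, (a ms p i : ℝ) * Real.log p := by
          rw [Finset.sum_mul]
          refine Finset.sum_congr rfl fun p _ => ?_
          rw [Finset.sum_mul]
          refine Finset.sum_congr rfl fun i _ => ?_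
          field_simp
        rw [h3, add_mul, Finset.sum_mul]
        exact h1
      exact le_of_mul_le_mul_right h2 hms0)
    (fun h => u (m h)) (fun h j i => hu (m h) (hmT1 h) j i)
    (fun p hp h j i => hdiv (m h) (hmT1 h) p hp j i) P hP0 hP1 hP3 hP4
    (by
      rw [← hL1, ← hκ, ← hν]
      have h1 : ((∑ h, d h : ℕ) : ℝ) * L1 ≤ D * k * (ε / (4 * ν)) := by
        have h2 : 8 * ν * L2 ≤ m₀ * ε := by
          rw [div_le_iff₀ hε] at hm₀1
          linarith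
        calc ((∑ h, d h : ℕ) : ℝ) * L1 ≤ ((∑ h, d h : ℕ) : ℝ) * L2 := by
              gcongr
              rw [hL2]
              have := le_abs_self L1
              linarith
          _ ≤ 2 * k * D / m₀ * L2 := by gcongr
          _ = (k * D / (4 * ν * m₀)) * (8 * ν * L2) := by field_simp; ring
          _ ≤ (k * D / (4 * ν * m₀)) * (m₀ * ε) := by gcongr
          _ = D * k * (ε / (4 * ν)) := by field_simp
      have h2 : κ * τ * D * k ≤ ε / (4 * ν) * D * k := by gcongr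
      have h3 : D * (k / ν) * ε = 4 * (D * k * (ε / (4 * ν))) := by field_simp
      have h4 : 0 < D * k * (ε / (4 * ν)) := by positivity
      nlinarith)
  obtain ⟨Q, hQ0, hQd, hQP, hQv⟩ := exists_restrict d hd1 P hP0 (fun J hJ => (hP1 J hJ).1)
    (fun h => u (m h)) (fun h => V (m h)) (fun h => hV0 _ (hmT1 h))
    (fun h w hw => hspan (m h) (hmT1 h) w hw) (τ * k) hvan
  have hG : (Real.exp (c * D)) ^ ω = Real.exp (ω * c * D) := by
    rw [← Real.exp_mul]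
    congr 1
    ring
  obtain ⟨i, hi1, hi2⟩ := hroth d (fun h => -(V (m h) 1 : ℚ) / (V (m h) 0 : ℚ))
    (Real.exp (c * D)) Q hd1
    (by
      intro i j hij
      have h1 := hmR i j hij
      have h2 := hd2 i
      have h3 := hmd1 j
      refine h2.trans ?_
      rw [div_le_iff₀ (hmpos i)]
      rw [div_mul_eq_mul_div, div_le_iff₀ hω] at h1
      have hdj : (0 : ℝ) < d j := by exact_mod_cast hd1 j
      nlinarith)
    (by
      have : 0 < c * D := by positivity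
      exact Real.one_lt_exp_iff.2 this)
    (by
      intro h
      have h1 := hden (m h) (hmT1 h)
      calc Real.exp (c * D) ≤ Real.exp (c * (m h * d h)) := by
            apply Real.exp_le_exp.2
            have := hmd1 h
            gcongr
        _ = (Real.exp (c * m h)) ^ (d h) := by
            rw [← Real.exp_nat_mul]
            congr 1
            ring
        _ ≤ _ := by gcongr)
    (by
      rw [hG]
      have h1 : (8 : ℝ) ^ (∑ h, d h) = Real.exp (((∑ h, d h : ℕ) : ℝ) * Real.log 8) := by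
        rw [Real.exp_nat_mul, Real.exp_log (by norm_num)]
      rw [h1]
      apply Real.exp_le_exp.2
      refine le_trans ?_ hsumdL
      gcongr
      rw [hL2]
      have := abs_nonneg L1
      linarith)
    hQ0 hQd
    (by
      intro i
      rw [hG]
      rcases hQP i with h0 | ⟨J, hJ⟩
      · rw [h0]
        simp only [Int.cast_zero, abs_zero]
        positivity
      · rw [hJ]
        refine (hP2 J).trans ?_
        have h1 : C₁ ^ (∑ h, d h) = Real.exp (((∑ h, d h : ℕ) : ℝ) * Real.log C₁) := by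
          rw [Real.exp_nat_mul, Real.exp_log (by linarith)]
        rw [h1]
        apply Real.exp_le_exp.2
        refine le_trans ?_ hsumdL
        gcongr
        rw [hL2]
        have := abs_nonneg L1
        linarith)
  refine hi2 (hQv i ?_)
  have hk1' : (1 : ℝ) ≤ k := by exact_mod_cast hk1
  nlinarith

end SB
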