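import Pool.Agent.Lib.MP_28dc30_nt.Defs

/-! Auxiliary lemmas for the hyperplane lemma: choice of parameters. -/

open MvPolynomial

namespace SB

theorem main_pigeon {ι : Type*} [Fintype ι] (f : ℕ → ι → ℝ) (C τ : ℝ) (hτ : 0 < τ) (T : Set ℕ)
    (hT : T.Infinite) (hf : ∀ m ∈ T, ∀ i, |f m i| ≤ C) :
    ∃ T' ⊆ T, T'.Infinite ∧ ∀ m ∈ T', ∀ m' ∈ T', ∀ i, |f m i - f m' i| ≤ τ := by
  classical
  obtain ⟨Z, hZ⟩ : ∃ Z : ℤ, Z = ⌈C / τ⌉ + 1 := ⟨_, rfl⟩
  have key : ∀ m : T, ∀ i, ⌊f m i / τ⌋ ∈ Finset.Icc (-Z) Z := by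
    intro m i
    have h := abs_le.1 (hf m m.2 i)
    have h1 : -(C / τ) ≤ f m i / τ := by
      rw [← neg_div]
      exact div_le_div_of_nonneg_right h.1 hτ.le
    have h2 : f m i / τ ≤ C / τ := div_le_div_of_nonneg_right h.2 hτ.le
    have h3 : C / τ ≤ ⌈C / τ⌉ := Int.le_ceil _
    rw [Finset.mem_Icc]
    constructor
    · rw [Int.le_floor]
      rw [hZ]
      push_cast
      linarith
    · have h4 : ⌊f m i / τ⌋ ≤ ⌈C / τ⌉ := by
        have h5 : (⌊f m i / τ⌋ : ℝ) ≤ f m i / τ := Int.floor_le _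
        have h6 : (⌊f m i / τ⌋ : ℝ) ≤ (⌈C / τ⌉ : ℤ) := by linarith
        exact_mod_cast h6
      rw [hZ]
      linarith
  have : Infinite T := hT.to_subtype
  obtain ⟨y, hy⟩ := Finite.exists_infinite_fiber
    (fun m : T => fun i : ι => (⟨⌊f m i / τ⌋, key m i⟩ : Finset.Icc (-Z) Z))
  refine ⟨Subtype.val '' ((fun m : T => fun i : ι =>
    (⟨⌊f m i / τ⌋, key m i⟩ : Finset.Icc (-Z) Z)) ⁻¹' {y}), ?_, ?_, ?_⟩
  · rintro _ ⟨m, -, rfl⟩
    exact m.2
  · exact (Set.infinite_coe_iff.1 hy).image Subtype.val_injective.injOn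
  · rintro _ ⟨m, hm, rfl⟩ _ ⟨m', hm', rfl⟩ i
    have h1 : (⌊f m i / τ⌋ : ℤ) = ⌊f m' i / τ⌋ := by
      have e1 := congrFun (Set.mem_singleton_iff.1 hm) i
      have e2 := congrFun (Set.mem_singleton_iff.1 hm') i
      have e3 := e1.trans e2.symm
      exact congrArg Subtype.val e3
    have h2 := Int.floor_le (f m i / τ)
    have h3 := Int.lt_floor_add_one (f m i / τ)
    have h4 := Int.floor_le (f m' i / τ)
    have h5 := Int.lt_floor_add_one (f m' i / τ)
    rw [h1] at h2 h3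
    have h6 : |f m i / τ - f m' i / τ| ≤ 1 := by
      rw [abs_le]
      constructor <;> linarith
    have h7 : f m i - f m' i = τ * (f m i / τ - f m' i / τ) := by
      field_simp
    rw [h7, abs_mul, abs_of_pos hτ]
    calc τ * |f m i / τ - f m' i / τ| ≤ τ * 1 := by gcongr
      _ = τ := mul_one _

theorem main_select (T : Set ℕ) (hT : T.Infinite) (R : ℝ) (m₀ : ℕ) (k : ℕ) :
    ∃ m : Fin k → ℕ, (∀ h, m h ∈ T ∧ m₀ ≤ m h) ∧ ∀ i j, i < j → R * m j ≤ m i := by
  induction k with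
  | zero => exact ⟨fun h => h.elim0, fun h => h.elim0, fun i => i.elim0⟩
  | succ k ih =>
    obtain ⟨m, hm1, hm2⟩ := ih
    obtain ⟨b, hb⟩ : ∃ b : ℕ, ∀ j, R * m j ≤ b := by
      refine ⟨∑ j, ⌈|R * m j|⌉₊, fun j => ?_⟩
      calc R * m j ≤ |R * m j| := le_abs_self _
        _ ≤ (⌈|R * m j|⌉₊ : ℝ) := Nat.le_ceil _
        _ ≤ ((∑ j, ⌈|R * m j|⌉₊ : ℕ) : ℝ) := by
            exact_mod_cast Finset.single_le_sum (f := fun j => ⌈|R * m j|⌉₊)
              (fun _ _ => Nat.zero_le _) (Finset.mem_univ j)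
    obtain ⟨x, hx, hx2⟩ := hT.exists_gt (max m₀ b)
    refine ⟨Fin.cons x m, ?_, ?_⟩
    · intro h
      refine Fin.cases ?_ (fun h => ?_) h
      · simp only [Fin.cons_zero]
        exact ⟨hx, (le_max_left _ _).trans hx2.le⟩
      · simp only [Fin.cons_succ]
        exact hm1 h
    · intro i j
      refine Fin.cases ?_ (fun i => ?_) i
      · refine Fin.cases ?_ (fun j => ?_) j
        · intro h; exact absurd h (lt_irrefl _)
        · intro _
          simp only [Fin.cons_zero, Fin.cons_succ]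
          have h1 : (b : ℝ) ≤ x := by exact_mod_cast (le_max_right m₀ b).trans hx2.le
          exact (hb j).trans h1
      · refine Fin.cases ?_ (fun j => ?_) j
        · intro h; exact absurd h (Fin.not_lt_zero _)
        · intro h
          simp only [Fin.cons_succ]
          exact hm2 i j (Fin.succ_lt_succ_iff.1 h)

/-- the basic estimate for balanced exponents -/
theorem main_est {k n : ℕ} (hn : 1 ≤ n) (d : Fin k → ℕ) (hd : ∀ h, 1 ≤ d h) (τ D C : ℝ) (hτ : 0 < τ)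
    (hτ1 : τ ≤ 1) (hD : 0 < D) (hC : 0 ≤ C) (m : Fin k → ℕ)
    (hm1 : ∀ h, D ≤ (m h : ℝ) * d h) (hm2 : ∀ h, (m h : ℝ) * d h ≤ (1 + τ) * D)
    (b : Fin k → Fin n → ℝ) (b₀ : Fin n → ℝ) (hb : ∀ h i, |b h i - b₀ i| ≤ τ)
    (hb₀ : ∀ i, |b₀ i| ≤ C) (J : Fin k × Fin n →₀ ℕ) (hJ : MDeg d J) (hJ2 : Bal d τ J) :
    |∑ h, ∑ i, b h i * m h * J (h, i) - D * (k / n) * ∑ i, b₀ i| ≤ (2 + C + n * C) * τ * D * k := by
  have hd' : ∀ h, (0 : ℝ) < d h := fun h => by exact_mod_cast hd h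
  set x : Fin k → Fin n → ℝ := fun h i => (J (h, i) : ℝ) / d h with hx
  have hx0 : ∀ h i, 0 ≤ x h i := fun h i => by positivity
  have hx1 : ∀ h, ∑ i, x h i = 1 := by
    intro h
    rw [hx, ← Finset.sum_div]
    have h1 : (∑ i, (J (h, i) : ℝ)) = d h := by exact_mod_cast hJ h
    rw [h1]
    exact div_self (hd' h).ne'
  have e1 : ∑ h, ∑ i, b h i * m h * J (h, i) - D * (k / n) * ∑ i, b₀ i =
      ∑ h, ∑ i, (b h i * (m h * d h) - b₀ i * D) * x h i +
        D * ∑ i, b₀ i * (∑ h, x h i - k / n) := by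
    have e2 : ∀ h i, b h i * m h * J (h, i) = b h i * (m h * d h) * x h i := by
      intro h i
      have := (hd' h).ne'
      simp only [hx]
      field_simp
    simp only [e2, sub_mul, Finset.sum_sub_distrib, mul_sub]
    have e3 : ∑ h, ∑ i, b₀ i * D * x h i = D * ∑ i, b₀ i * ∑ h, x h i := by
      rw [Finset.sum_comm, Finset.mul_sum]
      refine Finset.sum_congr rfl fun i _ => ?_
      rw [Finset.mul_sum, Finset.mul_sum]
      refine Finset.sum_congr rfl fun h _ => ?_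
      ring
    have e4 : D * (k / n) * ∑ i, b₀ i = D * ∑ i, b₀ i * (k / n) := by
      rw [← Finset.sum_mul]
      ring
    rw [e3, e4]
    ring
  rw [e1]
  have b1 : ∀ h i, |(b h i * (m h * d h) - b₀ i * D) * x h i| ≤ (2 + C) * τ * D * x h i := by
    intro h i
    rw [abs_mul, abs_of_nonneg (hx0 h i)]
    gcongr
    have e5 : b h i * (m h * d h) - b₀ i * D =
        (b h i - b₀ i) * (m h * d h) + b₀ i * (m h * d h - D) := by ring
    rw [e5]
    have f1 : |(b h i - b₀ i) * (m h * d h)| ≤ τ * (2 * D) := by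
      rw [abs_mul]
      have : |((m h : ℝ) * d h)| ≤ 2 * D := by
        rw [abs_of_nonneg (hD.le.trans (hm1 h))]
        calc (m h : ℝ) * d h ≤ (1 + τ) * D := hm2 h
          _ ≤ 2 * D := by nlinarith
      exact mul_le_mul (hb h i) this (abs_nonneg _) hτ.le
    have f2 : |b₀ i * (m h * d h - D)| ≤ C * (τ * D) := by
      rw [abs_mul]
      have : |((m h : ℝ) * d h - D)| ≤ τ * D := by
        rw [abs_of_nonneg (by linarith [hm1 h])]
        linarith [hm2 h]
      exact mul_le_mul (hb₀ i) this (abs_nonneg _) hC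
    calc |(b h i - b₀ i) * (m h * d h) + b₀ i * (m h * d h - D)|
        ≤ |(b h i - b₀ i) * (m h * d h)| + |b₀ i * (m h * d h - D)| := abs_add_le _ _
      _ ≤ τ * (2 * D) + C * (τ * D) := add_le_add f1 f2
      _ = (2 + C) * τ * D := by ring
  have b2 : |∑ h, ∑ i, (b h i * (m h * d h) - b₀ i * D) * x h i| ≤ (2 + C) * τ * D * k := by
    calc |∑ h, ∑ i, (b h i * (m h * d h) - b₀ i * D) * x h i|
        ≤ ∑ h, ∑ i, |(b h i * (m h * d h) - b₀ i * D) * x h i| := by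
          refine (Finset.abs_sum_le_sum_abs _ _).trans (Finset.sum_le_sum fun h _ => ?_)
          exact Finset.abs_sum_le_sum_abs _ _
      _ ≤ ∑ h : Fin k, ∑ i, (2 + C) * τ * D * x h i :=
          Finset.sum_le_sum fun h _ => Finset.sum_le_sum fun i _ => b1 h i
      _ = (2 + C) * τ * D * k := by
          simp only [← Finset.mul_sum, hx1]
          simp
  have b3 : |D * ∑ i, b₀ i * (∑ h, x h i - k / n)| ≤ D * (n * (C * (τ * k))) := by
    rw [abs_mul, abs_of_pos hD]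
    gcongr
    calc |∑ i, b₀ i * (∑ h, x h i - k / n)| ≤ ∑ i, |b₀ i * (∑ h, x h i - k / n)| :=
          Finset.abs_sum_le_sum_abs _ _
      _ ≤ ∑ i : Fin n, C * (τ * k) := by
          refine Finset.sum_le_sum fun i _ => ?_
          rw [abs_mul]
          exact mul_le_mul (hb₀ i) (hJ2 i) (abs_nonneg _) hC
      _ = n * (C * (τ * k)) := by simp
  calc |∑ h, ∑ i, (b h i * (m h * d h) - b₀ i * D) * x h i +
        D * ∑ i, b₀ i * (∑ h, x h i - k / n)|
      ≤ |∑ h, ∑ i, (b h i * (m h * d h) - b₀ i * D) * x h i| +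
        |D * ∑ i, b₀ i * (∑ h, x h i - k / n)| := abs_add_le _ _
    _ ≤ (2 + C) * τ * D * k + D * (n * (C * (τ * k))) := add_le_add b2 b3
    _ = (2 + C + n * C) * τ * D * k := by ring

end SB
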