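import Pool.Agent.Lib.MP_28dc30_nt.RothA

/-! Roth's lemma, part B: rank decomposition, rank one factorisation, one variable. -/

open MvPolynomial

namespace SB

/-- the one variable polynomial as a `Polynomial` -/
noncomputable def factor_toP {R : Type*} [CommRing R] :
    MvPolynomial (Fin 1) R →ₐ[R] Polynomial R := aeval (fun _ => Polynomial.X)

theorem factor_toP_coeff {R : Type*} [CommRing R] (V : MvPolynomial (Fin 1) R) (j : Fin 1 →₀ ℕ) :
    (factor_toP V).coeff (j 0) = V.coeff j := by
  classical
  induction V using MvPolynomial.induction_on' with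
  | monomial u a =>
    have h1 : (factor_toP (monomial u a) : Polynomial R) = Polynomial.monomial (u 0) a := by
      simp only [factor_toP, aeval_monomial]
      rw [Finsupp.prod_fintype _ _ (by simp)]
      simp [← Polynomial.C_mul_X_pow_eq_monomial, Polynomial.algebraMap_eq]
    rw [h1, Polynomial.coeff_monomial, coeff_monomial]
    have : (u 0 = j 0) ↔ u = j := by
      constructor
      · intro h
        refine Finsupp.ext (fun i => ?_)
        rw [Subsingleton.elim i 0, h]
      · rintro rfl
        rfl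
    by_cases h : u = j
    · simp [h]
    · rw [if_neg h, if_neg (fun h' => h (this.1 h'))]
  | add p q hp hq => rw [map_add, Polynomial.coeff_add, hp, hq, coeff_add]

theorem factor_toP_single {R : Type*} [CommRing R] (V : MvPolynomial (Fin 1) R) (n : ℕ) :
    (factor_toP V).coeff n = V.coeff (Finsupp.single 0 n) := by
  rw [← factor_toP_coeff V (Finsupp.single 0 n)]
  simp

theorem factor_fse_e2 {k : ℕ} {R : Type*} [CommRing R] (U : MvPolynomial (Fin k) R) :
    finSuccEquiv R k (e2 U) = Polynomial.C U := by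
  induction U using MvPolynomial.induction_on with
  | C a =>
    have : (e2 (C a) : MvPolynomial (Fin (k + 1)) R) = C a := by simp [e2]
    rw [this, finSuccEquiv_apply]
    simp
  | add p q hp hq => rw [map_add, map_add, hp, hq, Polynomial.C_add]
  | mul_X p n hp =>
    rw [map_mul, map_mul, hp, Polynomial.C_mul]
    have : (e2 (X n) : MvPolynomial (Fin (k + 1)) R) = X n.succ := by simp [e2]
    rw [this, finSuccEquiv_X_succ]

theorem factor_fse_e1 {k : ℕ} {R : Type*} [CommRing R] (V : MvPolynomial (Fin 1) R) :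
    finSuccEquiv R k (e1 V) = (factor_toP V).map (C : R →+* MvPolynomial (Fin k) R) := by
  induction V using MvPolynomial.induction_on with
  | C a =>
    have : (e1 (C a) : MvPolynomial (Fin (k + 1)) R) = C a := by simp [e1]
    rw [this, finSuccEquiv_apply]
    simp [factor_toP, Polynomial.algebraMap_eq]
  | add p q hp hq => rw [map_add, map_add, hp, hq, map_add, Polynomial.map_add]
  | mul_X p n hp =>
    rw [map_mul, map_mul, hp, map_mul, Polynomial.map_mul]
    have : (e1 (X n) : MvPolynomial (Fin (k + 1)) R) = X 0 := by simp [e1]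
    rw [this, finSuccEquiv_X_zero]
    simp [factor_toP]

/-- coefficients of a product with separated variables -/
theorem factor_coeff_sep {k : ℕ} {R : Type*} [CommRing R] (U : MvPolynomial (Fin k) R)
    (V : MvPolynomial (Fin 1) R) (n : ℕ) (i : Fin k →₀ ℕ) :
    (e2 U * e1 V).coeff (Finsupp.cons n i) = U.coeff i * V.coeff (Finsupp.single 0 n) := by
  rw [← finSuccEquiv_coeff_coeff, map_mul, factor_fse_e2, factor_fse_e1, Polynomial.coeff_C_mul,
    Polynomial.coeff_map, mul_comm U, coeff_C_mul, factor_toP_single, mul_comm]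

theorem factor_sep_ext {k : ℕ} {R : Type*} [CommRing R] {P Q : MvPolynomial (Fin (k + 1)) R}
    (h : ∀ n i, P.coeff (Finsupp.cons n i) = Q.coeff (Finsupp.cons n i)) : P = Q := by
  ext m
  rw [← Finsupp.cons_tail m]
  exact h _ _

/-- minimal decomposition as a sum of products with separated variables -/
theorem exists_decomp {k D : ℕ} (Q : MvPolynomial (Fin (k + 1)) ℚ) (hQ0 : Q ≠ 0)
    (hD : Q.degreeOf 0 ≤ D) :
    ∃ s : ℕ, 1 ≤ s ∧ s ≤ D + 1 ∧ ∃ (φ : Fin s → MvPolynomial (Fin k) ℚ)
      (ψ : Fin s → MvPolynomial (Fin 1) ℚ), LinearIndependent ℚ φ ∧ LinearIndependent ℚ ψ ∧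
      Q = ∑ l, e2 (φ l) * e1 (ψ l) := by
  classical
  set v : Fin (D + 1) → MvPolynomial (Fin k) ℚ := fun j => (finSuccEquiv ℚ k Q).coeff (j : ℕ)
    with hv
  have hvc : ∀ (j : Fin (D + 1)) i, (v j).coeff i = Q.coeff (Finsupp.cons (j : ℕ) i) := by
    intro j i
    rw [hv]
    exact finSuccEquiv_coeff_coeff _ _ _
  have hout : ∀ n, D < n → ∀ i, Q.coeff (Finsupp.cons n i) = 0 := by
    intro n hn i
    by_contra hne
    have := monomial_le_degreeOf 0 (mem_support_iff.2 hne)
    simp at this
    omega
  obtain ⟨b, -, -, hb1, hb2⟩ := exists_linearIndepOn_extension (K := ℚ) (v := v)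
    (linearIndepOn_empty ℚ v) (Set.subset_univ (∅ : Set (Fin (D + 1))))
  have : Fintype b := Fintype.ofFinite b
  set s : ℕ := Fintype.card b with hs
  set e : Fin s ≃ b := (Fintype.equivFin b).symm with he
  set φ : Fin s → MvPolynomial (Fin k) ℚ := fun l => v (e l) with hφ
  have hφi : LinearIndependent ℚ φ := by
    have h1 : LinearIndependent ℚ (fun x : b => v x) := hb2
    exact h1.comp e e.injective
  have hrange : Set.range φ = v '' b := by
    ext x
    constructor
    · rintro ⟨l, rfl⟩
      exact ⟨e l, (e l).2, rfl⟩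
    · rintro ⟨j, hj, rfl⟩
      exact ⟨e.symm ⟨j, hj⟩, by simp [hφ]⟩
  have hspan : ∀ j, v j ∈ Submodule.span ℚ (Set.range φ) := by
    intro j
    rw [hrange]
    exact hb1 ⟨j, Set.mem_univ _, rfl⟩
  have hex : ∀ j, ∃ c : Fin s → ℚ, ∑ l, c l • φ l = v j := by
    intro j
    exact (Submodule.mem_span_range_iff_exists_fun ℚ).1 (hspan j)
  choose c hc using hex
  set ψ : Fin s → MvPolynomial (Fin 1) ℚ := fun l =>
    ∑ j : Fin (D + 1), monomial (Finsupp.single 0 (j : ℕ)) (c j l) with hψ
  have hsing : ∀ m n : ℕ, (Finsupp.single (0 : Fin 1) m = Finsupp.single 0 n) ↔ m = n := by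
    intro m n
    constructor
    · intro h
      have := DFunLike.congr_fun h 0
      simpa using this
    · rintro rfl
      rfl
  have hψc : ∀ l (j : Fin (D + 1)), (ψ l).coeff (Finsupp.single 0 (j : ℕ)) = c j l := by
    intro l j
    rw [hψ]
    simp only [coeff_sum, coeff_monomial, hsing, Fin.val_inj]
    rw [Finset.sum_ite_eq' Finset.univ j (fun j => c j l), if_pos (Finset.mem_univ _)]
  have hψc' : ∀ l n, D < n → (ψ l).coeff (Finsupp.single 0 n) = 0 := by
    intro l n hn
    rw [hψ]
    simp only [coeff_sum, coeff_monomial, hsing]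
    apply Finset.sum_eq_zero
    intro j _
    have := j.2
    rw [if_neg (by omega)]
  have hQeq : Q = ∑ l, e2 (φ l) * e1 (ψ l) := by
    apply factor_sep_ext
    intro n i
    rw [coeff_sum]
    simp only [factor_coeff_sep]
    by_cases hn : D < n
    · rw [hout n hn i]
      symm
      apply Finset.sum_eq_zero
      intro l _
      rw [hψc' l n hn, mul_zero]
    · have hn' : n < D + 1 := by omega
      have h1 : ∀ l, (ψ l).coeff (Finsupp.single 0 n) = c ⟨n, hn'⟩ l := fun l =>
        hψc l ⟨n, hn'⟩
      simp only [h1]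
      rw [← hvc ⟨n, hn'⟩ i, ← hc, coeff_sum]
      apply Finset.sum_congr rfl
      intro l _
      rw [coeff_smul, smul_eq_mul, mul_comm]
  have hψi : LinearIndependent ℚ ψ := by
    rw [Fintype.linearIndependent_iff]
    intro a ha l'
    have h1 : ∀ l, c (e l' : Fin (D + 1)) l = if l = l' then 1 else 0 := by
      have h2 : ∑ l, c (e l') l • φ l = ∑ l, (if l = l' then (1 : ℚ) else 0) • φ l := by
        rw [hc]
        simp [hφ]
      have h3 : ∑ l, (c (e l') l - (if l = l' then (1 : ℚ) else 0)) • φ l = 0 := by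
        simp only [sub_smul, Finset.sum_sub_distrib]
        rw [h2, sub_self]
      intro l
      have := (Fintype.linearIndependent_iff.1 hφi) _ h3 l
      linarith
    have h4 := congrArg (fun p => coeff (Finsupp.single 0 ((e l' : Fin (D + 1)) : ℕ)) p) ha
    simp only [coeff_sum, coeff_smul, hψc, h1, coeff_zero, smul_eq_mul, mul_ite, mul_one,
      mul_zero] at h4
    simpa using h4
  refine ⟨s, ?_, ?_, φ, ψ, hφi, hψi, hQeq⟩
  · by_contra h0
    have h1 : s = 0 := by omega
    apply hQ0
    rw [hQeq]
    apply Finset.sum_eq_zero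
    intro l _
    exact absurd l.2 (by omega)
  · have := Fintype.card_subtype_le (fun x => x ∈ b)
    simpa [hs] using this

/-- an integer polynomial which is a product with separated variables over `ℚ` is such a product
over `ℤ`, with bounded coefficients -/
theorem exists_factor {k : ℕ} (W : MvPolynomial (Fin (k + 1)) ℤ) (hW : W ≠ 0)
    (U : MvPolynomial (Fin k) ℚ) (V : MvPolynomial (Fin 1) ℚ)
    (hUV : W.map (Int.castRingHom ℚ) = e2 U * e1 V) (H : ℝ)
    (hH : ∀ i, |((W.coeff i : ℤ) : ℝ)| ≤ H) :
    ∃ (U' : MvPolynomial (Fin k) ℤ) (V' : MvPolynomial (Fin 1) ℤ), W = e2 U' * e1 V' ∧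
      U' ≠ 0 ∧ V' ≠ 0 ∧ (∀ i, |((U'.coeff i : ℤ) : ℝ)| ≤ H) ∧
      (∀ i, |((V'.coeff i : ℤ) : ℝ)| ≤ H) ∧
      (∀ h, U'.degreeOf h ≤ W.degreeOf h.succ) := by
  classical
  -- coefficients
  have hc : ∀ n i, ((W.coeff (Finsupp.cons n i) : ℤ) : ℚ) =
      U.coeff i * V.coeff (Finsupp.single 0 n) := by
    intro n i
    rw [← factor_coeff_sep, ← hUV, coeff_map]
    simp
  have hU0 : U ≠ 0 := by
    rintro rfl
    apply hW
    apply factor_sep_ext
    intro n i
    have := hc n i
    simpa using this
  obtain ⟨i0, hi0⟩ := MvPolynomial.ne_zero_iff.1 hU0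
  -- the integer row
  set s : Finset ℕ := Finset.range (W.degreeOf 0 + 1) with hs
  have hsne : s.Nonempty := ⟨0, by simp [hs]⟩
  have hout : ∀ n, n ∉ s → ∀ i, W.coeff (Finsupp.cons n i) = 0 := by
    intro n hn i
    by_contra hne
    apply hn
    rw [hs, Finset.mem_range, Nat.lt_succ_iff]
    have := monomial_le_degreeOf 0 (mem_support_iff.2 hne)
    simpa using this
  obtain ⟨b, hb, hb1⟩ := Finset.extract_gcd (fun n => W.coeff (Finsupp.cons n i0)) hsne
  set g : ℤ := s.gcd (fun n => W.coeff (Finsupp.cons n i0)) with hg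
  -- g ≠ 0
  have hg0 : g ≠ 0 := by
    intro h0
    apply hW
    apply factor_sep_ext
    intro n i
    rw [coeff_zero]
    by_cases hn : n ∈ s
    · have h1 : W.coeff (Finsupp.cons n i0) = 0 := by
        have := hb n hn
        simpa [h0] using this
      have h2 := hc n i0
      rw [h1] at h2
      have h3 : V.coeff (Finsupp.single 0 n) = 0 := by
        rcases mul_eq_zero.1 h2.symm with h | h
        · exact absurd h hi0
        · exact h
      have h4 := hc n i
      rw [h3, mul_zero] at h4
      exact_mod_cast h4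
    · exact hout n hn i
  -- extend b by zero
  set b' : ℕ → ℤ := fun n => if n ∈ s then b n else 0 with hb'
  have hb'g : ∀ n, W.coeff (Finsupp.cons n i0) = g * b' n := by
    intro n
    by_cases hn : n ∈ s
    · simp only [hb', if_pos hn]
      exact hb n hn
    · simp only [hb', if_neg hn, mul_zero]
      exact hout n hn i0
  -- V coefficients in terms of b'
  set q : ℚ := (g : ℚ) / U.coeff i0 with hq
  have hVb : ∀ n, V.coeff (Finsupp.single 0 n) = q * b' n := by
    intro n
    have h1 := hc n i0
    rw [hb'g n] at h1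
    push_cast at h1
    rw [hq, div_mul_eq_mul_div, h1]
    field_simp
  -- the integers u_i
  have hWq : ∀ n i, ((W.coeff (Finsupp.cons n i) : ℤ) : ℚ) = (U.coeff i * q) * b' n := by
    intro n i
    rw [hc, hVb, mul_assoc]
  have hint : ∀ i, ((U.coeff i * q).den : ℤ) = 1 := by
    intro i
    have hdvd : ∀ n ∈ s, (((U.coeff i * q).den : ℕ) : ℤ) ∣ b n := by
      intro n hn
      have h1 := hWq n i
      simp only [hb', if_pos hn] at h1
      set x : ℚ := U.coeff i * q with hx
      have h2 : (x.num : ℚ) / (x.den : ℚ) = x := Rat.num_div_den x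
      have h3 : (x.den : ℚ) ≠ 0 := by exact_mod_cast x.den_nz
      have h4 : (x.den : ℤ) * W.coeff (Finsupp.cons n i) = x.num * b n := by
        have : ((x.den : ℚ)) * ((W.coeff (Finsupp.cons n i) : ℤ) : ℚ) = (x.num : ℚ) * (b n : ℚ) := by
          rw [h1]
          calc (x.den : ℚ) * (x * (b n : ℚ)) = ((x.den : ℚ) * x) * b n := by ring
            _ = (x.num : ℚ) * b n := by rw [Rat.den_mul_eq_num]
        exact_mod_cast this
      have h5 : (x.den : ℤ) ∣ x.num * b n := ⟨_, h4.symm⟩
      have h6 : IsCoprime (x.den : ℤ) x.num := by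
        rw [Int.isCoprime_iff_nat_coprime]
        simpa using x.reduced.symm
      exact h6.dvd_of_dvd_mul_left h5
    have h1 : (((U.coeff i * q).den : ℕ) : ℤ) ∣ 1 := by
      rw [← hb1]
      exact Finset.dvd_gcd hdvd
    have h2 := Int.isUnit_iff.1 (isUnit_of_dvd_one h1)
    omega
  set u : (Fin k →₀ ℕ) → ℤ := fun i => (U.coeff i * q).num with hu
  have hu' : ∀ i, (u i : ℚ) = U.coeff i * q := by
    intro i
    have h1 := hint i
    have h2 : (U.coeff i * q).den = 1 := by exact_mod_cast h1
    simp only [hu]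
    exact Rat.coe_int_num_of_den_eq_one h2
  have hWu : ∀ n i, W.coeff (Finsupp.cons n i) = u i * b' n := by
    intro n i
    have := hWq n i
    rw [← hu'] at this
    exact_mod_cast this
  -- the polynomials
  set U' : MvPolynomial (Fin k) ℤ := ∑ i ∈ U.support, monomial i (u i) with hU'
  set V' : MvPolynomial (Fin 1) ℤ := ∑ n ∈ s, monomial (Finsupp.single 0 n) (b' n) with hV'
  have hU'c : ∀ i, U'.coeff i = u i := by
    intro i
    rw [hU', coeff_sum]
    simp only [coeff_monomial]
    rw [Finset.sum_ite_eq' U.support i u]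
    split_ifs with h
    · rfl
    · have h0 : U.coeff i = 0 := by simpa using h
      simp [hu, h0]
  have hV'c : ∀ n, V'.coeff (Finsupp.single 0 n) = b' n := by
    intro n
    rw [hV', coeff_sum]
    simp only [coeff_monomial]
    have : ∀ m, (Finsupp.single (0 : Fin 1) m = Finsupp.single 0 n) ↔ m = n := by
      intro m
      constructor
      · intro h
        have := DFunLike.congr_fun h 0
        simpa using this
      · rintro rfl
        rfl
    simp only [this]
    rw [Finset.sum_ite_eq' s n b']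
    split_ifs with h
    · rfl
    · simp [hb', h]
  have hWUV : W = e2 U' * e1 V' := by
    apply factor_sep_ext
    intro n i
    rw [factor_coeff_sep, hU'c, hV'c, hWu]
  have hU'0 : U' ≠ 0 := by
    rintro h
    apply hW
    rw [hWUV, h, map_zero, zero_mul]
  have hV'0 : V' ≠ 0 := by
    rintro h
    apply hW
    rw [hWUV, h, map_zero, mul_zero]
  obtain ⟨i1, hi1⟩ := MvPolynomial.ne_zero_iff.1 hU'0
  obtain ⟨j1, hj1⟩ := MvPolynomial.ne_zero_iff.1 hV'0
  have hsing : ∀ j : Fin 1 →₀ ℕ, j = Finsupp.single 0 (j 0) := by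
    intro j
    refine Finsupp.ext (fun x => ?_)
    rw [Subsingleton.elim x 0]
    simp
  have hprod : ∀ i j, W.coeff (Finsupp.cons (j 0) i) = U'.coeff i * V'.coeff j := by
    intro i j
    conv_rhs => rw [hsing j]
    rw [← factor_coeff_sep, ← hWUV]
  have habs : ∀ a : ℤ, a ≠ 0 → (1 : ℝ) ≤ |(a : ℝ)| := by
    intro a ha
    have := Int.one_le_abs ha
    exact_mod_cast this
  refine ⟨U', V', hWUV, hU'0, hV'0, ?_, ?_, ?_⟩
  · intro i
    have h1 := hH (Finsupp.cons (j1 0) i)
    rw [hprod] at h1
    push_cast at h1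
    rw [abs_mul] at h1
    nlinarith [habs _ hj1, abs_nonneg ((U'.coeff i : ℤ) : ℝ)]
  · intro j
    have h1 := hH (Finsupp.cons (j 0) i1)
    rw [hprod] at h1
    push_cast at h1
    rw [abs_mul] at h1
    nlinarith [habs _ hi1, abs_nonneg ((V'.coeff j : ℤ) : ℝ)]
  · intro h
    rw [degreeOf_le_iff]
    intro m hm
    have h1 : W.coeff (Finsupp.cons (j1 0) m) ≠ 0 := by
      rw [hprod]
      exact mul_ne_zero (mem_support_iff.1 hm) hj1
    have h2 := monomial_le_degreeOf h.succ (mem_support_iff.2 h1)
    simpa using h2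

/-- one variable: the order of vanishing at a rational point is bounded by the size -/
theorem exists_coeff_one (V : MvPolynomial (Fin 1) ℤ) (hV : V ≠ 0) (ζ : ℚ) (H : ℝ)
    (hH : ∀ i, |((V.coeff i : ℤ) : ℝ)| ≤ H) :
    ∃ j : Fin 1 →₀ ℕ, ((ζ.den : ℝ)) ^ (j 0) ≤ H ∧
      (tr (fun _ => ζ) (V.map (Int.castRingHom ℚ))).coeff j ≠ 0 := by
  classical
  set P : Polynomial ℤ := factor_toP V with hP
  have hP0 : P ≠ 0 := by
    intro h0
    apply hV
    ext j
    rw [← factor_toP_coeff, ← hP, h0]
    simp
  set Q : Polynomial ℚ := factor_toP (V.map (Int.castRingHom ℚ)) with hQ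
  have hPQ : Q = P.map (Int.castRingHom ℚ) := by
    ext n
    rw [hQ, factor_toP_single, coeff_map, Polynomial.coeff_map, hP, factor_toP_single]
  have hQ0 : Q ≠ 0 := by
    rw [hPQ]
    exact (Polynomial.map_ne_zero_iff (Int.cast_injective)).2 hP0
  -- translation
  have htr : ∀ p : MvPolynomial (Fin 1) ℚ, factor_toP (tr (fun _ => ζ) p) =
      (factor_toP p).comp (Polynomial.X + Polynomial.C ζ) := by
    intro p
    induction p using MvPolynomial.induction_on with
    | C a =>
      simp [factor_toP, tr, Polynomial.algebraMap_eq, algebraMap_eq]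
    | add p q hp hq => rw [map_add, map_add, hp, hq, map_add, Polynomial.add_comp]
    | mul_X p n hp =>
      rw [map_mul, map_mul, hp, map_mul, Polynomial.mul_comp]
      congr 1
      simp [factor_toP, tr, Polynomial.algebraMap_eq, add_comm]
  set r : ℕ := Q.rootMultiplicity ζ with hr
  have hcoef : (Q.comp (Polynomial.X + Polynomial.C ζ)).coeff r ≠ 0 := by
    rw [hr, Polynomial.rootMultiplicity_eq_natTrailingDegree]
    apply Polynomial.trailingCoeff_nonzero_iff_nonzero.2
    rw [Ne, Polynomial.comp_X_add_C_eq_zero_iff]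
    exact hQ0
  refine ⟨Finsupp.single 0 r, ?_, ?_⟩
  · rw [Finsupp.single_eq_same]
    set L : Polynomial ℤ := Polynomial.C (ζ.den : ℤ) * Polynomial.X + Polynomial.C (-ζ.num) with hL
    have hden0 : (ζ.den : ℤ) ≠ 0 := by exact_mod_cast ζ.den_nz
    have hLprim : L.IsPrimitive := by
      intro a ha
      rw [Polynomial.C_dvd_iff_dvd_coeff] at ha
      have h1 : a ∣ (ζ.den : ℤ) := by
        have := ha 1
        rwa [hL, Polynomial.coeff_add, Polynomial.coeff_C_mul, Polynomial.coeff_X_one,
          Polynomial.coeff_C_succ, mul_one, add_zero] at this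
      have h0 : a ∣ ζ.num := by
        have := ha 0
        simpa [hL] using this
      have hcop : IsCoprime ζ.num (ζ.den : ℤ) := by
        rw [Int.isCoprime_iff_nat_coprime]
        simpa using ζ.reduced
      exact hcop.isUnit_of_dvd' h0 h1
    have hLpow : (L ^ r).IsPrimitive := by
      induction r with
      | zero => simp
      | succ n ih =>
        rw [pow_succ]
        exact ih.mul hLprim
    have hLmap : (L.map (Int.castRingHom ℚ)) = Polynomial.C (ζ.den : ℚ) *
        (Polynomial.X - Polynomial.C ζ) := by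
      have h3 : (ζ.den : ℚ) * ζ = ζ.num := Rat.den_mul_eq_num ζ
      rw [mul_sub, ← Polynomial.C_mul, h3, hL]
      simp [sub_eq_add_neg]
    have hdvd : L ^ r ∣ P := by
      rw [Polynomial.IsPrimitive.Int.dvd_iff_map_cast_dvd_map_cast _ _ hLpow, ← hPQ,
        Polynomial.map_pow, hLmap, mul_pow]
      have h1 : (Polynomial.X - Polynomial.C ζ) ^ r ∣ Q := Polynomial.pow_rootMultiplicity_dvd Q ζ
      have h2 : IsUnit (Polynomial.C (ζ.den : ℚ) ^ r) := by
        apply IsUnit.pow
        rw [Polynomial.isUnit_C]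
        exact isUnit_iff_ne_zero.2 (by exact_mod_cast ζ.den_nz)
      exact h2.mul_left_dvd.2 h1
    obtain ⟨T, hT⟩ := hdvd
    have hlc : P.leadingCoeff = (ζ.den : ℤ) ^ r * T.leadingCoeff := by
      rw [hT, Polynomial.leadingCoeff_mul, Polynomial.leadingCoeff_pow, hL,
        Polynomial.leadingCoeff_linear hden0]
    have hT0 : T.leadingCoeff ≠ 0 := by
      intro h
      apply hP0
      rw [Polynomial.leadingCoeff_eq_zero] at h
      rw [hT, h, mul_zero]
    have h1 := hH (Finsupp.single 0 P.natDegree)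
    rw [← factor_toP_single, ← hP] at h1
    have h2 : P.coeff P.natDegree = (ζ.den : ℤ) ^ r * T.leadingCoeff := hlc
    rw [h2] at h1
    push_cast at h1
    rw [abs_mul, abs_of_nonneg (by positivity)] at h1
    have h3 : (1 : ℝ) ≤ |(T.leadingCoeff : ℝ)| := by
      have := Int.one_le_abs hT0
      exact_mod_cast this
    have h4 : (0 : ℝ) ≤ (ζ.den : ℝ) ^ r := by positivity
    nlinarith
  · rw [← factor_toP_single, htr]
    exact hcoef

end SB
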