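import Pool.Agent.Lib.MP_28dc30_nt.Norms

/-! Roth's lemma, part A: Hasse derivatives, index filtration, Taylor coefficients. -/

open MvPolynomial

namespace SB

/-- all exponents of `p` have weighted degree at least `θ` -/
def IG {k : ℕ} (d : Fin k → ℕ) (θ : ℝ) (p : MvPolynomial (Fin k) ℚ) : Prop :=
  ∀ i, wt d i < θ → p.coeff i = 0

/-- embedding in the variable `0` -/
noncomputable def e1 {k : ℕ} {R : Type*} [CommRing R] :
    MvPolynomial (Fin 1) R →ₐ[R] MvPolynomial (Fin (k + 1)) R := rename (fun _ => 0)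

/-- embedding in the variables `1, ..., k` -/
noncomputable def e2 {k : ℕ} {R : Type*} [CommRing R] :
    MvPolynomial (Fin k) R →ₐ[R] MvPolynomial (Fin (k + 1)) R := rename Fin.succ

theorem hd_monomial {σ R : Type*} [Fintype σ] [CommSemiring R] (μ J : σ →₀ ℕ) (c : R) :
    hd μ (monomial J c) = monomial (J - μ) (c * ((∏ h, (J h).choose (μ h) : ℕ) : R)) := by
  have h1 : (monomial J c : MvPolynomial σ R) = c • basisMonomials σ R J := by
    rw [coe_basisMonomials, smul_monomial, smul_eq_mul, mul_one]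
  rw [h1, map_smul, hd, Module.Basis.constr_basis, smul_monomial, smul_eq_mul]

/-- coefficients of a Hasse derivative -/
theorem hd_coeff {σ R : Type*} [Fintype σ] [CommSemiring R] (μ J : σ →₀ ℕ)
    (Q : MvPolynomial σ R) :
    coeff J (hd μ Q) = coeff (J + μ) Q * ((∏ h, (J h + μ h).choose (μ h) : ℕ) : R) := by
  classical
  induction Q using MvPolynomial.induction_on' with
  | monomial J' c =>
    rw [hd_monomial, coeff_monomial, coeff_monomial]
    by_cases h1 : J' = J + μ
    · subst h1
      rw [if_pos (by simp), if_pos rfl]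
      rfl
    · rw [if_neg h1, zero_mul]
      split_ifs with h2
      · have h3 : ∃ h, J' h < μ h := by
          by_contra hcon
          push Not at hcon
          apply h1
          ext h
          have h4 := DFunLike.congr_fun h2 h
          rw [Finsupp.tsub_apply] at h4
          rw [Finsupp.add_apply]
          have := hcon h
          omega
        obtain ⟨h, hh⟩ := h3
        have : ∏ h, (J' h).choose (μ h) = 0 :=
          Finset.prod_eq_zero (Finset.mem_univ h) (Nat.choose_eq_zero_of_lt hh)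
        rw [this, Nat.cast_zero, mul_zero]
      · rfl
  | add p q hp hq => rw [map_add, coeff_add, coeff_add, hp, hq, add_mul]

theorem hd_map {σ R R' : Type*} [Fintype σ] [CommSemiring R] [CommSemiring R'] (f : R →+* R')
    (μ : σ →₀ ℕ) (Q : MvPolynomial σ R) : (hd μ Q).map f = hd μ (Q.map f) := by
  ext J
  rw [coeff_map, hd_coeff, hd_coeff, coeff_map, map_mul, map_natCast]

/-- coefficients of a product with separated variables -/
theorem coeff_sep {k : ℕ} {R : Type*} [CommRing R] (U : MvPolynomial (Fin k) R)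
    (V : MvPolynomial (Fin 1) R) (i : Fin k →₀ ℕ) (j : Fin 1 →₀ ℕ) :
    (e2 U * e1 V).coeff (Finsupp.cons (j 0) i) = U.coeff i * V.coeff j := by
  classical
  induction U using MvPolynomial.induction_on' with
  | monomial A c =>
    induction V using MvPolynomial.induction_on' with
    | monomial B c' =>
      have hAB : A.mapDomain Fin.succ + B.mapDomain (fun _ => (0 : Fin (k + 1))) =
          Finsupp.cons (B 0) A := by
        ext h
        rw [Finsupp.add_apply]
        refine Fin.cases ?_ (fun h => ?_) h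
        · rw [Finsupp.cons_zero, Finsupp.mapDomain_of_notMem_range]
          · have : B = Finsupp.single 0 (B 0) := by
              refine Finsupp.ext fun x => ?_
              rw [Subsingleton.elim x 0, Finsupp.single_eq_same]
            rw [this, Finsupp.mapDomain_single, Finsupp.single_eq_same, zero_add]
            simp
          · rintro ⟨x, hx⟩
            exact Fin.succ_ne_zero x hx
        · rw [Finsupp.cons_succ, Finsupp.mapDomain_apply (Fin.succ_injective k),
            Finsupp.mapDomain_of_notMem_range, add_zero]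
          rintro ⟨x, hx⟩
          exact Fin.succ_ne_zero h hx.symm
      rw [e1, e2, rename_monomial, rename_monomial, monomial_mul, hAB, coeff_monomial,
        coeff_monomial, coeff_monomial]
      by_cases h1 : A = i
      · by_cases h2 : B = j
        · subst h1 h2
          simp
        · rw [if_neg, if_neg h2, mul_zero]
          intro h3
          apply h2
          refine Finsupp.ext fun x => ?_
          rw [Subsingleton.elim x 0]
          have := DFunLike.congr_fun h3 0
          simpa using this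
      · rw [if_neg, if_neg h1, zero_mul]
        intro h3
        apply h1
        ext x
        have := DFunLike.congr_fun h3 x.succ
        simpa using this
    | add p q hp hq => rw [map_add, mul_add, coeff_add, coeff_add, hp, hq, mul_add]
  | add p q hp hq => rw [map_add, add_mul, coeff_add, coeff_add, hp, hq, add_mul]

theorem hd_sep {k : ℕ} {R : Type*} [CommRing R] (j : Fin 1 →₀ ℕ) (μ : Fin k →₀ ℕ)
    (U : MvPolynomial (Fin k) R) (V : MvPolynomial (Fin 1) R) :
    hd (Finsupp.cons (j 0) μ) (e2 U * e1 V) = e2 (hd μ U) * e1 (hd j V) := by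
  ext I
  set j' : Fin 1 →₀ ℕ := Finsupp.single 0 (I 0) with hj'
  have hI : I = Finsupp.cons (j' 0) (Finsupp.tail I) := by
    rw [hj', Finsupp.single_eq_same, Finsupp.cons_tail]
  have hI2 : I + Finsupp.cons (j 0) μ = Finsupp.cons ((j' + j) 0) (Finsupp.tail I + μ) := by
    ext h
    refine Fin.cases ?_ (fun h => ?_) h
    · simp [hj']
    · simp [Finsupp.tail_apply]
  rw [hd_coeff, hI2, coeff_sep]
  conv_rhs => rw [hI, coeff_sep, hd_coeff, hd_coeff]
  rw [Fin.prod_univ_succ]
  simp only [Finsupp.cons_zero, Finsupp.cons_succ, Finset.univ_unique, Fin.default_eq_zero,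
    Finset.prod_singleton, Nat.cast_mul, Finsupp.tail_apply]
  have e3 : j' 0 = I 0 := by rw [hj', Finsupp.single_eq_same]
  rw [e3]
  ring

theorem hd_degreeOf {σ R : Type*} [Fintype σ] [CommSemiring R] (μ : σ →₀ ℕ)
    (Q : MvPolynomial σ R) (h : σ) : (hd μ Q).degreeOf h ≤ Q.degreeOf h := by
  rw [degreeOf_le_iff]
  intro J hJ
  rw [mem_support_iff, hd_coeff] at hJ
  have h1 : J + μ ∈ Q.support := mem_support_iff.mpr (left_ne_zero_of_mul hJ)
  have h2 := (degreeOf_le_iff (n := h) (d := Q.degreeOf h) (f := Q)).mp le_rfl _ h1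
  rw [Finsupp.add_apply] at h2
  omega

/-- size of a Hasse derivative -/
theorem wn_hd_le {k : ℕ} (d : Fin k → ℕ) (μ : Fin k →₀ ℕ) (Q : MvPolynomial (Fin k) ℤ)
    (hQ : ∀ h, Q.degreeOf h ≤ d h) (H : ℝ) (hH : ∀ i, |((Q.coeff i : ℤ) : ℝ)| ≤ H) :
    wn (fun x : ℤ => |(x : ℝ)|) (fun _ => 1) (hd μ Q) ≤ (4 : ℝ) ^ (∑ h, d h) * H := by
  classical
  have hH0 : 0 ≤ H := (abs_nonneg _).trans (hH 0)
  have hterm : ∀ J ∈ (hd μ Q).support,
      |(((hd μ Q).coeff J : ℤ) : ℝ)| * J.prod (fun _ e => (1 : ℝ) ^ e) ≤ 2 ^ (∑ h, d h) * H := by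
    intro J hJ
    have h1 : J.prod (fun _ e => (1 : ℝ) ^ e) = 1 := by simp [Finsupp.prod]
    rw [h1, mul_one]
    rw [mem_support_iff, hd_coeff] at hJ
    have h2 : J + μ ∈ Q.support := mem_support_iff.mpr (left_ne_zero_of_mul hJ)
    rw [hd_coeff, Int.cast_mul, abs_mul, mul_comm]
    have h3 : |(((∏ h, (J h + μ h).choose (μ h) : ℕ) : ℤ) : ℝ)| ≤ 2 ^ (∑ h, d h) := by
      rw [Int.cast_natCast, Nat.abs_cast]
      have h4 : ∏ h, (J h + μ h).choose (μ h) ≤ 2 ^ (∑ h, d h) := by
        rw [← Finset.prod_pow_eq_pow_sum]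
        refine Finset.prod_le_prod' fun h _ => ?_
        have h5 := (degreeOf_le_iff (n := h) (d := d h) (f := Q)).mp (hQ h) _ h2
        rw [Finsupp.add_apply] at h5
        exact (Nat.choose_le_two_pow _ _).trans (Nat.pow_le_pow_right (by norm_num) h5)
      exact_mod_cast h4
    exact mul_le_mul h3 (hH _) (abs_nonneg _) (by positivity)
  have hcard : (hd μ Q).support.card ≤ 2 ^ (∑ h, d h) := by
    have h1 : (hd μ Q).support.card ≤ (Fintype.piFinset fun h => Finset.range (d h + 1)).card := by
      refine Finset.card_le_card_of_injOn (fun J => (J : Fin k → ℕ)) ?_ ?_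
      · intro J hJ
        rw [Finset.mem_coe] at hJ
        rw [Finset.mem_coe, Fintype.mem_piFinset]
        intro h
        rw [Finset.mem_range]
        have h2 := (degreeOf_le_iff (n := h) (d := d h) (f := hd μ Q)).mp
          ((hd_degreeOf μ Q h).trans (hQ h)) J hJ
        exact Nat.lt_succ_of_le h2
      · intro J _ J' _ hJJ'
        exact DFunLike.coe_injective hJJ'
    refine h1.trans ?_
    rw [Fintype.card_piFinset, ← Finset.prod_pow_eq_pow_sum]
    refine Finset.prod_le_prod' fun h _ => ?_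
    rw [Finset.card_range]
    exact Nat.lt_two_pow_self
  rw [wn]
  calc ∑ J ∈ (hd μ Q).support, |(((hd μ Q).coeff J : ℤ) : ℝ)| *
        J.prod (fun _ e => (1 : ℝ) ^ e)
      ≤ ∑ _J ∈ (hd μ Q).support, 2 ^ (∑ h, d h) * H := Finset.sum_le_sum hterm
    _ = ((hd μ Q).support.card : ℝ) * (2 ^ (∑ h, d h) * H) := by
        rw [Finset.sum_const, nsmul_eq_mul]
    _ ≤ ((2 ^ (∑ h, d h) : ℕ) : ℝ) * (2 ^ (∑ h, d h) * H) := by
        refine mul_le_mul_of_nonneg_right ?_ (by positivity)
        exact_mod_cast hcard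
    _ = 4 ^ (∑ h, d h) * H := by
        rw [← mul_assoc]
        congr 1
        push_cast
        rw [← mul_pow]
        norm_num

private theorem hd_zero_eq {k : ℕ} (f : MvPolynomial (Fin k) ℚ) : hd 0 f = f := by
  ext J
  rw [hd_coeff]
  simp

private theorem pderiv_hd {k : ℕ} (l : Fin k) (μ : Fin k →₀ ℕ) (f : MvPolynomial (Fin k) ℚ) :
    pderiv l (hd μ f) = ((μ l : ℚ) + 1) • hd (μ + Finsupp.single l 1) f := by
  induction f using MvPolynomial.induction_on' with
  | monomial J c =>
    rw [hd_monomial, hd_monomial, pderiv_monomial, smul_monomial, tsub_tsub]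
    congr 1
    have h1 : (∏ h, (J h).choose ((μ + Finsupp.single l 1 : Fin k →₀ ℕ) h)) * (μ l + 1) =
        (∏ h, (J h).choose (μ h)) * (J l - μ l) := by
      have p1 := Finset.mul_prod_erase Finset.univ
        (fun h => (J h).choose ((μ + Finsupp.single l 1 : Fin k →₀ ℕ) h)) (Finset.mem_univ l)
      have p2 := Finset.mul_prod_erase Finset.univ
        (fun h => (J h).choose (μ h)) (Finset.mem_univ l)
      have h2 : ∏ h ∈ Finset.univ.erase l,
          (J h).choose ((μ + Finsupp.single l 1 : Fin k →₀ ℕ) h) =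
          ∏ h ∈ Finset.univ.erase l, (J h).choose (μ h) := by
        refine Finset.prod_congr rfl fun h hh => ?_
        rw [Finsupp.add_apply, Finsupp.single_eq_of_ne (Finset.ne_of_mem_erase hh), add_zero]
      have h3 := Nat.choose_succ_right_eq (J l) (μ l)
      have h5 : (μ + Finsupp.single l 1 : Fin k →₀ ℕ) l = μ l + 1 := by
        rw [Finsupp.add_apply, Finsupp.single_eq_same]
      rw [← p1, ← p2, h2, h5]
      calc (J l).choose (μ l + 1) * (∏ h ∈ Finset.univ.erase l, (J h).choose (μ h)) * (μ l + 1)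
          = ((J l).choose (μ l + 1) * (μ l + 1)) *
            ∏ h ∈ Finset.univ.erase l, (J h).choose (μ h) := by ring
        _ = (J l).choose (μ l) * (∏ h ∈ Finset.univ.erase l, (J h).choose (μ h)) *
            (J l - μ l) := by rw [h3]; ring
    have h4 : (((∏ h, (J h).choose ((μ + Finsupp.single l 1 : Fin k →₀ ℕ) h) : ℕ) : ℚ)) *
        ((μ l : ℚ) + 1) = ((∏ h, (J h).choose (μ h) : ℕ) : ℚ) * ((J l - μ l : ℕ) : ℚ) := by
      exact_mod_cast h1
    rw [Finsupp.tsub_apply, smul_eq_mul]
    linear_combination -c * h4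
  | add p q hp hq => rw [map_add, map_add, map_add, hp, hq, smul_add]

private theorem tr_X {k : ℕ} (ζ : Fin k → ℚ) (h : Fin k) : tr ζ (X h) = C (ζ h) + X h := by
  rw [tr, aeval_X]

private theorem tr_C {k : ℕ} (ζ : Fin k → ℚ) (c : ℚ) : tr ζ (C c) = C c := by
  rw [tr, ← algebraMap_eq, AlgHom.commutes]

private theorem tr_pderiv {k : ℕ} (ζ : Fin k → ℚ) (l : Fin k) (Q : MvPolynomial (Fin k) ℚ) :
    tr ζ (pderiv l Q) = pderiv l (tr ζ Q) := by
  classical
  induction Q using MvPolynomial.induction_on with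
  | C c => rw [tr_C, pderiv_C, map_zero]
  | add p q hp hq => rw [map_add, map_add, map_add, map_add, hp, hq]
  | mul_X p h hp =>
    rw [Derivation.leibniz, map_mul, Derivation.leibniz, map_add, smul_eq_mul, smul_eq_mul,
      smul_eq_mul, smul_eq_mul, map_mul, map_mul, hp, tr_X, map_add, pderiv_C, zero_add, pderiv_X]
    congr 2
    by_cases hl : h = l
    · subst hl
      rw [Pi.single_eq_same, map_one]
    · rw [Pi.single_eq_of_ne hl, map_zero]

/-- the Hasse derivatives commute with translations -/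
theorem tr_hd {k : ℕ} (ζ : Fin k → ℚ) (μ : Fin k →₀ ℕ) (Q : MvPolynomial (Fin k) ℚ) :
    tr ζ (hd μ Q) = hd μ (tr ζ Q) := by
  have key : ∀ n : ℕ, ∀ μ : Fin k →₀ ℕ, μ.degree = n → tr ζ (hd μ Q) = hd μ (tr ζ Q) := by
    intro n
    induction n with
    | zero =>
      intro μ hμ
      rw [Finsupp.degree_eq_zero_iff] at hμ
      rw [hμ, hd_zero_eq, hd_zero_eq]
    | succ n ih =>
      intro μ hμ
      have h1 : ∃ l, μ l ≠ 0 := by
        by_contra hcon
        push Not at hcon
        have : μ = 0 := by ext l; exact hcon l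
        rw [this, map_zero] at hμ
        omega
      obtain ⟨l, hl⟩ := h1
      set μ' := μ - Finsupp.single l 1 with hμ'
      have h2 : μ = μ' + Finsupp.single l 1 := by
        ext x
        rw [hμ', Finsupp.add_apply, Finsupp.tsub_apply]
        by_cases hx : x = l
        · subst hx
          rw [Finsupp.single_eq_same]
          omega
        · rw [Finsupp.single_eq_of_ne hx]
          omega
      have h3 : μ'.degree = n := by
        rw [h2, map_add, Finsupp.degree_single] at hμ
        omega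
      have h4 := ih μ' h3
      have h5 := congrArg (pderiv l) h4
      rw [← tr_pderiv, pderiv_hd, pderiv_hd, map_smul, ← h2] at h5
      have h6 : ((μ' l : ℚ) + 1) ≠ 0 := by positivity
      exact smul_right_injective _ h6 h5
  exact key _ μ rfl

theorem IG.hd {k : ℕ} {d : Fin k → ℕ} {θ : ℝ} {p : MvPolynomial (Fin k) ℚ} (h : IG d θ p)
    (μ : Fin k →₀ ℕ) : IG d (θ - wt d μ) (hd μ p) := by
  intro i hi
  rw [hd_coeff, h (i + μ), zero_mul]
  have : wt d (i + μ) = wt d i + wt d μ := by
    rw [wt, wt, wt, ← Finset.sum_add_distrib]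
    refine Finset.sum_congr rfl fun h _ => ?_
    rw [Finsupp.add_apply, Nat.cast_add, add_div]
  rw [this]
  linarith

theorem IG.mono {k : ℕ} {d : Fin k → ℕ} {θ θ' : ℝ} {p : MvPolynomial (Fin k) ℚ} (h : IG d θ p)
    (h' : θ' ≤ θ) : IG d θ' p :=
  fun i hi => h i (hi.trans_le h')

theorem IG.of_nonpos {k : ℕ} {d : Fin k → ℕ} {θ : ℝ} (h : θ ≤ 0) (p : MvPolynomial (Fin k) ℚ) :
    IG d θ p := by
  intro i hi
  have h1 : 0 ≤ wt d i :=
    Finset.sum_nonneg fun h _ => div_nonneg (Nat.cast_nonneg _) (Nat.cast_nonneg _)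
  linarith

theorem IG.sum {k : ℕ} {d : Fin k → ℕ} {θ : ℝ} {ι : Type*} (t : Finset ι)
    (f : ι → MvPolynomial (Fin k) ℚ) (h : ∀ i ∈ t, IG d θ (f i)) : IG d θ (∑ i ∈ t, f i) := by
  intro i hi
  rw [coeff_sum]
  exact Finset.sum_eq_zero fun x hx => h x hx i hi

private theorem wt_add {k : ℕ} (d : Fin k → ℕ) (i j : Fin k →₀ ℕ) :
    wt d (i + j) = wt d i + wt d j := by
  rw [wt, wt, wt, ← Finset.sum_add_distrib]
  refine Finset.sum_congr rfl fun h _ => ?_
  rw [Finsupp.add_apply, Nat.cast_add, add_div]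

theorem IG.mul {k : ℕ} {d : Fin k → ℕ} {θ θ' : ℝ} {p q : MvPolynomial (Fin k) ℚ}
    (hp : IG d θ p) (hq : IG d θ' q) : IG d (θ + θ') (p * q) := by
  classical
  intro i hi
  rw [coeff_mul]
  refine Finset.sum_eq_zero fun x hx => ?_
  rw [Finset.HasAntidiagonal.mem_antidiagonal] at hx
  rw [← hx, wt_add] at hi
  rcases lt_or_ge (wt d x.1) θ with h1 | h1
  · rw [hp _ h1, zero_mul]
  · rw [hq _ (by linarith), mul_zero]

private theorem IG_prod {k : ℕ} {d : Fin k → ℕ} {ι : Type*} (t : Finset ι) (θ : ι → ℝ)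
    (f : ι → MvPolynomial (Fin k) ℚ) (h : ∀ i ∈ t, IG d (θ i) (f i)) :
    IG d (∑ i ∈ t, θ i) (∏ i ∈ t, f i) := by
  classical
  induction t using Finset.induction_on with
  | empty =>
    rw [Finset.sum_empty, Finset.prod_empty]
    exact IG.of_nonpos le_rfl _
  | insert i t hi ih =>
    rw [Finset.sum_insert hi, Finset.prod_insert hi]
    exact (h i (Finset.mem_insert_self i t)).mul
      (ih fun j hj => h j (Finset.mem_insert_of_mem hj))

/-- index of a determinant, index bounds depending on the column -/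
theorem IG.det {k s : ℕ} {d : Fin k → ℕ} (θ : Fin s → ℝ)
    (E : Matrix (Fin s) (Fin s) (MvPolynomial (Fin k) ℚ)) (h : ∀ i j, IG d (θ j) (E i j)) :
    IG d (∑ j, θ j) E.det := by
  rw [Matrix.det_apply]
  refine IG.sum _ _ fun σ _ => ?_
  have h1 := IG_prod (d := d) Finset.univ θ (fun i => E (σ i) i) fun i _ => h (σ i) i
  intro i hi
  rcases Int.units_eq_one_or (Equiv.Perm.sign σ) with h2 | h2
  · rw [h2, one_smul]
    exact h1 i hi
  · rw [h2, Units.neg_smul, one_smul, coeff_neg, h1 i hi, neg_zero]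

/-- Taylor coefficients of a product with separated variables -/
theorem coeff_tr_sep {k : ℕ} (ζ : Fin (k + 1) → ℚ) (U : MvPolynomial (Fin k) ℚ)
    (V : MvPolynomial (Fin 1) ℚ) (i : Fin k →₀ ℕ) (j : Fin 1 →₀ ℕ) :
    (tr ζ (e2 U * e1 V)).coeff (Finsupp.cons (j 0) i) =
      (tr (fun h => ζ h.succ) U).coeff i * (tr (fun _ => ζ 0) V).coeff j := by
  have h1 : tr ζ (e2 U) = e2 (tr (fun h => ζ h.succ) U) := by
    induction U using MvPolynomial.induction_on with
    | C c => rw [tr_C, e2, rename_C, tr_C]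
    | add p q hp hq => rw [map_add, map_add, map_add, map_add, hp, hq]
    | mul_X p h hp =>
      rw [map_mul, map_mul, map_mul, map_mul, hp]
      congr 1
      rw [tr_X, map_add, e2, rename_X, rename_C, tr_X]
  have h2 : tr ζ (e1 V) = e1 (tr (fun _ => ζ 0) V) := by
    induction V using MvPolynomial.induction_on with
    | C c => rw [tr_C, e1, rename_C, tr_C]
    | add p q hp hq => rw [map_add, map_add, map_add, map_add, hp, hq]
    | mul_X p h hp =>
      rw [map_mul, map_mul, map_mul, map_mul, hp]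
      congr 1
      rw [tr_X, map_add, e1, rename_X, rename_C, tr_X]
  rw [map_mul, h1, h2, coeff_sep]

end SB
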