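import Pool.Agent.Lib.MP_28dc30_nt.Defs

/-! Generalised Wronskians. -/

open MvPolynomial

namespace SB

section Wronskian

variable {k : ℕ}

private theorem wron_hd_monomial (μ J : Fin k →₀ ℕ) (c : ℚ) :
    hd μ (monomial J c) = monomial (J - μ) (((∏ h, (J h).choose (μ h) : ℕ) : ℚ) * c) := by
  have h1 : (monomial J c : MvPolynomial (Fin k) ℚ) = c • basisMonomials (Fin k) ℚ J := by
    rw [coe_basisMonomials, smul_monomial, smul_eq_mul, mul_one]
  rw [h1, map_smul, hd, Module.Basis.constr_basis, smul_monomial, smul_eq_mul, mul_comm]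

private theorem wron_hd_zero (f : MvPolynomial (Fin k) ℚ) : hd 0 f = f := by
  induction f using MvPolynomial.induction_on' with
  | monomial J c =>
    rw [wron_hd_monomial]
    simp
  | add p q hp hq => rw [map_add, hp, hq]

private theorem wron_pderiv_hd (l : Fin k) (μ : Fin k →₀ ℕ) (f : MvPolynomial (Fin k) ℚ) :
    pderiv l (hd μ f) = ((μ l : ℚ) + 1) • hd (μ + Finsupp.single l 1) f := by
  induction f using MvPolynomial.induction_on' with
  | monomial J c =>
    rw [wron_hd_monomial, wron_hd_monomial, pderiv_monomial, smul_monomial, tsub_tsub]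
    congr 1
    have h1 : (∏ h, (J h).choose ((μ + Finsupp.single l 1 : Fin k →₀ ℕ) h)) * (μ l + 1) =
        (∏ h, (J h).choose (μ h)) * (J l - μ l) := by
      have p1 := Finset.mul_prod_erase Finset.univ
        (fun h => (J h).choose ((μ + Finsupp.single l 1 : Fin k →₀ ℕ) h)) (Finset.mem_univ l)
      have p2 := Finset.mul_prod_erase Finset.univ
        (fun h => (J h).choose (μ h)) (Finset.mem_univ l)
      have h2 : ∏ h ∈ Finset.univ.erase l,
          (J h).choose ((μ + Finsupp.single l 1 : Fin k →₀ ℕ) h) =
          ∏ h ∈ Finset.univ.erase l, (J h).choose (μ h) := by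
        refine Finset.prod_congr rfl fun h hh => ?_
        rw [Finsupp.add_apply, Finsupp.single_eq_of_ne (Finset.ne_of_mem_erase hh), add_zero]
      have h3 := Nat.choose_succ_right_eq (J l) (μ l)
      have h5 : (μ + Finsupp.single l 1 : Fin k →₀ ℕ) l = μ l + 1 := by
        rw [Finsupp.add_apply, Finsupp.single_eq_same]
      rw [← p1, ← p2, h2, h5]
      calc (J l).choose (μ l + 1) * (∏ h ∈ Finset.univ.erase l, (J h).choose (μ h)) * (μ l + 1)
          = ((J l).choose (μ l + 1) * (μ l + 1)) *
            ∏ h ∈ Finset.univ.erase l, (J h).choose (μ h) := by ring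
        _ = (J l).choose (μ l) * (∏ h ∈ Finset.univ.erase l, (J h).choose (μ h)) *
            (J l - μ l) := by rw [h3]; ring
    have h4 : (((∏ h, (J h).choose ((μ + Finsupp.single l 1 : Fin k →₀ ℕ) h) : ℕ) : ℚ)) *
        ((μ l : ℚ) + 1) = ((∏ h, (J h).choose (μ h) : ℕ) : ℚ) * ((J l - μ l : ℕ) : ℚ) := by
      exact_mod_cast h1
    rw [Finsupp.tsub_apply, smul_eq_mul]
    linear_combination -c * h4
  | add p q hp hq => rw [map_add, map_add, map_add, hp, hq, smul_add]

private theorem wron_coeff_euler (l : Fin k) (f : MvPolynomial (Fin k) ℚ) (B : Fin k →₀ ℕ) :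
    coeff B (X l * pderiv l f) = (B l : ℚ) * coeff B f := by
  induction f using MvPolynomial.induction_on' with
  | monomial J c =>
    rw [X_mul_pderiv_monomial, coeff_smul, coeff_monomial, nsmul_eq_mul]
    split_ifs with h
    · rw [h]
    · simp
  | add p q hp hq => rw [map_add, mul_add, coeff_add, coeff_add, hp, hq, mul_add]

/-- proportionality from vanishing `2 × 2` Wronskians -/
private theorem wron_prop {P Q : MvPolynomial (Fin k) ℚ} (hQ : Q ≠ 0)
    (h : ∀ l, Q * pderiv l P = P * pderiv l Q) : ∃ c : ℚ, P = C c * Q := by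
  let m : MonomialOrder (Fin k) := MonomialOrder.lex
  have hJ : coeff (m.degree Q) Q ≠ 0 := MonomialOrder.coeff_degree_ne_zero_iff.mpr hQ
  set J := m.degree Q with hJdef
  set c : ℚ := coeff J P / coeff J Q with hc
  refine ⟨c, ?_⟩
  by_contra hne
  set R := P - C c * Q with hR
  have hR0 : R ≠ 0 := fun h0 => hne (sub_eq_zero.mp h0)
  have hRJ : coeff J R = 0 := by
    rw [hR, coeff_sub, coeff_C_mul, hc, div_mul_cancel₀ _ hJ, sub_self]
  have hI : coeff (m.degree R) R ≠ 0 := MonomialOrder.coeff_degree_ne_zero_iff.mpr hR0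
  set I := m.degree R with hIdef
  have hRl : ∀ l, Q * pderiv l R = R * pderiv l Q := by
    intro l
    rw [hR, map_sub, Derivation.leibniz, pderiv_C]
    simp only [smul_eq_mul, mul_zero, add_zero]
    linear_combination h l
  have hdeg : ∀ (l : Fin k) (f : MvPolynomial (Fin k) ℚ),
      m.toSyn (m.degree (X l * pderiv l f)) ≤ m.toSyn (m.degree f) := by
    intro l f
    rw [MonomialOrder.degree_le_iff]
    intro B hB
    refine MonomialOrder.le_degree ?_
    rw [mem_support_iff] at hB ⊢
    rw [wron_coeff_euler] at hB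
    exact right_ne_zero_of_mul hB
  have hIJ : ∀ l, (I l : ℚ) = (J l : ℚ) := by
    intro l
    have e1 : coeff (J + I) (Q * (X l * pderiv l R)) = coeff J Q * ((I l : ℚ) * coeff I R) := by
      rw [MonomialOrder.coeff_mul_of_add_of_degree_le (m := m) (le_of_eq rfl) (hdeg l R),
        wron_coeff_euler]
    have e2 : coeff (I + J) (R * (X l * pderiv l Q)) = coeff I R * ((J l : ℚ) * coeff J Q) := by
      rw [MonomialOrder.coeff_mul_of_add_of_degree_le (m := m) (le_of_eq rfl) (hdeg l Q),
        wron_coeff_euler]
    have e3 : Q * (X l * pderiv l R) = R * (X l * pderiv l Q) := by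
      linear_combination X l * hRl l
    rw [e3, add_comm, e2] at e1
    have e4 : (coeff J Q * coeff I R) * ((J l : ℚ) - (I l : ℚ)) = 0 := by
      linear_combination e1
    rcases mul_eq_zero.mp e4 with e5 | e5
    · exact absurd e5 (mul_ne_zero hJ hI)
    · linarith
  have : I = J := by
    ext l
    exact_mod_cast hIJ l
  rw [this] at hI
  exact hI hRJ

end Wronskian

/-- Linearly independent polynomials have a non-vanishing generalised Wronskian. -/
theorem exists_wronskian {k : ℕ} (s : ℕ) (φ : Fin s → MvPolynomial (Fin k) ℚ)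
    (hφ : LinearIndependent ℚ φ) :
    ∃ μ : Fin s → (Fin k →₀ ℕ), (∀ i, (μ i).degree ≤ (i : ℕ)) ∧
      (Matrix.of fun i j => hd (μ i) (φ j)).det ≠ 0 := by
  induction s with
  | zero =>
    refine ⟨fun i => i.elim0, fun i => i.elim0, ?_⟩
    rw [Matrix.det_fin_zero]
    exact one_ne_zero
  | succ s ih =>
    obtain ⟨μ, hμ, hdet⟩ := ih (fun j => φ j.castSucc)
      (hφ.comp Fin.castSucc (Fin.castSucc_injective s))
    by_contra hcon
    push Not at hcon
    -- cofactors
    set c : Fin (s + 1) → MvPolynomial (Fin k) ℚ := fun j => (-1) ^ (s + (j : ℕ)) *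
      (Matrix.of fun (i : Fin s) (j' : Fin s) => hd (μ i) (φ (j.succAbove j'))).det with hc
    have hlast : c (Fin.last s) = (Matrix.of fun i j => hd (μ i) (φ (Fin.castSucc j))).det := by
      rw [hc]
      simp only [Fin.succAbove_last, Fin.val_last]
      rw [Even.neg_one_pow ⟨s, rfl⟩, one_mul]
    have hlast0 : c (Fin.last s) ≠ 0 := by rw [hlast]; exact hdet
    have hrel : ∀ ν : Fin k →₀ ℕ, ν.degree ≤ s → ∑ j, c j * hd ν (φ j) = 0 := by
      intro ν hν
      have h1 := hcon (Fin.snoc μ ν) (by
        intro i
        refine Fin.lastCases ?_ (fun i => ?_) i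
        · simpa using hν
        · simpa using hμ i)
      rw [Matrix.det_succ_row _ (Fin.last s)] at h1
      rw [← h1]
      refine Finset.sum_congr rfl fun j _ => ?_
      rw [hc]
      have e : (Matrix.of fun i j => hd ((Fin.snoc μ ν : Fin (s + 1) → (Fin k →₀ ℕ)) i) (φ j)).submatrix
          (Fin.last s).succAbove j.succAbove =
          Matrix.of fun (i : Fin s) (j' : Fin s) => hd (μ i) (φ (j.succAbove j')) := by
        ext i j' : 2
        simp [Fin.succAbove_last]
      rw [e]
      simp only [Matrix.of_apply, Fin.snoc_last, Fin.val_last]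
      ring
    have hder : ∀ (l : Fin k) (i : Fin s), ∑ j, pderiv l (c j) * hd (μ i) (φ j) = 0 := by
      intro l i
      have h1 := congrArg (pderiv l) (hrel (μ i) ((hμ i).trans i.2.le))
      rw [map_sum, map_zero] at h1
      have h2 := hrel (μ i + Finsupp.single l 1) (by
        rw [map_add, Finsupp.degree_single]
        have := hμ i
        have := i.2
        omega)
      have h3 : ∀ j, pderiv l (c j * hd (μ i) (φ j)) = pderiv l (c j) * hd (μ i) (φ j) +
          ((μ i l : ℚ) + 1) • (c j * hd (μ i + Finsupp.single l 1) (φ j)) := by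
        intro j
        rw [Derivation.leibniz, wron_pderiv_hd, smul_eq_mul, smul_eq_mul, mul_smul_comm]
        ring
      rw [Finset.sum_congr rfl fun j _ => h3 j, Finset.sum_add_distrib, ← Finset.smul_sum, h2,
        smul_zero, add_zero] at h1
      exact h1
    have hprop : ∀ j, ∃ a : ℚ, c j = C a * c (Fin.last s) := by
      intro j
      refine wron_prop hlast0 fun l => ?_
      -- the vector `v`
      set v : Fin (s + 1) → MvPolynomial (Fin k) ℚ := fun j =>
        c (Fin.last s) * pderiv l (c j) - c j * pderiv l (c (Fin.last s)) with hv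
      have hvlast : v (Fin.last s) = 0 := by rw [hv]; ring
      have hvsum : ∀ i : Fin s, ∑ j, hd (μ i) (φ j) * v j = 0 := by
        intro i
        have h1 := hder l i
        have h2 := hrel (μ i) ((hμ i).trans i.2.le)
        have h3 : ∀ j, hd (μ i) (φ j) * v j =
            c (Fin.last s) * (pderiv l (c j) * hd (μ i) (φ j)) -
            pderiv l (c (Fin.last s)) * (c j * hd (μ i) (φ j)) := by
          intro j
          rw [hv]
          ring
        rw [Finset.sum_congr rfl fun j _ => h3 j, Finset.sum_sub_distrib, ← Finset.mul_sum,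
          ← Finset.mul_sum, h1, h2, mul_zero, mul_zero, sub_zero]
      have hv0 : (fun j : Fin s => v j.castSucc) = 0 := by
        refine Matrix.eq_zero_of_mulVec_eq_zero hdet ?_
        ext1 i
        have h1 := hvsum i
        rw [Fin.sum_univ_castSucc, hvlast, mul_zero, add_zero] at h1
        simpa [Matrix.mulVec, dotProduct] using h1
      have hvj : v j = 0 := by
        refine Fin.lastCases hvlast (fun i => ?_) j
        exact congrFun hv0 i
      exact sub_eq_zero.mp hvj
    choose a ha using hprop
    have ha1 : a (Fin.last s) = 1 := by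
      have h1 := ha (Fin.last s)
      have h2 : (C (a (Fin.last s)) - 1) * c (Fin.last s) = 0 := by
        rw [sub_mul, ← h1, one_mul, sub_self]
      rcases mul_eq_zero.mp h2 with h3 | h3
      · have h4 : (C (a (Fin.last s)) : MvPolynomial (Fin k) ℚ) = C 1 := by
          rw [C_1]; exact sub_eq_zero.mp h3
        exact C_injective _ _ h4
      · exact absurd h3 hlast0
    have hsum : ∑ j, a j • φ j = 0 := by
      have h1 := hrel 0 (by simp)
      have h2 : c (Fin.last s) * ∑ j, a j • φ j = 0 := by
        rw [← h1, Finset.mul_sum]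
        refine Finset.sum_congr rfl fun j _ => ?_
        rw [wron_hd_zero, ha j, smul_eq_C_mul]
        ring
      exact (mul_eq_zero.mp h2).resolve_left hlast0
    have := Fintype.linearIndependent_iff.mp hφ a hsum (Fin.last s)
    rw [ha1] at this
    exact one_ne_zero this

end SB
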